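import Pool.Agent.H479.U.Fin

open Finset MeasureTheory Complex

namespace H479.U

open H343.ZSide

/-- the constant window -/
noncomputable def w0 (x : ℝ) : ℝ := (Set.Icc (-(1 / 2) : ℝ) (1 / 2)).indicator (fun _ => 1) x

lemma w0_win : Win w0 where
  meas := measurable_const.indicator measurableSet_Icc
  nonneg x := Set.indicator_nonneg (fun _ _ => zero_le_one) x
  bdd := ⟨1, fun x => by
    unfold w0
    by_cases h : x ∈ Set.Icc (-(1 / 2) : ℝ) (1 / 2)
    · rw [Set.indicator_of_mem h]
    · rw [Set.indicator_of_notMem h]; norm_num⟩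
  even x := by
    unfold w0
    by_cases h : x ∈ Set.Icc (-(1 / 2) : ℝ) (1 / 2)
    · have h' : -x ∈ Set.Icc (-(1 / 2) : ℝ) (1 / 2) := ⟨by linarith [h.2], by linarith [h.1]⟩
      rw [Set.indicator_of_mem h, Set.indicator_of_mem h']
    · have h' : -x ∉ Set.Icc (-(1 / 2) : ℝ) (1 / 2) := fun h2 =>
        h ⟨by linarith [h2.2], by linarith [h2.1]⟩
      rw [Set.indicator_of_notMem h, Set.indicator_of_notMem h']
  supp x hx := by
    unfold w0
    apply Set.indicator_of_notMem
    intro h
    have := abs_le.2 h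
    linarith
  one := by
    unfold w0
    rw [integral_indicator measurableSet_Icc, setIntegral_const]
    simp
    norm_num

lemma WW_w0 {a : ℝ} (h0 : 0 ≤ a) (h1 : a ≤ 1) : WW w0 a = 1 - a := by
  unfold WW
  have e : ∀ t : ℝ, w0 t * w0 (a - t) =
      (Set.Icc (a - 1 / 2) (1 / 2)).indicator (fun _ => (1 : ℝ)) t := by
    intro t
    unfold w0
    by_cases h : t ∈ Set.Icc (a - 1 / 2) (1 / 2)
    · have k1 : t ∈ Set.Icc (-(1 / 2) : ℝ) (1 / 2) := ⟨by linarith [h.1], h.2⟩
      have k2 : a - t ∈ Set.Icc (-(1 / 2) : ℝ) (1 / 2) := ⟨by linarith [h.2], by linarith [h.1]⟩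
      rw [Set.indicator_of_mem h, Set.indicator_of_mem k1, Set.indicator_of_mem k2, one_mul]
    · rw [Set.indicator_of_notMem h]
      by_cases k1 : t ∈ Set.Icc (-(1 / 2) : ℝ) (1 / 2)
      · have k2 : a - t ∉ Set.Icc (-(1 / 2) : ℝ) (1 / 2) := by
          intro k2
          exact h ⟨by linarith [k2.2], k1.2⟩
        rw [Set.indicator_of_notMem k2, mul_zero]
      · rw [Set.indicator_of_notMem k1, zero_mul]
  simp_rw [e]
  rw [integral_indicator measurableSet_Icc, setIntegral_const, smul_eq_mul, mul_one,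
    Real.volume_real_Icc_of_le (by linarith)]
  ring

lemma Cw_w0 {b : ℝ} (hb : 1 ≤ b) : Cw w0 b = 1 + 1 / (3 * b ^ 2) := by
  have hb0 : 0 < b := by linarith
  unfold Cw
  have e : ∫ α in (0 : ℝ)..b, WW w0 (α / b) * min α 1 =
      (∫ α in (0 : ℝ)..1, (α - α ^ 2 / b)) + ∫ α in (1 : ℝ)..b, (1 - α / b) := by
    rw [← intervalIntegral.integral_add_adjacent_intervals (b := 1)
      (q_ii w0_win b 0 1 hb0 _ (by fun_prop)) (q_ii w0_win b 1 b hb0 _ (by fun_prop))]
    congr 1
    · apply intervalIntegral.integral_congr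
      intro α hα
      rw [Set.uIcc_of_le zero_le_one] at hα
      simp only
      rw [WW_w0 (div_nonneg hα.1 hb0.le) ((div_le_one hb0).2 (hα.2.trans hb)),
        min_eq_left hα.2]
      field_simp
    · apply intervalIntegral.integral_congr
      intro α hα
      rw [Set.uIcc_of_le hb] at hα
      simp only
      rw [WW_w0 (div_nonneg (by linarith [hα.1]) hb0.le) ((div_le_one hb0).2 hα.2),
        min_eq_right hα.1]
      ring
  have e1 : ∫ α in (0 : ℝ)..1, (α - α ^ 2 / b) = 1 / 2 - 1 / (3 * b) := by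
    rw [intervalIntegral.integral_sub (by apply Continuous.intervalIntegrable; fun_prop)
      (by apply Continuous.intervalIntegrable; fun_prop), integral_id,
      intervalIntegral.integral_div, integral_pow]
    field_simp
    norm_num
    ring
  have e2 : ∫ α in (1 : ℝ)..b, (1 - α / b) = b - 1 - (b ^ 2 - 1) / (2 * b) := by
    rw [intervalIntegral.integral_sub (by apply Continuous.intervalIntegrable; fun_prop)
      (by apply Continuous.intervalIntegrable; fun_prop), intervalIntegral.integral_const,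
      intervalIntegral.integral_div, integral_id]
    simp
    field_simp
  rw [e, e1, e2, WW_w0 le_rfl zero_le_one]
  field_simp
  ring

end H479.U
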