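import Pool.Agent.H479.U.Zc

open Finset MeasureTheory Complex

namespace H479.U

open H343.ZSide

/-- far zeros contribute little -/
lemma far_zeros (b A : ℝ) (hb : 0 < b) (hb1 : b ≤ 1) (hA : 0 ≤ A) : ∃ T0 : ℝ, 1 ≤ T0 ∧
    ∀ T U1 U2 u t : ℝ, T0 ≤ T → 1 ≤ U1 → U2 ≤ T → 0 ≤ u → u ≤ A * Real.log T →
    U1 + Real.log T / 2 ≤ t → t + Real.log T / 2 ≤ U2 →
    ‖H343.GGb b u t (Z0 T) mz - H343.AAb b riemannZeta U1 U2 u t‖ ≤ 1 := by
  classical
  obtain ⟨C, hC, hcount⟩ := H343.zeta_count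
  set L0 : ℝ := 8 * (|Real.log C| + 3 + A) / b + 1 with hL0
  have hq : 0 ≤ 8 * (|Real.log C| + 3 + A) / b := by positivity
  refine ⟨Real.exp L0, Real.one_le_exp (by linarith), fun T U1 U2 u t hT hU1 hU2 hu0 hu ht1 ht2 => ?_⟩
  have hTpos : 0 < T := (Real.exp_pos _).trans_le hT
  have hlogT : L0 ≤ Real.log T := by
    rw [Real.le_log_iff_exp_le hTpos]; exact hT
  set L := Real.log T with hL
  have hL1 : 1 ≤ L := by linarith
  have hT1 : 1 ≤ T := (Real.one_le_exp (by linarith : 0 ≤ L0)).trans hT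
  have hfin := H370.zset_finite H370.good_zeta U1 U2 hU1
  have hAA : H343.AAb b riemannZeta U1 U2 u t =
      ∑ s ∈ hfin.toFinset, (H370.mult riemannZeta s : ℂ) * H343.hhb b u t s := by
    unfold H343.AAb
    exact finsum_mem_eq_finite_toFinset_sum _ hfin
  have hsub : hfin.toFinset ⊆ Z0 T := by
    intro s hs
    rw [Set.Finite.mem_toFinset] at hs
    rw [mem_Z0]
    obtain ⟨a1, a2, a3, a4, a5⟩ := hs
    exact ⟨a1, a2, by linarith, by linarith, a5⟩
  have hdiff : H343.GGb b u t (Z0 T) mz - H343.AAb b riemannZeta U1 U2 u t =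
      ∑ s ∈ Z0 T \ hfin.toFinset, (H370.mult riemannZeta s : ℂ) * H343.hhb b u t s := by
    rw [hAA, sub_eq_iff_eq_add, sum_sdiff hsub]
    unfold H343.GGb mz
    simp only [Complex.ofReal_natCast]
  rw [hdiff]
  have hbound : ∀ s ∈ Z0 T \ hfin.toFinset,
      ‖(H370.mult riemannZeta s : ℂ) * H343.hhb b u t s‖ ≤
        (H370.mult riemannZeta s : ℝ) * Real.exp (A * L + 1 - b * L ^ 2 / 8) := by
    intro s hs
    rw [mem_sdiff, Set.Finite.mem_toFinset, mem_Z0] at hs
    obtain ⟨⟨a1, a2, a3, a4, a5⟩, hns⟩ := hs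
    have hout : s.im ≤ U1 ∨ U2 < s.im := by
      by_contra h
      push Not at h
      exact hns ⟨a1, a2, h.1, h.2, a5⟩
    have hdist : (L / 2) ^ 2 ≤ (s.im - t) ^ 2 := by
      rcases hout with h | h
      · have : L / 2 ≤ t - s.im := by linarith
        nlinarith
      · have : L / 2 ≤ s.im - t := by linarith
        nlinarith
    rw [norm_mul, Complex.norm_natCast]
    apply mul_le_mul_of_nonneg_left _ (Nat.cast_nonneg _)
    have hs' : s = (⟨s.re, s.im⟩ : ℂ) := rfl
    rw [hs', H343.norm_hhb, ← Real.exp_add]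
    apply Real.exp_le_exp.2
    have h0 : u * (s.re - 1 / 2) ≤ u * 1 := by
      apply mul_le_mul_of_nonneg_left _ hu0; linarith
    have h1 : (s.re - 1 / 2) ^ 2 ≤ 1 := by nlinarith
    have h2 : b * (s.re - 1 / 2) ^ 2 ≤ 1 * 1 := by gcongr
    have h3 : b * (L / 2) ^ 2 ≤ b * (s.im - t) ^ 2 := by gcongr
    linarith
  refine (norm_sum_le_of_le _ hbound).trans ?_
  rw [← sum_mul]
  have h1 : ∑ s ∈ Z0 T \ hfin.toFinset, (H370.mult riemannZeta s : ℝ) ≤ C * T ^ 2 := by
    refine le_trans ?_ (hcount T hT1)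
    apply sum_le_sum_of_subset_of_nonneg sdiff_subset
    intro s _ _
    exact Nat.cast_nonneg _
  refine (mul_le_mul_of_nonneg_right h1 (Real.exp_pos _).le).trans ?_
  have h3 : C * T ^ 2 * Real.exp (A * L + 1 - b * L ^ 2 / 8) =
      Real.exp (Real.log C + 2 * L + (A * L + 1 - b * L ^ 2 / 8)) := by
    rw [Real.exp_add, Real.exp_add, Real.exp_log hC]
    have : Real.exp (2 * L) = T ^ 2 := by
      rw [show (2 : ℝ) * L = ((2 : ℕ) : ℝ) * L by norm_num, Real.exp_nat_mul, Real.exp_log hTpos]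
    rw [this]
  rw [h3, Real.exp_le_one_iff]
  have h4 : 8 * (|Real.log C| + 3 + A) / b ≤ L := by linarith
  rw [div_le_iff₀ hb] at h4
  have h5 := le_abs_self (Real.log C)
  have h6 : |Real.log C| ≤ |Real.log C| * L := by
    have := abs_nonneg (Real.log C)
    nlinarith
  have h8 : 8 * (|Real.log C| + 3 + A) * L ≤ L * b * L :=
    mul_le_mul_of_nonneg_right h4 (by linarith)
  nlinarith

/-- the zero polynomial at height `t` -/
theorem point (b κ A : ℝ) (hb : 0 < b) (hb1 : b ≤ 1) (hκ : 0 < κ) (hA : 0 ≤ A) :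
    ∃ C T0 : ℝ, 0 < C ∧ 10 ≤ T0 ∧ ∀ T : ℝ, T0 ≤ T → ∀ u t : ℝ, 0 ≤ u →
      u ≤ A * Real.log T → T ^ κ ≤ t → t ≤ T - Real.log T →
      ‖H343.GGb b u t (Z0 T) mz‖ ≤ (1 / Real.sqrt (2 * Real.pi * b)) *
        (Real.log T * Real.exp (-u ^ 2 / (2 * b)) + ‖H343.PPb b La u t‖) + C := by
  obtain ⟨C1, T1, hC1, hT1, hEF⟩ := H343.explicit_formula_zeta H370.good_zeta (2 * A / κ) b
    (by positivity) hb
  obtain ⟨T2, hT2, hfar⟩ := far_zeros b A hb hb1 hA
  have ev1 : ∀ᶠ T : ℝ in Filter.atTop, 2 * T1 ≤ T ^ κ :=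
    (tendsto_rpow_atTop hκ).eventually_ge_atTop _
  have ev2 : ∀ᶠ T : ℝ in Filter.atTop, Real.log T ≤ (1 / 3) * T ^ κ := by
    have h1 := (isLittleO_log_rpow_atTop hκ).bound (show (0 : ℝ) < 1 / 3 by norm_num)
    filter_upwards [h1, Filter.eventually_ge_atTop 1] with T hT hT1
    rw [Real.norm_of_nonneg (Real.log_nonneg hT1), Real.norm_of_nonneg (by positivity)] at hT
    exact hT
  have ev3 : ∀ᶠ T : ℝ in Filter.atTop, 2 / κ + 4 ≤ Real.log T :=
    Real.tendsto_log_atTop.eventually_ge_atTop _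
  obtain ⟨T3, hT3⟩ := ((ev1.and ev2).and ev3).exists_forall_of_atTop
  refine ⟨C1 + 1, max (max T2 T3) 100, by positivity, (by norm_num : (10 : ℝ) ≤ 100).trans
    (le_max_right _ _), fun T hT u t hu0 hu ht1 ht2 => ?_⟩
  have hTT2 : T2 ≤ T := ((le_max_left _ _).trans (le_max_left _ _)).trans hT
  have hTT3 : T3 ≤ T := ((le_max_right _ _).trans (le_max_left _ _)).trans hT
  have hT100 : 100 ≤ T := (le_max_right _ _).trans hT
  obtain ⟨⟨f1, f2⟩, f3⟩ := hT3 T hTT3
  have hT0 : 0 < T := by linarith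
  set L := Real.log T with hL
  have h2κ : 0 < 2 / κ := by positivity
  have hL4 : 4 ≤ L := by linarith
  have hκL : 2 ≤ κ * L := by
    have : 2 / κ ≤ L := by linarith
    rw [div_le_iff₀ hκ] at this
    linarith
  have hlogTle : L ≤ T / 4 := by
    have h1 : Real.log T = 2 * Real.log (Real.sqrt T) := by
      rw [Real.log_sqrt hT0.le]; ring
    have h2 := Real.log_le_sub_one_of_pos (Real.sqrt_pos.2 hT0)
    have h3 : Real.sqrt T * Real.sqrt T = T := Real.mul_self_sqrt hT0.le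
    rw [hL, h1]
    nlinarith [sq_nonneg (Real.sqrt T - 4), Real.sqrt_nonneg T]
  have htpos : 0 < t := lt_of_lt_of_le (Real.rpow_pos_of_pos hT0 _) ht1
  -- log x ≤ x / 2
  have hlx : ∀ x : ℝ, 0 < x → Real.log x ≤ x / 2 := by
    intro x hx
    have h1 := Real.log_le_sub_one_of_pos (show 0 < x / 2 by positivity)
    rw [Real.log_div hx.ne' (by norm_num)] at h1
    have := Real.log_two_lt_d9
    linarith
  -- the choice of V
  obtain ⟨V, hV1, hV2, hV3, hV4, hV5, hV6⟩ : ∃ V : ℝ, T ^ κ ≤ 2 * V ∧ 2 * V ≤ T ∧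
      V + Real.log V ≤ t ∧ t ≤ 2 * V - Real.log V ∧ V + 1 + L / 2 ≤ t ∧
      t + L / 2 ≤ 2 * V - 1 := by
    rcases le_or_gt t (3 * T / 4) with h | h
    · refine ⟨2 * t / 3, by linarith, by linarith, ?_, ?_, ?_, ?_⟩
      · have := hlx (2 * t / 3) (by positivity); linarith
      · have := hlx (2 * t / 3) (by positivity); linarith
      · linarith
      · linarith
    · refine ⟨T / 2, ?_, by linarith, ?_, ?_, ?_, ?_⟩
      · linarith
      · have := hlx (T / 2) (by positivity); linarith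
      · have h1 : Real.log (T / 2) ≤ L := Real.log_le_log (by positivity) (by linarith)
        linarith
      · linarith
      · linarith
  have hVT1 : T1 ≤ V := by linarith
  have hVpos : 0 < V := by linarith
  have hlogV : κ * L / 2 ≤ Real.log V := by
    have h1 : (1 / 2) * T ^ κ ≤ V := by linarith
    have h2 : Real.log ((1 / 2) * T ^ κ) ≤ Real.log V :=
      Real.log_le_log (by positivity) h1
    rw [Real.log_mul (by norm_num) (by positivity), Real.log_rpow hT0] at h2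
    have h3 : -(1 : ℝ) ≤ Real.log (1 / 2) := by
      have h4 := Real.one_sub_inv_le_log_of_pos (show (0 : ℝ) < 1 / 2 by norm_num)
      norm_num at h4
      linarith
    linarith
  have hlogVT : Real.log V ≤ L := Real.log_le_log hVpos (by linarith)
  obtain ⟨U1, U2, hU1, hU1', hU2', hU2, hef⟩ := hEF V hVT1
  have huV : u ≤ 2 * A / κ * Real.log V := by
    have h1 : A * L = 2 * A / κ * (κ * L / 2) := by field_simp
    have h2 : 2 * A / κ * (κ * L / 2) ≤ 2 * A / κ * Real.log V := by gcongr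
    linarith
  have h1 := hef u t hu0 huV hV3 hV4
  have h2 := hfar T U1 U2 u t hTT2 (by linarith) (by linarith) hu0 hu (by linarith) (by linarith)
  set G := H343.GGb b u t (Z0 T) mz with hG
  set AB := H343.AAb b riemannZeta U1 U2 u t with hAB
  set sq : ℝ := 1 / Real.sqrt (2 * Real.pi * b) with hsq
  have hsq0 : 0 ≤ sq := by positivity
  have h3 : ‖((sq : ℝ) : ℂ) * (Real.log V * cexp (I * u * t) * Real.exp (-u ^ 2 / (2 * b)) -
      H343.PPb b La u t)‖ ≤ sq * (L * Real.exp (-u ^ 2 / (2 * b)) + ‖H343.PPb b La u t‖) := by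
    have e0 : ‖cexp (I * u * t)‖ = 1 := by
      rw [show I * (u : ℂ) * t = ((u * t : ℝ) : ℂ) * I by push_cast; ring,
        Complex.norm_exp_ofReal_mul_I]
    have hlV0 : 0 ≤ Real.log V := le_trans (by linarith) hlogV
    rw [norm_mul, Complex.norm_real, Real.norm_of_nonneg hsq0]
    apply mul_le_mul_of_nonneg_left _ hsq0
    refine (norm_sub_le _ _).trans ?_
    gcongr
    rw [norm_mul, norm_mul, e0, Complex.norm_real, Complex.norm_real,
      Real.norm_of_nonneg hlV0, Real.norm_of_nonneg (Real.exp_pos _).le, mul_one]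
    gcongr
  have h4 : C1 * Real.exp (-u) ≤ C1 := by
    have : Real.exp (-u) ≤ 1 := Real.exp_le_one_iff.2 (by linarith)
    nlinarith
  have h5 : G = (G - AB) + (AB - ((sq : ℝ) : ℂ) * (Real.log V * cexp (I * u * t) *
      Real.exp (-u ^ 2 / (2 * b)) - H343.PPb b La u t)) +
      ((sq : ℝ) : ℂ) * (Real.log V * cexp (I * u * t) *
      Real.exp (-u ^ 2 / (2 * b)) - H343.PPb b La u t) := by ring
  rw [h5]
  refine (norm_add_le _ _).trans ?_
  refine (add_le_add (norm_add_le _ _) le_rfl).trans ?_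
  have h1' : ‖AB - ((sq : ℝ) : ℂ) * (Real.log V * cexp (I * u * t) *
      Real.exp (-u ^ 2 / (2 * b)) - H343.PPb b La u t)‖ ≤ C1 * Real.exp (-u) := h1
  linarith

end H479.U
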