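import Pool.Agent.H479.U.Zc

open Finset MeasureTheory Complex

namespace H479.U

open H343.ZSide

/-- number of zeros up to `T` -/
noncomputable def N0 (T : ℝ) : ℝ := ∑ s ∈ Z0 T, mz s

lemma N0_mono {T T' : ℝ} (h : T ≤ T') : N0 T ≤ N0 T' := H343.fcount_mono h

lemma N0_ge {a T : ℝ} (ha : 1 ≤ a) (haT : a ≤ T) :
    N0 a + (H370.NN riemannZeta a T : ℝ) ≤ N0 T := by
  classical
  have hfin := H370.zset_finite H370.good_zeta a T ha
  rw [H370.NN_eq_sum H370.good_zeta _ _ ha]
  push_cast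
  unfold N0 mz
  rw [← sum_union]
  · apply sum_le_sum_of_subset_of_nonneg
    · intro s hs
      rw [mem_union, mem_Z0, Set.Finite.mem_toFinset] at hs
      rw [mem_Z0]
      rcases hs with ⟨a1, a2, a3, a4, a5⟩ | ⟨a1, a2, a3, a4, a5⟩
      · exact ⟨a1, a2, a3, a4.trans haT, a5⟩
      · exact ⟨a1, a2, by linarith, a4, a5⟩
    · intro s _ _
      exact Nat.cast_nonneg _
  · rw [disjoint_left]
    intro s hs hs'
    rw [mem_Z0] at hs
    rw [Set.Finite.mem_toFinset] at hs'
    have := hs'.2.2.1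
    linarith [hs.2.2.2.1]

/-- lower bound in the Riemann-von Mangoldt formula -/
theorem N0_lower (η : ℝ) (hη : 0 < η) : ∃ T0 : ℝ, 10 ≤ T0 ∧ ∀ T : ℝ, T0 ≤ T →
    (1 - η) * (T / (2 * Real.pi) * Real.log T) ≤ N0 T := by
  obtain ⟨C, T0, hC, hT0, h⟩ := H370.nn_asymp H370.good_zeta
  have hπ := Real.pi_pos
  have key : ∀ J : ℕ, ∀ T : ℝ, 2 ^ J * T0 ≤ T →
      (1 - 1 / 2 ^ J) * (T / (2 * Real.pi) * (Real.log T - J)) - C * T ≤ N0 T := by
    intro J T hT
    have hTT0 : T0 ≤ T := by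
      have : (1 : ℝ) ≤ 2 ^ J := one_le_pow₀ (by norm_num)
      nlinarith
    have hTpos : 0 < T := by linarith
    have h1 : ∀ k : ℕ, k ≤ J → N0 (T / 2 ^ k) + ∑ j ∈ range k, (T / 2 ^ (j + 1) / (2 * Real.pi) *
        (Real.log T - J) - C * (T / 2 ^ (j + 1))) ≤ N0 T := by
      intro k
      induction k with
      | zero => intro _; simp
      | succ k ih =>
        intro hk
        have h2 := ih (by omega)
        rw [sum_range_succ]
        set V := T / 2 ^ (k + 1) with hV
        have hp : (0 : ℝ) < 2 ^ (k + 1) := by positivity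
        have hpJ : (2 : ℝ) ^ (k + 1) ≤ 2 ^ J := pow_le_pow_right₀ (by norm_num) hk
        have hVT0 : T0 ≤ V := by
          rw [hV, le_div_iff₀ hp]
          calc T0 * 2 ^ (k + 1) ≤ T0 * 2 ^ J := by gcongr
            _ ≤ T := by linarith
        have hV2 : T / 2 ^ k = 2 * V := by rw [hV, pow_succ]; field_simp
        have h3 := h V hVT0 V (2 * V) le_rfl (by linarith) (by linarith) le_rfl
        have h4 := (abs_le.1 h3).1
        have h5 := N0_ge (a := V) (T := 2 * V) (by linarith) (by linarith)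
        have hlogV : Real.log T - J ≤ Real.log V := by
          rw [hV, Real.log_div hTpos.ne' hp.ne', Real.log_pow]
          have h6 : ((k + 1 : ℕ) : ℝ) * Real.log 2 ≤ J * 1 := by
            have := Real.log_two_lt_d9
            have h7 : ((k + 1 : ℕ) : ℝ) ≤ J := by exact_mod_cast hk
            apply mul_le_mul h7 (by linarith) (Real.log_nonneg (by norm_num)) (Nat.cast_nonneg _)
          linarith
        have h6 : V / (2 * Real.pi) * (Real.log T - J) ≤ V * Real.log V / (2 * Real.pi) := by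
          rw [mul_div_assoc, div_mul_eq_mul_div, mul_div_assoc]
          have hV0 : 0 ≤ V := by linarith
          gcongr
        rw [hV2] at h2
        linarith
    have h2 := h1 J le_rfl
    have h3 : 0 ≤ N0 (T / 2 ^ J) := sum_nonneg fun s _ => mz_nonneg s
    have h4 : ∑ j ∈ range J, (T / 2 ^ (j + 1) / (2 * Real.pi) *
        (Real.log T - J) - C * (T / 2 ^ (j + 1))) =
        (∑ j ∈ range J, T / 2 ^ (j + 1)) * ((Real.log T - J) / (2 * Real.pi) - C) := by
      rw [sum_mul]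
      apply sum_congr rfl
      intro j _
      ring
    rw [h4, sum_V] at h2
    have h5 : T * (1 - 1 / 2 ^ J) * ((Real.log T - J) / (2 * Real.pi) - C) =
        (1 - 1 / 2 ^ J) * (T / (2 * Real.pi) * (Real.log T - J)) - C * T * (1 - 1 / 2 ^ J) := by
      ring
    rw [h5] at h2
    have h6 : C * T * (1 - 1 / 2 ^ J) ≤ C * T * 1 := by
      apply mul_le_mul_of_nonneg_left _ (by positivity)
      have : (0 : ℝ) ≤ 1 / 2 ^ J := by positivity
      linarith
    linarith
  obtain ⟨J, hJ⟩ := exists_nat_gt (2 / η)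
  have hJ2 : (1 : ℝ) / 2 ^ J ≤ η / 2 := by
    have h1 : (J : ℝ) ≤ 2 ^ J := by exact_mod_cast (Nat.lt_two_pow_self (n := J)).le
    rw [div_le_iff₀ (by positivity)]
    rw [div_lt_iff₀ hη] at hJ
    nlinarith
  have ev : ∀ᶠ T : ℝ in Filter.atTop, (2 / η) * (J + 2 * Real.pi * C) ≤ Real.log T :=
    Real.tendsto_log_atTop.eventually_ge_atTop _
  obtain ⟨T1, hT1⟩ := ev.exists_forall_of_atTop
  refine ⟨max (max T1 (2 ^ J * T0)) 10, le_max_right _ _, fun T hT => ?_⟩
  have hTT1 : T1 ≤ T := ((le_max_left _ _).trans (le_max_left _ _)).trans hT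
  have hTT2 : 2 ^ J * T0 ≤ T := ((le_max_right _ _).trans (le_max_left _ _)).trans hT
  have hT10 : 10 ≤ T := (le_max_right _ _).trans hT
  have h1 := hT1 T hTT1
  have h2 := key J T hTT2
  refine le_trans ?_ h2
  set L := Real.log T
  have hJ0 : (0 : ℝ) ≤ J := Nat.cast_nonneg _
  have h3 : J + 2 * Real.pi * C ≤ η / 2 * L := by
    rw [div_mul_eq_mul_div, div_le_iff₀ hη] at h1
    linarith
  have hL0 : 0 ≤ L := Real.log_nonneg (by linarith)
  have hT0' : 0 < T := by linarith
  have e1 : (1 - 1 / 2 ^ J) * (T / (2 * Real.pi) * (L - J)) - C * T =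
      T / (2 * Real.pi) * ((1 - 1 / 2 ^ J) * (L - J) - 2 * Real.pi * C) := by
    field_simp
  rw [e1]
  have e2 : (1 - η) * (T / (2 * Real.pi) * L) = T / (2 * Real.pi) * ((1 - η) * L) := by ring
  rw [e2]
  apply mul_le_mul_of_nonneg_left _ (by positivity)
  have h4 : (0 : ℝ) ≤ 1 / 2 ^ J := by positivity
  have h5 : 1 / 2 ^ J * L ≤ η / 2 * L := by gcongr
  have h6 : 0 ≤ 1 / 2 ^ J * (J : ℝ) := by positivity
  nlinarith

end H479.U
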