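import Pool.Agent.H479.U.Up2

open Finset MeasureTheory Complex

namespace H479.U

open H343.ZSide

lemma zeta_order_symm {s : ℂ} (hs : s.im ≠ 0) :
    analyticOrderAt riemannZeta (1 - (starRingEnd ℂ) s) = analyticOrderAt riemannZeta s := by
  have h := H370.DL.L_symm (χ := (1 : DirichletCharacter ℂ 1))
    DirichletCharacter.isPrimitive_one_level_one hs
  rwa [DirichletCharacter.LFunction_modOne_eq] at h

lemma mz_refl {s : ℂ} (hs : 0 < s.im) : mz (1 - (starRingEnd ℂ) s) = mz s := by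
  unfold mz H370.mult analyticOrderNatAt
  rw [zeta_order_symm hs.ne']

lemma Z0_refl {T : ℝ} {s : ℂ} (hs : s ∈ Z0 T) : 1 - (starRingEnd ℂ) s ∈ Z0 T := by
  rw [mem_Z0] at hs ⊢
  obtain ⟨h1, h2, h3, h4, h5⟩ := hs
  have him : (1 - (starRingEnd ℂ) s).im = s.im := by simp
  have hre : (1 - (starRingEnd ℂ) s).re = 1 - s.re := by simp
  refine ⟨by rw [hre]; linarith, by rw [hre]; linarith, by rw [him]; exact h3,
    by rw [him]; exact h4, ?_⟩
  have ha : AnalyticAt ℂ riemannZeta s := H370.good_zeta.an s h3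
  have hb : AnalyticAt ℂ riemannZeta (1 - (starRingEnd ℂ) s) :=
    H370.good_zeta.an _ (by rw [him]; exact h3)
  have h6 := zeta_order_symm (s := s) h3.ne'
  have h7 : analyticOrderAt riemannZeta s ≠ 0 := ha.analyticOrderAt_ne_zero.mpr h5
  rw [← h6] at h7
  exact hb.analyticOrderAt_ne_zero.mp h7

/-- reindexing by the reflection -/
lemma Z0_sum_refl {M : Type*} [AddCommMonoid M] (T : ℝ) (f : ℂ → M) :
    ∑ s ∈ Z0 T, f (1 - (starRingEnd ℂ) s) = ∑ s ∈ Z0 T, f s := by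
  refine sum_nbij' (fun s => 1 - (starRingEnd ℂ) s) (fun s => 1 - (starRingEnd ℂ) s) ?_ ?_ ?_ ?_ ?_
  · intro s hs
    exact Z0_refl hs
  · intro s hs
    exact Z0_refl hs
  · intro s _; simp
  · intro s _; simp
  · intro s _; rfl

lemma Z0_im {T : ℝ} {s : ℂ} (hs : s ∈ Z0 T) : 0 < s.im := (mem_Z0.1 hs).2.2.1

/-- symmetry of the pair sums -/
lemma PPair_neg (k : ℂ → ℂ) (hk : ∀ z, k (-z) = k z) (T u : ℝ) :
    H343.PPair k (-u) (Z0 T) mz = H343.PPair k u (Z0 T) mz := by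
  unfold H343.PPair
  rw [← Z0_sum_refl T (fun s => ∑ s' ∈ Z0 T, ((mz s * mz s' : ℝ) : ℂ) *
    (cexp ((-u : ℝ) * (s + (starRingEnd ℂ) s' - 1)) * k (s + (starRingEnd ℂ) s' - 1)))]
  have h1 : ∀ s ∈ Z0 T, ∑ s' ∈ Z0 T, ((mz (1 - (starRingEnd ℂ) s) * mz s' : ℝ) : ℂ) *
    (cexp ((-u : ℝ) * ((1 - (starRingEnd ℂ) s) + (starRingEnd ℂ) s' - 1)) *
      k ((1 - (starRingEnd ℂ) s) + (starRingEnd ℂ) s' - 1)) =
      ∑ s' ∈ Z0 T, ((mz s' * mz s : ℝ) : ℂ) *
    (cexp (u * (s' + (starRingEnd ℂ) s - 1)) * k (s' + (starRingEnd ℂ) s - 1)) := by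
    intro s hs
    rw [← Z0_sum_refl T (fun s' => ((mz (1 - (starRingEnd ℂ) s) * mz s' : ℝ) : ℂ) *
      (cexp ((-u : ℝ) * ((1 - (starRingEnd ℂ) s) + (starRingEnd ℂ) s' - 1)) *
      k ((1 - (starRingEnd ℂ) s) + (starRingEnd ℂ) s' - 1)))]
    apply sum_congr rfl
    intro s' hs'
    rw [mz_refl (Z0_im hs), mz_refl (Z0_im hs')]
    have e : (1 - (starRingEnd ℂ) s) + (starRingEnd ℂ) (1 - (starRingEnd ℂ) s') - 1 =
        -(s' + (starRingEnd ℂ) s - 1) := by
      simp only [map_sub, map_one, Complex.conj_conj]; ring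
    rw [e, hk, mul_comm (mz s) (mz s')]
    congr 3
    push_cast
    ring
  rw [sum_congr rfl h1, sum_comm]

lemma Pb_neg (T b u : ℝ) : Pb T b (-u) = Pb T b u := by
  unfold Pb
  rw [PPair_neg]
  intro z
  unfold H343.kG
  rw [neg_sq]

lemma re_bounds {T : ℝ} {s s' : ℂ} (hs : s ∈ Z0 T) (hs' : s' ∈ Z0 T) :
    -1 < (s + (starRingEnd ℂ) s' - 1).re ∧ (s + (starRingEnd ℂ) s' - 1).re < 1 := by
  have h1 := mem_Z0.1 hs
  have h2 := mem_Z0.1 hs'
  simp only [Complex.sub_re, Complex.add_re, Complex.conj_re, Complex.one_re]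
  constructor <;> linarith [h1.1, h1.2.1, h2.1, h2.2.1]

/-- averaging against `exp (-2|a|)` -/
lemma lap (k : ℂ → ℂ) (T u : ℝ) :
    Integrable (fun a : ℝ => ((Real.exp (-2 * |a|) : ℝ) : ℂ) * H343.PPair k (u + a) (Z0 T) mz) ∧
    ∫ a : ℝ, ((Real.exp (-2 * |a|) : ℝ) : ℂ) * H343.PPair k (u + a) (Z0 T) mz =
      H343.PPair (fun z => k z * H343.kW z) u (Z0 T) mz := by
  have e : (fun a : ℝ => ((Real.exp (-2 * |a|) : ℝ) : ℂ) *
      H343.PPair k (u + a) (Z0 T) mz) = fun a : ℝ => ∑ s ∈ Z0 T, ∑ s' ∈ Z0 T,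
      (((mz s * mz s' : ℝ) : ℂ) * (cexp (u * (s + (starRingEnd ℂ) s' - 1)) *
        k (s + (starRingEnd ℂ) s' - 1))) * (((Real.exp (-2 * |a|) : ℝ) : ℂ) *
        cexp (a * (s + (starRingEnd ℂ) s' - 1))) := by
    funext a
    unfold H343.PPair
    rw [mul_sum]
    refine sum_congr rfl fun s _ => ?_
    rw [mul_sum]
    refine sum_congr rfl fun s' _ => ?_
    have : cexp (((u + a : ℝ) : ℂ) * (s + (starRingEnd ℂ) s' - 1)) =
        cexp (u * (s + (starRingEnd ℂ) s' - 1)) *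
          cexp (a * (s + (starRingEnd ℂ) s' - 1)) := by
      rw [← Complex.exp_add]
      congr 1
      push_cast
      ring
    rw [this]
    ring
  have ht : ∀ s ∈ Z0 T, ∀ s' ∈ Z0 T, Integrable (fun a : ℝ =>
      (((mz s * mz s' : ℝ) : ℂ) * (cexp (u * (s + (starRingEnd ℂ) s' - 1)) *
        k (s + (starRingEnd ℂ) s' - 1))) * (((Real.exp (-2 * |a|) : ℝ) : ℂ) *
        cexp (a * (s + (starRingEnd ℂ) s' - 1)))) := by
    intro s hs s' hs'
    have := re_bounds hs hs'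
    exact (H343.integrable_laplace _ (by linarith [this.1]) (by linarith [this.2])).1.const_mul _
  rw [e]
  refine ⟨integrable_finsetSum _ fun s hs => integrable_finsetSum _ fun s' hs' =>
    ht s hs s' hs', ?_⟩
  rw [integral_finsetSum _ fun s hs => integrable_finsetSum _ fun s' hs' => ht s hs s' hs']
  refine sum_congr rfl fun s hs => ?_
  rw [integral_finsetSum _ fun s' hs' => ht s hs s' hs']
  refine sum_congr rfl fun s' hs' => ?_
  have hb := re_bounds hs hs'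
  rw [integral_const_mul,
    (H343.integrable_laplace _ (by linarith [hb.1]) (by linarith [hb.2])).2]
  unfold H343.kW
  ring

/-- the Gaussian density -/
noncomputable def gb (b y : ℝ) : ℝ := Real.exp (-y ^ 2 / b) / Real.sqrt (Real.pi * b)

lemma gb_pos (b y : ℝ) (hb : 0 < b) : 0 < gb b y := by
  have := Real.pi_pos
  unfold gb
  have : 0 < Real.sqrt (Real.pi * b) := Real.sqrt_pos.2 (by positivity)
  positivity

lemma gauss_mgf (b : ℝ) (hb : 0 < b) (z : ℂ) :
    Integrable (fun y : ℝ => ((gb b y : ℝ) : ℂ) * cexp (y * z)) ∧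
    ∫ y : ℝ, ((gb b y : ℝ) : ℂ) * cexp (y * z) = H343.kG b z := by
  have hπ := Real.pi_pos
  have hs : 0 < Real.sqrt (Real.pi * b) := Real.sqrt_pos.2 (by positivity)
  have hsc : (Real.sqrt (Real.pi * b) : ℂ) ≠ 0 := by exact_mod_cast hs.ne'
  have hbc : (b : ℂ) ≠ 0 := by exact_mod_cast hb.ne'
  have e : (fun y : ℝ => ((gb b y : ℝ) : ℂ) * cexp (y * z)) = fun y : ℝ =>
      (Real.sqrt (Real.pi * b) : ℂ)⁻¹ * cexp ((-(1 / b) : ℂ) * (y : ℂ) ^ 2 + z * y + 0) := by
    funext y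
    unfold gb
    push_cast
    rw [div_mul_eq_mul_div, ← Complex.exp_add, div_eq_inv_mul]
    congr 2
    field_simp
    ring
  have hre : (-(1 / b) : ℂ).re < 0 := by
    have : (-(1 / b) : ℂ) = ((-(1 / b) : ℝ) : ℂ) := by push_cast; ring
    rw [this, Complex.ofReal_re]
    have : 0 < 1 / b := by positivity
    linarith
  rw [e]
  refine ⟨(integrable_cexp_quadratic' hre _ _).const_mul _, ?_⟩
  rw [integral_const_mul, integral_cexp_quadratic hre]
  have h1 : ((Real.pi : ℂ) / -(-(1 / b))) ^ (1 / 2 : ℂ) = (Real.sqrt (Real.pi * b) : ℂ) := by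
    have : (Real.pi : ℂ) / -(-(1 / b)) = ((Real.pi * b : ℝ) : ℂ) := by
      push_cast; field_simp
    rw [this, Real.sqrt_eq_rpow, Complex.ofReal_cpow (by positivity)]
    norm_num
  rw [h1, ← mul_assoc, inv_mul_cancel₀ hsc, one_mul]
  unfold H343.kG
  congr 1
  field_simp
  ring

/-- averaging against the Gaussian density -/
lemma gav (k : ℂ → ℂ) (b T u : ℝ) (hb : 0 < b) :
    Integrable (fun a : ℝ => ((gb b a : ℝ) : ℂ) * H343.PPair k (u + a) (Z0 T) mz) ∧
    ∫ a : ℝ, ((gb b a : ℝ) : ℂ) * H343.PPair k (u + a) (Z0 T) mz =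
      H343.PPair (fun z => k z * H343.kG b z) u (Z0 T) mz := by
  have e : (fun a : ℝ => ((gb b a : ℝ) : ℂ) *
      H343.PPair k (u + a) (Z0 T) mz) = fun a : ℝ => ∑ s ∈ Z0 T, ∑ s' ∈ Z0 T,
      (((mz s * mz s' : ℝ) : ℂ) * (cexp (u * (s + (starRingEnd ℂ) s' - 1)) *
        k (s + (starRingEnd ℂ) s' - 1))) * (((gb b a : ℝ) : ℂ) *
        cexp (a * (s + (starRingEnd ℂ) s' - 1))) := by
    funext a
    unfold H343.PPair
    rw [mul_sum]
    refine sum_congr rfl fun s _ => ?_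
    rw [mul_sum]
    refine sum_congr rfl fun s' _ => ?_
    have : cexp (((u + a : ℝ) : ℂ) * (s + (starRingEnd ℂ) s' - 1)) =
        cexp (u * (s + (starRingEnd ℂ) s' - 1)) *
          cexp (a * (s + (starRingEnd ℂ) s' - 1)) := by
      rw [← Complex.exp_add]
      congr 1
      push_cast
      ring
    rw [this]
    ring
  have ht : ∀ s ∈ Z0 T, ∀ s' ∈ Z0 T, Integrable (fun a : ℝ =>
      (((mz s * mz s' : ℝ) : ℂ) * (cexp (u * (s + (starRingEnd ℂ) s' - 1)) *
        k (s + (starRingEnd ℂ) s' - 1))) * (((gb b a : ℝ) : ℂ) *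
        cexp (a * (s + (starRingEnd ℂ) s' - 1)))) := by
    intro s _ s' _
    exact (gauss_mgf b hb _).1.const_mul _
  rw [e]
  refine ⟨integrable_finsetSum _ fun s hs => integrable_finsetSum _ fun s' hs' =>
    ht s hs s' hs', ?_⟩
  rw [integral_finsetSum _ fun s hs => integrable_finsetSum _ fun s' hs' => ht s hs s' hs']
  refine sum_congr rfl fun s hs => ?_
  rw [integral_finsetSum _ fun s' hs' => ht s hs s' hs']
  refine sum_congr rfl fun s' hs' => ?_
  rw [integral_const_mul, (gauss_mgf b hb _).2]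
  ring

/-- Montgomery's pair sum -/
noncomputable def Wp (T u : ℝ) : ℝ := (H343.PPair H343.kW u (Z0 T) mz).re

/-- the square -/
noncomputable def f1 (T v : ℝ) : ℝ := ‖∑ s ∈ Z0 T, (mz s : ℂ) * cexp (v * (s - 1 / 2))‖ ^ 2

lemma PPair_one (T v : ℝ) : H343.PPair (fun _ => 1) v (Z0 T) mz = ((f1 T v : ℝ) : ℂ) := by
  unfold f1 H343.PPair
  rw [← Complex.normSq_eq_norm_sq, Complex.normSq_eq_conj_mul_self, mul_comm, map_sum, sum_mul_sum]
  refine sum_congr rfl fun s _ => sum_congr rfl fun s' _ => ?_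
  rw [map_mul, Complex.conj_ofReal, ← Complex.exp_conj, map_mul, Complex.conj_ofReal, mul_one]
  have : cexp (v * (s + (starRingEnd ℂ) s' - 1)) =
      cexp (v * (s - 1 / 2)) * cexp (v * (starRingEnd ℂ) (s' - 1 / 2)) := by
    rw [← Complex.exp_add]
    congr 1
    simp only [map_sub, map_div₀, map_one, map_ofNat]
    ring
  rw [this]
  push_cast
  ring

lemma Wp_eq (T u : ℝ) : Integrable (fun a : ℝ => Real.exp (-2 * |a|) * f1 T (u + a)) ∧
    Wp T u = ∫ a : ℝ, Real.exp (-2 * |a|) * f1 T (u + a) := by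
  obtain ⟨h1, h2⟩ := lap (fun _ => 1) T u
  have e : (fun a : ℝ => ((Real.exp (-2 * |a|) : ℝ) : ℂ) *
      H343.PPair (fun _ => 1) (u + a) (Z0 T) mz) = fun a : ℝ =>
      ((Real.exp (-2 * |a|) * f1 T (u + a) : ℝ) : ℂ) := by
    funext a
    rw [PPair_one]
    push_cast
    ring
  rw [e] at h1 h2
  refine ⟨h1.re.congr (Filter.Eventually.of_forall fun a => Complex.ofReal_re _), ?_⟩
  have h3 : ((∫ a : ℝ, Real.exp (-2 * |a|) * f1 T (u + a) : ℝ) : ℂ) =
      H343.PPair H343.kW u (Z0 T) mz := by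
    rw [← integral_complex_ofReal, h2]
    congr 1
    funext z
    ring
  unfold Wp
  rw [← h3, Complex.ofReal_re]

lemma f1_nonneg (T v : ℝ) : 0 ≤ f1 T v := by unfold f1; positivity

lemma Wp_nonneg (T u : ℝ) : 0 ≤ Wp T u := by
  rw [(Wp_eq T u).2]
  exact integral_nonneg fun a => mul_nonneg (Real.exp_pos _).le (f1_nonneg T _)

/-- Harnack inequality -/
lemma harnack (T u y : ℝ) : Real.exp (-2 * |y|) * Wp T u ≤ Wp T (u + y) := by
  rw [(Wp_eq T u).2, (Wp_eq T (u + y)).2, ← integral_const_mul]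
  have h1 : ∫ a : ℝ, Real.exp (-2 * |a|) * f1 T (u + y + a) =
      ∫ a : ℝ, Real.exp (-2 * |a - y|) * f1 T (u + a) := by
    rw [← integral_add_right_eq_self (fun a : ℝ => Real.exp (-2 * |a - y|) * f1 T (u + a)) y]
    congr 1
    funext a
    rw [add_sub_cancel_right]
    congr 2
    ring
  have h2 : Integrable (fun a : ℝ => Real.exp (-2 * |a - y|) * f1 T (u + a)) := by
    have h3 := (Wp_eq T (u + y)).1.comp_sub_right y
    refine h3.congr (Filter.Eventually.of_forall fun a => ?_)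
    simp only
    congr 2
    ring
  rw [h1]
  apply integral_mono ((Wp_eq T u).1.const_mul _) h2
  intro a
  simp only
  rw [← mul_assoc, ← Real.exp_add]
  apply mul_le_mul_of_nonneg_right _ (f1_nonneg T _)
  apply Real.exp_le_exp.2
  have : |a - y| ≤ |a| + |y| := abs_sub _ _
  linarith

/-- the smoothed sum -/
lemma smooth_eq (b T u : ℝ) (hb : 0 < b) :
    Integrable (fun a : ℝ => Real.exp (-2 * |a|) * Pb T b (u + a)) ∧
    Integrable (fun y : ℝ => gb b y * Wp T (u + y)) ∧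
    ∫ y : ℝ, gb b y * Wp T (u + y) = ∫ a : ℝ, Real.exp (-2 * |a|) * Pb T b (u + a) := by
  obtain ⟨h1, h2⟩ := lap (H343.kG b) T u
  obtain ⟨h3, h4⟩ := gav H343.kW b T u hb
  have e1 : ∀ a : ℝ, (((Real.exp (-2 * |a|) : ℝ) : ℂ) * H343.PPair (H343.kG b) (u + a) (Z0 T) mz).re =
      Real.exp (-2 * |a|) * Pb T b (u + a) := by
    intro a
    rw [Complex.re_ofReal_mul, Pb]
  have e2 : ∀ y : ℝ, (((gb b y : ℝ) : ℂ) * H343.PPair H343.kW (u + y) (Z0 T) mz).re =
      gb b y * Wp T (u + y) := by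
    intro y
    rw [Complex.re_ofReal_mul, Wp]
  have i1 : Integrable (fun a : ℝ => Real.exp (-2 * |a|) * Pb T b (u + a)) := by
    refine h1.re.congr (Filter.Eventually.of_forall fun a => ?_)
    exact e1 a
  have i2 : Integrable (fun y : ℝ => gb b y * Wp T (u + y)) := by
    refine h3.re.congr (Filter.Eventually.of_forall fun a => ?_)
    exact e2 a
  refine ⟨i1, i2, ?_⟩
  have h5 := integral_re h1
  have h6 := integral_re h3
  simp only [RCLike.re_eq_complex_re, e1, e2] at h5 h6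
  rw [h5, h6, h2, h4]
  congr 1
  unfold H343.PPair
  refine sum_congr rfl fun s _ => sum_congr rfl fun s' _ => ?_
  simp only
  ring

end H479.U
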