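import Pool.Agent.H479.U.Maj2

open Finset MeasureTheory Complex

namespace H479.U

open H343.ZSide

lemma e35 (η : ℝ) (hη : 0 < η) (hη1 : η ≤ 1) :
    Real.exp (3 / 2 * (η / 16)) * (Real.exp (2 * (η / 16)) * (1 + η / 4)) ≤ 1 + η ∧
    Real.exp (3 / 2 * (η / 16)) * (1 + η / 4) ≤ 1 + η ∧ Real.exp (3 / 2 * (η / 16)) ≤ 2 := by
  have h1 : Real.exp (7 / 32 * η) ≤ 1 / (1 - 7 / 32 * η) := by
    have := Real.one_sub_le_exp_neg (7 / 32 * η)
    rw [Real.exp_neg] at this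
    rw [le_div_iff₀ (by linarith)]
    have h6 := Real.exp_pos (7 / 32 * η)
    calc Real.exp (7 / 32 * η) * (1 - 7 / 32 * η) ≤
          Real.exp (7 / 32 * η) * (Real.exp (7 / 32 * η))⁻¹ :=
          mul_le_mul_of_nonneg_left this h6.le
      _ = 1 := mul_inv_cancel₀ h6.ne'
  have h2 : Real.exp (7 / 32 * η) * (1 + η / 4) ≤ 1 + η := by
    calc Real.exp (7 / 32 * η) * (1 + η / 4) ≤ 1 / (1 - 7 / 32 * η) * (1 + η / 4) :=
          mul_le_mul_of_nonneg_right h1 (by linarith)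
      _ = (1 + η / 4) / (1 - 7 / 32 * η) := by ring
      _ ≤ 1 + η := by
          rw [div_le_iff₀ (by linarith)]
          nlinarith
  have h3 : Real.exp (3 / 2 * (η / 16)) * (Real.exp (2 * (η / 16)) * (1 + η / 4)) =
      Real.exp (7 / 32 * η) * (1 + η / 4) := by
    rw [← mul_assoc, ← Real.exp_add]
    congr 2
    ring
  have h4 : Real.exp (3 / 2 * (η / 16)) ≤ Real.exp (7 / 32 * η) := by
    apply Real.exp_le_exp.2
    linarith
  refine ⟨by rw [h3]; exact h2, ?_, ?_⟩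
  · exact (mul_le_mul_of_nonneg_right h4 (by linarith)).trans h2
  · refine h4.trans (h1.trans ?_)
    rw [div_le_iff₀ (by linarith)]
    nlinarith

lemma fin_arith (W I TP E E2 s0 s A G2 I1 I3 K u T Tk X3 LL : ℝ) (hTP : 0 ≤ TP) (hE : 0 ≤ E)
    (hW : W ≤ E * I)
    (hI : I ≤ TP * (s0 * A) * E2 + TP * (K * LL) * G2 + (TP * (s0 * u) + K * T) +
      (TP * s0 + Tk) * I1 + K * X3 * I3)
    (hTk : Tk ≤ K * T) (hX3 : X3 ≤ T) (hT : T = 7 * TP ∨ T ≤ 7 * TP) (hTnn : 0 ≤ T)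
    (hA : 0 ≤ A) (hLL : 0 ≤ LL) (hG2 : 0 ≤ G2)
    (hI1 : 0 ≤ I1) (hI3 : 0 ≤ I3) (hK : 0 ≤ K) (hu : 0 ≤ u) (h1 : E * (E2 * s0) ≤ s)
    (h2 : E * s0 ≤ s) (hE2 : E ≤ 2) (hs0 : 0 ≤ s0) :
    W ≤ TP * (s * A + (2 * K * G2 + (14 * K + s * I1 + 14 * K * I1 + 14 * K * I3)) * LL + s * u +
      (2 * K * G2 + (14 * K + s * I1 + 14 * K * I1 + 14 * K * I3))) := by
  have hT' : T ≤ 7 * TP := by
    rcases hT with h | h
    · exact h.le
    · exact h
  have hs : 0 ≤ s := le_trans (mul_nonneg hE hs0) h2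
  have a1 : E * (TP * (s0 * A) * E2) ≤ TP * (s * A) := by
    calc E * (TP * (s0 * A) * E2) = TP * A * (E * (E2 * s0)) := by ring
      _ ≤ TP * A * s := mul_le_mul_of_nonneg_left h1 (by positivity)
      _ = TP * (s * A) := by ring
  have a2 : E * (TP * (K * LL) * G2) ≤ TP * (2 * K * G2 * LL) := by
    calc E * (TP * (K * LL) * G2) ≤ 2 * (TP * (K * LL) * G2) :=
          mul_le_mul_of_nonneg_right hE2 (by positivity)
      _ = TP * (2 * K * G2 * LL) := by ring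
  have a3 : E * (TP * (s0 * u)) ≤ TP * (s * u) := by
    calc E * (TP * (s0 * u)) = TP * u * (E * s0) := by ring
      _ ≤ TP * u * s := mul_le_mul_of_nonneg_left h2 (by positivity)
      _ = TP * (s * u) := by ring
  have a4 : E * (K * T) ≤ TP * (14 * K) := by
    calc E * (K * T) ≤ 2 * (K * T) := mul_le_mul_of_nonneg_right hE2 (by positivity)
      _ ≤ 2 * (K * (7 * TP)) := by
          apply mul_le_mul_of_nonneg_left _ (by norm_num)
          exact mul_le_mul_of_nonneg_left hT' hK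
      _ = TP * (14 * K) := by ring
  have a5 : E * (TP * s0 * I1) ≤ TP * (s * I1) := by
    calc E * (TP * s0 * I1) = TP * I1 * (E * s0) := by ring
      _ ≤ TP * I1 * s := mul_le_mul_of_nonneg_left h2 (by positivity)
      _ = TP * (s * I1) := by ring
  have a6 : E * (Tk * I1) ≤ TP * (14 * K * I1) := by
    calc E * (Tk * I1) ≤ E * (K * T * I1) := by
          apply mul_le_mul_of_nonneg_left _ hE
          exact mul_le_mul_of_nonneg_right hTk hI1
      _ = E * (K * T) * I1 := by ring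
      _ ≤ TP * (14 * K) * I1 := mul_le_mul_of_nonneg_right a4 hI1
      _ = TP * (14 * K * I1) := by ring
  have a7 : E * (K * X3 * I3) ≤ TP * (14 * K * I3) := by
    calc E * (K * X3 * I3) ≤ E * (K * T * I3) := by
          apply mul_le_mul_of_nonneg_left _ hE
          apply mul_le_mul_of_nonneg_right _ hI3
          exact mul_le_mul_of_nonneg_left hX3 hK
      _ = E * (K * T) * I3 := by ring
      _ ≤ TP * (14 * K) * I3 := mul_le_mul_of_nonneg_right a4 hI3
      _ = TP * (14 * K * I3) := by ring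
  have a8 : 0 ≤ TP * ((14 * K + s * I1 + 14 * K * I1 + 14 * K * I3) * LL) := by positivity
  have a9 : 0 ≤ TP * (2 * K * G2) := by positivity
  have b1 := mul_le_mul_of_nonneg_left hI hE
  have e1 : E * (TP * (s0 * A) * E2 + TP * (K * LL) * G2 + (TP * (s0 * u) + K * T) +
      (TP * s0 + Tk) * I1 + K * X3 * I3) = E * (TP * (s0 * A) * E2) + E * (TP * (K * LL) * G2) +
      E * (TP * (s0 * u)) + E * (K * T) + E * (TP * s0 * I1) + E * (Tk * I1) +
      E * (K * X3 * I3) := by ring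
  rw [e1] at b1
  have e2 : TP * (s * A + (2 * K * G2 + (14 * K + s * I1 + 14 * K * I1 + 14 * K * I3)) * LL +
      s * u + (2 * K * G2 + (14 * K + s * I1 + 14 * K * I1 + 14 * K * I3))) =
      TP * (s * A) + TP * (2 * K * G2 * LL) +
      TP * ((14 * K + s * I1 + 14 * K * I1 + 14 * K * I3) * LL) + TP * (s * u) +
      TP * (2 * K * G2) + TP * (14 * K) + TP * (s * I1) + TP * (14 * K * I1) +
      TP * (14 * K * I3) := by ring
  rw [e2]
  linarith

/-- **Montgomery's upper bound, unconditionally and with no assumption on the zeros** -/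
theorem Wp_upper (lam η : ℝ) (hlam1 : lam < 1) (hη : 0 < η) (hη1 : η ≤ 1) :
    ∃ K T0 : ℝ, 0 < K ∧ 10 ≤ T0 ∧ ∀ T : ℝ, T0 ≤ T → ∀ u : ℝ, 0 ≤ u → u ≤ lam * Real.log T →
      Wp T u ≤ (T / (2 * Real.pi)) * ((1 + η) * ((Real.log T) ^ 2 * Real.exp (-2 * u)) +
        K * (Real.log T * Real.exp (-2 * u)) + (1 + η) * u + K) := by
  obtain ⟨θ, hθd⟩ : ∃ θ : ℝ, θ = η / 16 := ⟨_, rfl⟩
  obtain ⟨q1, q2, q3⟩ := e35 η hη hη1
  rw [← hθd] at q1 q2 q3
  have hθ : 0 < θ := by rw [hθd]; positivity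
  have hθ' : θ ≤ 1 / 2 := by rw [hθd]; linarith
  obtain ⟨K, T0, hK, hT0, hmaj⟩ := Pb_maj θ (1 - lam) (η / 4) hθ hθ' (by linarith) (by positivity)
    (by linarith)
  obtain ⟨G2, hG2⟩ : ∃ G : ℝ, G = ∫ v : ℝ, Real.exp (4 * |v| - v ^ 2 / (2 * θ ^ 2)) := ⟨_, rfl⟩
  obtain ⟨I1, hI1⟩ : ∃ G : ℝ, G = ∫ a : ℝ, Real.exp (-1 * |a|) := ⟨_, rfl⟩
  obtain ⟨I3, hI3⟩ : ∃ G : ℝ, G = ∫ a : ℝ, Real.exp (-(1 / 2) * |a|) := ⟨_, rfl⟩
  have hG20 : 0 ≤ G2 := by rw [hG2]; exact integral_nonneg fun v => (Real.exp_pos _).le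
  have hI10 : 0 ≤ I1 := by rw [hI1]; exact integral_nonneg fun v => (Real.exp_pos _).le
  have hI30 : 0 ≤ I3 := by rw [hI3]; exact integral_nonneg fun v => (Real.exp_pos _).le
  refine ⟨2 * K * G2 + (14 * K + (1 + η) * I1 + 14 * K * I1 + 14 * K * I3), T0, by positivity, hT0,
    fun T hT u hu hul => ?_⟩
  have hT10 : 10 ≤ T := hT0.trans hT
  have hTpos : 0 < T := by linarith
  have hπ := Real.pi_pos
  have hL : 0 < Real.log T := Real.log_pos (by linarith)
  have hM := Mint θ T u (Real.log T) K (1 - lam) (η / 4) hθ hθ' hK hu hL.le hTpos (by positivity)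
    (Pb T (θ ^ 2)) (smooth_eq (θ ^ 2) T u (by positivity)).1 (hmaj T hT)
  rw [← hG2, ← hI1, ← hI3] at hM
  have hW := Wp_le θ T u hθ
  have hW' : Wp T u ≤ Real.exp (3 / 2 * θ) *
      ∫ a : ℝ, Real.exp (-2 * |a|) * Pb T (θ ^ 2) (u + a) := by
    calc Wp T u = Real.exp (3 / 2 * θ) * (Real.exp (-(3 / 2) * θ) * Wp T u) := by
          rw [← mul_assoc, ← Real.exp_add]
          have : 3 / 2 * θ + -(3 / 2) * θ = 0 := by ring
          rw [this, Real.exp_zero, one_mul]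
      _ ≤ _ := mul_le_mul_of_nonneg_left hW (Real.exp_pos _).le
  have hlamL : lam * Real.log T ≤ Real.log T := by
    have := mul_le_mul_of_nonneg_right hlam1.le hL.le
    linarith
  have hTk : K * T ^ (1 - lam) * Real.exp u ≤ K * T := by
    have h1 : Real.exp u ≤ T ^ lam := by
      rw [Real.rpow_def_of_pos hTpos]
      apply Real.exp_le_exp.2
      linarith
    calc K * T ^ (1 - lam) * Real.exp u ≤ K * T ^ (1 - lam) * T ^ lam :=
          mul_le_mul_of_nonneg_left h1 (by positivity)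
      _ = K * T := by
          rw [mul_assoc, ← Real.rpow_add hTpos]
          norm_num
  have hX3 : Real.exp (3 / 2 * u - 2 * Real.log T) ≤ T := by
    have : Real.exp (3 / 2 * u - 2 * Real.log T) ≤ 1 := by
      apply Real.exp_le_one_iff.2
      linarith
    linarith
  have hT7 : T ≤ 7 * (T / (2 * Real.pi)) := by
    have h3 : Real.pi < 3.15 := Real.pi_lt_d2
    rw [← mul_div_assoc, le_div_iff₀ (by positivity)]
    nlinarith
  have hM' : (∫ a : ℝ, Real.exp (-2 * |a|) * Pb T (θ ^ 2) (u + a)) ≤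
      (T / (2 * Real.pi)) * ((1 + η / 4) * ((Real.log T) ^ 2 * Real.exp (-2 * u))) *
        Real.exp (2 * θ) + (T / (2 * Real.pi)) * (K * (Real.log T * Real.exp (-2 * u))) * G2 +
      ((T / (2 * Real.pi)) * ((1 + η / 4) * u) + K * T) +
      ((T / (2 * Real.pi)) * (1 + η / 4) + K * T ^ (1 - lam) * Real.exp u) * I1 +
      K * Real.exp (3 / 2 * u - 2 * Real.log T) * I3 := by
    refine hM.trans (le_of_eq ?_)
    ring
  have := fin_arith (Wp T u) (∫ a : ℝ, Real.exp (-2 * |a|) * Pb T (θ ^ 2) (u + a))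
    (T / (2 * Real.pi)) (Real.exp (3 / 2 * θ)) (Real.exp (2 * θ)) (1 + η / 4) (1 + η)
    ((Real.log T) ^ 2 * Real.exp (-2 * u)) G2 I1 I3 K u T (K * T ^ (1 - lam) * Real.exp u)
    (Real.exp (3 / 2 * u - 2 * Real.log T)) (Real.log T * Real.exp (-2 * u)) (by positivity)
    (by positivity) hW' hM' hTk hX3 (Or.inr hT7) hTpos.le (by positivity) (by positivity) hG20 hI10
    hI30 hK.le hu q1 q2 q3 (by positivity)
  exact this

end H479.U
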