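import Pool.Agent.H479.U.Tr2
import Pool.Agent.H479.U.Maj3

open Finset MeasureTheory Complex
open scoped NNReal

namespace H479.U

open H343.ZSide

variable {w : ℝ → ℝ}

lemma Wp_neg (T u : ℝ) : Wp T (-u) = Wp T u := by
  unfold Wp
  rw [PPair_neg]
  intro z
  unfold H343.kW
  rw [neg_sq]

lemma Wp_cont (T : ℝ) : Continuous (Wp T) := by
  unfold Wp H343.PPair
  fun_prop

lemma half_int (hw : Win w) (Λ T : ℝ) : ∫ a : ℝ, WW w a * Wp T (Λ * a) =
    2 * ∫ a in (0 : ℝ)..1, WW w a * Wp T (Λ * a) := by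
  have h1 : ∫ a : ℝ, WW w a * Wp T (Λ * a) = ∫ a : ℝ, WW w |a| * Wp T (Λ * |a|) := by
    congr 1
    funext a
    rcases abs_cases a with h | h
    · rw [h.1]
    · rw [h.1, WW_even hw, mul_neg, Wp_neg]
  rw [h1, integral_comp_abs (f := fun a => WW w a * Wp T (Λ * a)),
    intervalIntegral.integral_of_le zero_le_one]
  congr 1
  apply setIntegral_eq_of_subset_of_forall_sdiff_eq_zero measurableSet_Ioi
  · intro x hx
    exact hx.1
  · intro x hx
    have h2 : 1 < x := by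
      by_contra h
      push Not at h
      exact hx.2 ⟨hx.1, h⟩
    rw [WW_supp hw x (by rw [abs_of_pos (by linarith)]; exact h2), zero_mul]

lemma scale_int (b L T : ℝ) (hb : 0 < b) :
    ∫ a in (0 : ℝ)..1, WW w a * Wp T (b * L * a) =
    (1 / b) * ∫ α in (0 : ℝ)..b, WW w (α / b) * Wp T (α * L) := by
  have h := intervalIntegral.integral_comp_div (a := 0) (b := b) (c := b)
    (fun a : ℝ => WW w a * Wp T (b * L * a)) hb.ne'
  rw [zero_div, div_self hb.ne', smul_eq_mul] at h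
  have h2 : ∀ α : ℝ, WW w (α / b) * Wp T (b * L * (α / b)) = WW w (α / b) * Wp T (α * L) := by
    intro α
    congr 2
    field_simp
  simp_rw [h2] at h
  rw [h, ← mul_assoc, one_div, inv_mul_cancel₀ hb.ne', one_mul]

lemma q_ii (hw : Win w) (b x y : ℝ) (hb : 0 < b) (g : ℝ → ℝ) (hg : Continuous g) :
    IntervalIntegrable (fun α => WW w (α / b) * g α) volume x y := by
  have h1 : Integrable (fun α => WW w (α / b)) := (WW_int hw).comp_div hb.ne'
  exact (h1.intervalIntegrable).mul_continuousOn hg.continuousOn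

lemma exp_int (L lam : ℝ) (hL : 0 < L) :
    ∫ α in (0 : ℝ)..lam, Real.exp (-2 * (α * L)) ≤ 1 / (2 * L) := by
  have h1 : ∀ α : ℝ, HasDerivAt (fun α : ℝ => -(1 / (2 * L)) * Real.exp (-2 * (α * L)))
      (Real.exp (-2 * (α * L))) α := by
    intro α
    have h2 : HasDerivAt (fun α : ℝ => -2 * (α * L)) (-2 * L) α := by
      simpa using ((hasDerivAt_id α).mul_const L).const_mul (-2)
    have h3 := h2.exp.const_mul (-(1 / (2 * L)))
    refine h3.congr_deriv ?_
    field_simp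
  rw [intervalIntegral.integral_eq_sub_of_hasDerivAt (fun α _ => h1 α)
    (by apply Continuous.intervalIntegrable; fun_prop)]
  simp only [zero_mul, mul_zero, Real.exp_zero]
  have : 0 < 1 / (2 * L) * Real.exp (-2 * (lam * L)) := by positivity
  linarith

/-- the contribution of `[0, λ]` -/
lemma low_part (hw : Win w) (b lam η K T L : ℝ) (hb : 0 < b) (hlam0 : 0 ≤ lam) (hlam1 : lam < 1)
    (hη : 0 < η) (hη1 : η ≤ 1) (hK : 0 < K) (hT : 0 < T) (hL : 0 < L)
    (hup : ∀ u : ℝ, 0 ≤ u → u ≤ lam * L →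
      Wp T u ≤ (T / (2 * Real.pi)) * ((1 + η) * (L ^ 2 * Real.exp (-2 * u)) +
        K * (L * Real.exp (-2 * u)) + (1 + η) * u + K)) :
    ∫ α in (0 : ℝ)..lam, WW w (α / b) * Wp T (α * L) ≤
      (T / (2 * Real.pi) * L) * (WW w 0 / 2 + (∫ α in (0 : ℝ)..lam, WW w (α / b) * α) +
        (3 / 2) * WW w 0 * η + (3 / 2) * (K * WW w 0) / L) := by
  have hπ := Real.pi_pos
  have hW0 : 0 ≤ WW w 0 := WW_nonneg hw 0
  obtain ⟨TP, hTP⟩ : ∃ x : ℝ, x = T / (2 * Real.pi) := ⟨_, rfl⟩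
  have hTP0 : 0 < TP := by rw [hTP]; positivity
  obtain ⟨W0, hW0d⟩ : ∃ x : ℝ, x = WW w 0 := ⟨_, rfl⟩
  rw [← hW0d] at hW0
  rw [← hTP] at hup ⊢
  rw [← hW0d]
  have hq : ∀ α : ℝ, WW w (α / b) ≤ W0 := fun α => by rw [hW0d]; exact WW_le hw _
  have hq0 : ∀ α : ℝ, 0 ≤ WW w (α / b) := fun α => WW_nonneg hw _
  have i1 : IntervalIntegrable (fun α : ℝ => (TP * ((1 + η) * L ^ 2 + K * L) * W0) *
      Real.exp (-2 * (α * L))) volume 0 lam := by
    apply Continuous.intervalIntegrable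
    fun_prop
  have i2 : IntervalIntegrable (fun α : ℝ => (TP * ((1 + η) * L)) * (WW w (α / b) * α))
      volume 0 lam := (q_ii hw b 0 lam hb _ continuous_id).const_mul _
  have i3 : IntervalIntegrable (fun _ : ℝ => TP * K * W0) volume 0 lam :=
    intervalIntegrable_const
  have hmono : ∫ α in (0 : ℝ)..lam, WW w (α / b) * Wp T (α * L) ≤
      ∫ α in (0 : ℝ)..lam, ((TP * ((1 + η) * L ^ 2 + K * L) * W0) * Real.exp (-2 * (α * L)) +
        (TP * ((1 + η) * L)) * (WW w (α / b) * α) + TP * K * W0) := by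
    apply intervalIntegral.integral_mono_on hlam0
    · exact q_ii hw b 0 lam hb _ ((Wp_cont T).comp (by fun_prop))
    · exact (i1.add i2).add i3
    · intro α hα
      have hα0 := hα.1
      have h1 := hup (α * L) (by positivity) (mul_le_mul_of_nonneg_right hα.2 hL.le)
      have h2 := mul_le_mul_of_nonneg_left h1 (hq0 α)
      refine h2.trans ?_
      have he := Real.exp_pos (-2 * (α * L))
      obtain ⟨e, hed⟩ : ∃ x : ℝ, x = Real.exp (-2 * (α * L)) := ⟨_, rfl⟩
      obtain ⟨q, hqd⟩ : ∃ x : ℝ, x = WW w (α / b) := ⟨_, rfl⟩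
      have hqq : q ≤ W0 := by rw [hqd]; exact hq α
      rw [← hed] at he ⊢
      rw [← hqd]
      have h3 : q * (TP * ((1 + η) * L ^ 2 + K * L) * e) ≤
          W0 * (TP * ((1 + η) * L ^ 2 + K * L) * e) :=
        mul_le_mul_of_nonneg_right hqq (by positivity)
      have h4 : q * (TP * K) ≤ W0 * (TP * K) := mul_le_mul_of_nonneg_right hqq (by positivity)
      have e1 : q * (TP * ((1 + η) * (L ^ 2 * e) + K * (L * e) + (1 + η) * (α * L) + K)) =
          q * (TP * ((1 + η) * L ^ 2 + K * L) * e) + TP * ((1 + η) * L) * (q * α) +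
          q * (TP * K) := by ring
      rw [e1]
      linarith
  refine hmono.trans ?_
  rw [intervalIntegral.integral_add (i1.add i2) i3, intervalIntegral.integral_add i1 i2,
    intervalIntegral.integral_const_mul, intervalIntegral.integral_const_mul,
    intervalIntegral.integral_const]
  obtain ⟨J, hJ⟩ : ∃ x : ℝ, x = ∫ α in (0 : ℝ)..lam, WW w (α / b) * α := ⟨_, rfl⟩
  have hJ1 : J ≤ W0 := by
    have h1 : J ≤ ∫ α in (0 : ℝ)..lam, W0 := by
      rw [hJ]
      apply intervalIntegral.integral_mono_on hlam0 (q_ii hw b 0 lam hb _ continuous_id)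
        intervalIntegrable_const
      intro α hα
      simp only [id]
      calc WW w (α / b) * α ≤ WW w (α / b) * 1 :=
            mul_le_mul_of_nonneg_left (by linarith [hα.2]) (hq0 α)
        _ ≤ W0 := by rw [mul_one]; exact hq α
    rw [intervalIntegral.integral_const, smul_eq_mul, sub_zero] at h1
    refine h1.trans ?_
    calc lam * W0 ≤ 1 * W0 := mul_le_mul_of_nonneg_right hlam1.le hW0
      _ = W0 := one_mul _
  rw [← hJ, smul_eq_mul, sub_zero]
  have h5 := exp_int L lam hL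
  have h6 : TP * ((1 + η) * L ^ 2 + K * L) * W0 * (∫ α in (0 : ℝ)..lam, Real.exp (-2 * (α * L))) ≤
      TP * ((1 + η) * L ^ 2 + K * L) * W0 * (1 / (2 * L)) :=
    mul_le_mul_of_nonneg_left h5 (by positivity)
  have h7 : TP * ((1 + η) * L ^ 2 + K * L) * W0 * (1 / (2 * L)) =
      TP * L * ((1 + η) * W0 / 2 + K * W0 / (2 * L)) := by
    field_simp
  have h8 : lam * (TP * K * W0) ≤ TP * L * (K * W0 / L) := by
    have : TP * L * (K * W0 / L) = 1 * (TP * K * W0) := by field_simp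
    rw [this]
    exact mul_le_mul_of_nonneg_right hlam1.le (by positivity)
  have h9 : TP * ((1 + η) * L) * J ≤ TP * L * (J + η * W0) := by
    have : TP * ((1 + η) * L) * J = TP * L * (J + η * J) := by ring
    rw [this]
    apply mul_le_mul_of_nonneg_left _ (by positivity)
    have := mul_le_mul_of_nonneg_left hJ1 hη.le
    linarith
  have h10 : TP * L * (W0 / 2 + J + 3 / 2 * W0 * η + 3 / 2 * (K * W0) / L) =
      TP * L * ((1 + η) * W0 / 2 + K * W0 / (2 * L)) + TP * L * (J + η * W0) +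
      TP * L * (K * W0 / L) := by
    field_simp
    ring
  rw [h10]
  linarith

/-- the constant predicted by Montgomery's conjecture -/
noncomputable def Cw (w : ℝ → ℝ) (b : ℝ) : ℝ :=
  (WW w 0 + 2 * ∫ α in (0 : ℝ)..b, WW w (α / b) * min α 1) / b

/-- the deviation term -/
noncomputable def Dw (w : ℝ → ℝ) (b lam T : ℝ) : ℝ :=
  2 / b * ∫ α in lam..b, WW w (α / b) *
    (Wp T (α * Real.log T) / (T / (2 * Real.pi) * Real.log T) - min α 1)

theorem main_w (hw : Win w) (b lam ε : ℝ) (hb : 0 < b) (hlam0 : 0 ≤ lam) (hlam1 : lam < 1)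
    (hlamb : lam ≤ b) (hε : 0 < ε) : ∃ T0 : ℝ, 10 ≤ T0 ∧ ∀ T : ℝ, T0 ≤ T →
      (2 - Cw w b - Dw w b lam T - ε) * (T / (2 * Real.pi) * Real.log T) ≤ Nsc T ∧
      (3 - Cw w b - Dw w b lam T - ε) * (T / (2 * Real.pi) * Real.log T) ≤ 2 * Ndi T := by
  have hπ := Real.pi_pos
  obtain ⟨W0, hW0d⟩ : ∃ x : ℝ, x = WW w 0 := ⟨_, rfl⟩
  have hW0 : 0 ≤ W0 := by rw [hW0d]; exact WW_nonneg hw 0
  -- choice of η
  obtain ⟨η, hηd⟩ : ∃ η : ℝ, η = min 1 (ε / (2 * (3 * (1 + W0 / b)))) := ⟨_, rfl⟩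
  have hden : 0 < 3 * (1 + W0 / b) := by positivity
  have hη : 0 < η := by rw [hηd]; exact lt_min one_pos (by positivity)
  have hη1 : η ≤ 1 := by rw [hηd]; exact min_le_left _ _
  have hη2 : η * (3 * (1 + W0 / b)) ≤ ε / 2 := by
    have : η ≤ ε / (2 * (3 * (1 + W0 / b))) := by rw [hηd]; exact min_le_right _ _
    calc η * (3 * (1 + W0 / b)) ≤ ε / (2 * (3 * (1 + W0 / b))) * (3 * (1 + W0 / b)) :=
          mul_le_mul_of_nonneg_right this hden.le
      _ = ε / 2 := by field_simp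
  obtain ⟨K, T1, hK, hT1, hup⟩ := Wp_upper lam η hlam1 hη hη1
  obtain ⟨T2, hT2, hN⟩ := N0_lower η hη
  obtain ⟨T3, hT3⟩ : ∃ T3 : ℝ, T3 = Real.exp (3 * (K * W0) / b * 2 / ε + 1) := ⟨_, rfl⟩
  refine ⟨max (max T1 T2) T3, (hT1.trans (le_max_left _ _)).trans (le_max_left _ _),
    fun T hT => ?_⟩
  have hTT1 : T1 ≤ T := ((le_max_left _ _).trans (le_max_left _ _)).trans hT
  have hTT2 : T2 ≤ T := ((le_max_right _ _).trans (le_max_left _ _)).trans hT
  have hTT3 : T3 ≤ T := (le_max_right _ _).trans hT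
  have hT10 : 10 ≤ T := hT1.trans hTT1
  have hTpos : 0 < T := by linarith
  obtain ⟨L, hLd⟩ : ∃ L : ℝ, L = Real.log T := ⟨_, rfl⟩
  have hL : 0 < L := by rw [hLd]; exact Real.log_pos (by linarith)
  have hL3 : 3 * (K * W0) / b / L ≤ ε / 2 := by
    have h1 : 3 * (K * W0) / b * 2 / ε + 1 ≤ L := by
      rw [hLd, Real.le_log_iff_exp_le hTpos, ← hT3]
      exact hTT3
    rw [div_le_iff₀ hL]
    have h2 : 3 * (K * W0) / b * 2 / ε ≤ L := by linarith
    rw [div_le_iff₀ hε] at h2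
    linarith
  obtain ⟨X, hXd⟩ : ∃ X : ℝ, X = T / (2 * Real.pi) * L := ⟨_, rfl⟩
  have hX : 0 < X := by rw [hXd]; positivity
  obtain ⟨t1, t2, t3⟩ := tr3 hw (b * L) T
  rw [half_int hw, scale_int b L T hb] at t2 t3
  have hsplit : ∫ α in (0 : ℝ)..b, WW w (α / b) * Wp T (α * L) =
      (∫ α in (0 : ℝ)..lam, WW w (α / b) * Wp T (α * L)) +
      ∫ α in lam..b, WW w (α / b) * Wp T (α * L) := by
    rw [intervalIntegral.integral_add_adjacent_intervals]
    · exact q_ii hw b 0 lam hb _ ((Wp_cont T).comp (by fun_prop))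
    · exact q_ii hw b lam b hb _ ((Wp_cont T).comp (by fun_prop))
  have hlow := low_part hw b lam η K T L hb hlam0 hlam1 hη hη1 hK hTpos hL (by
    rw [hLd]; exact hup T hTT1)
  rw [← hXd, ← hW0d] at hlow
  have hmin : ∫ α in (0 : ℝ)..b, WW w (α / b) * min α 1 =
      (∫ α in (0 : ℝ)..lam, WW w (α / b) * α) + ∫ α in lam..b, WW w (α / b) * min α 1 := by
    rw [← intervalIntegral.integral_add_adjacent_intervals
      (q_ii hw b 0 lam hb _ (by fun_prop)) (q_ii hw b lam b hb _ (by fun_prop))]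
    congr 1
    apply intervalIntegral.integral_congr
    intro α hα
    rw [Set.uIcc_of_le hlam0] at hα
    simp only
    rw [min_eq_left (by linarith [hα.2])]
  have hD : ∫ α in lam..b, WW w (α / b) * Wp T (α * L) =
      X * (∫ α in lam..b, WW w (α / b) * (Wp T (α * L) / X - min α 1)) +
      X * ∫ α in lam..b, WW w (α / b) * min α 1 := by
    rw [← intervalIntegral.integral_const_mul, ← intervalIntegral.integral_const_mul,
      ← intervalIntegral.integral_add]
    · apply intervalIntegral.integral_congr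
      intro α _
      simp only
      field_simp
      ring
    · exact (q_ii hw b lam b hb _ (by
        have := (Wp_cont T).comp (by fun_prop : Continuous fun α : ℝ => α * L)
        exact (this.div_const X).sub (by fun_prop))).const_mul X
    · exact (q_ii hw b lam b hb _ (by fun_prop)).const_mul X
  have hNN := hN T hTT2
  rw [← hLd, ← hXd] at hNN
  unfold Cw Dw
  rw [← hLd, ← hXd, ← hW0d]
  obtain ⟨J1, hJ1⟩ : ∃ x : ℝ, x = ∫ α in (0 : ℝ)..lam, WW w (α / b) * α := ⟨_, rfl⟩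
  obtain ⟨J2, hJ2⟩ : ∃ x : ℝ, x = ∫ α in lam..b, WW w (α / b) * min α 1 := ⟨_, rfl⟩
  obtain ⟨J3, hJ3⟩ : ∃ x : ℝ, x = ∫ α in lam..b, WW w (α / b) * (Wp T (α * L) / X - min α 1) :=
    ⟨_, rfl⟩
  obtain ⟨J4, hJ4⟩ : ∃ x : ℝ, x = ∫ α in (0 : ℝ)..lam, WW w (α / b) * Wp T (α * L) := ⟨_, rfl⟩
  rw [hsplit, hD, ← hJ2, ← hJ3, ← hJ4] at t2 t3
  rw [← hJ1, ← hJ4] at hlow
  rw [hmin, ← hJ1, ← hJ2, ← hJ3]
  -- algebra
  have hb1 : 0 < 1 / b := by positivity
  have key : 2 * (1 / b * (J4 + (X * J3 + X * J2))) ≤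
      (((W0 + 2 * (J1 + J2)) / b) + (2 / b) * J3 + (3 * (W0 / b) * η + 3 * (K * W0) / b / L)) *
        X := by
    have h1 : 2 * (1 / b * (J4 + (X * J3 + X * J2))) ≤
        2 * (1 / b * (X * (W0 / 2 + J1 + 3 / 2 * W0 * η + 3 / 2 * (K * W0) / L) +
          (X * J3 + X * J2))) := by
      apply mul_le_mul_of_nonneg_left _ (by norm_num)
      apply mul_le_mul_of_nonneg_left _ hb1.le
      linarith
    refine h1.trans (le_of_eq ?_)
    field_simp
    ring
  have hη3 : 2 * η + 3 * (W0 / b) * η + 3 * (K * W0) / b / L ≤ ε := by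
    have : 2 * η + 3 * (W0 / b) * η ≤ η * (3 * (1 + W0 / b)) := by
      have e : η * (3 * (1 + W0 / b)) = 3 * η + 3 * (W0 / b) * η := by ring
      rw [e]
      linarith
    linarith
  have hη4 : 3 * η + 3 * (W0 / b) * η + 3 * (K * W0) / b / L ≤ ε := by
    have e : η * (3 * (1 + W0 / b)) = 3 * η + 3 * (W0 / b) * η := by ring
    rw [e] at hη2
    linarith
  have hη3' := mul_le_mul_of_nonneg_right hη3 hX.le
  have hη4' := mul_le_mul_of_nonneg_right hη4 hX.le
  constructor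
  · have e1 : (2 - (W0 + 2 * (J1 + J2)) / b - 2 / b * J3 - ε) * X = 2 * X -
      ((W0 + 2 * (J1 + J2)) / b + 2 / b * J3) * X - ε * X := by ring
    have e2 : (((W0 + 2 * (J1 + J2)) / b) + (2 / b) * J3 +
        (3 * (W0 / b) * η + 3 * (K * W0) / b / L)) * X =
        ((W0 + 2 * (J1 + J2)) / b + 2 / b * J3) * X +
        (2 * η + 3 * (W0 / b) * η + 3 * (K * W0) / b / L) * X - 2 * η * X := by ring
    rw [e1]
    rw [e2] at key
    have e3 : (1 - η) * X = X - η * X := by ring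
    rw [e3] at hNN
    linarith
  · have e1 : (3 - (W0 + 2 * (J1 + J2)) / b - 2 / b * J3 - ε) * X = 3 * X -
      ((W0 + 2 * (J1 + J2)) / b + 2 / b * J3) * X - ε * X := by ring
    have e2 : (((W0 + 2 * (J1 + J2)) / b) + (2 / b) * J3 +
        (3 * (W0 / b) * η + 3 * (K * W0) / b / L)) * X =
        ((W0 + 2 * (J1 + J2)) / b + 2 / b * J3) * X +
        (3 * η + 3 * (W0 / b) * η + 3 * (K * W0) / b / L) * X - 3 * η * X := by ring
    rw [e1]
    rw [e2] at key
    have e3 : (1 - η) * X = X - η * X := by ring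
    rw [e3] at hNN
    linarith

end H479.U
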