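import Pool.Agent.H479.U.Conv

open Finset MeasureTheory Complex

namespace H479.U

open H343.ZSide

lemma iea2 : Integrable (fun a : ℝ => Real.exp (-2 * |a|)) ∧
    ∫ a : ℝ, Real.exp (-2 * |a|) = 1 := by
  obtain ⟨h1, h2⟩ := H343.integrable_laplace 0 (by simp) (by simp)
  have e : (fun a : ℝ => ((Real.exp (-2 * |a|) : ℝ) : ℂ) * cexp (a * 0)) = fun a : ℝ =>
      ((Real.exp (-2 * |a|) : ℝ) : ℂ) := by
    funext a
    simp
  rw [e] at h1 h2
  refine ⟨h1.re.congr (Filter.Eventually.of_forall fun a => Complex.ofReal_re _), ?_⟩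
  rw [integral_complex_ofReal] at h2
  have h3 : ((∫ a : ℝ, Real.exp (-2 * |a|) : ℝ) : ℂ) = ((1 : ℝ) : ℂ) := by
    rw [h2]; norm_num
  exact_mod_cast h3

lemma iea (c : ℝ) (hc : 0 < c) : Integrable (fun a : ℝ => Real.exp (-c * |a|)) := by
  have h := iea2.1.comp_mul_left' (R := c / 2) (by positivity)
  refine h.congr (Filter.Eventually.of_forall fun a => ?_)
  simp only
  rw [abs_mul, abs_of_pos (by positivity : 0 < c / 2)]
  congr 1
  ring

lemma ig (c : ℝ) (hc : 0 < c) : Integrable (fun y : ℝ => Real.exp (-c * y ^ 2)) ∧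
    ∫ y : ℝ, Real.exp (-c * y ^ 2) = Real.sqrt (Real.pi / c) :=
  ⟨integrable_exp_neg_mul_sq hc, integral_gaussian c⟩

lemma two_abs_le (θ y : ℝ) (hθ : 0 < θ) : 2 * |y| ≤ θ + y ^ 2 / θ := by
  have h1 : y ^ 2 = |y| ^ 2 := (sq_abs y).symm
  rw [h1, ← sub_nonneg]
  have : θ + |y| ^ 2 / θ - 2 * |y| = (|y| - θ) ^ 2 / θ := by
    field_simp
    ring
  rw [this]
  positivity

lemma cb_ge (θ : ℝ) (hθ : 0 < θ) :
    Integrable (fun y : ℝ => gb (θ ^ 2) y * Real.exp (-2 * |y|)) ∧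
    Real.exp (-(3 / 2) * θ) ≤ ∫ y : ℝ, gb (θ ^ 2) y * Real.exp (-2 * |y|) := by
  have hπ := Real.pi_pos
  have hs : 0 < Real.sqrt (Real.pi * θ ^ 2) := Real.sqrt_pos.2 (by positivity)
  have hI : Integrable (fun y : ℝ => gb (θ ^ 2) y * Real.exp (-2 * |y|)) := by
    refine ((ig (1 / θ ^ 2) (by positivity)).1.div_const
      (Real.sqrt (Real.pi * θ ^ 2))).mono' (by
        unfold gb
        refine Continuous.aestronglyMeasurable ?_
        fun_prop) (Filter.Eventually.of_forall fun y => ?_)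
    unfold gb
    rw [Real.norm_of_nonneg (by positivity)]
    have h1 : Real.exp (-2 * |y|) ≤ 1 := Real.exp_le_one_iff.2 (by
      have := abs_nonneg y
      linarith)
    calc Real.exp (-y ^ 2 / θ ^ 2) / Real.sqrt (Real.pi * θ ^ 2) * Real.exp (-2 * |y|)
        ≤ Real.exp (-y ^ 2 / θ ^ 2) / Real.sqrt (Real.pi * θ ^ 2) * 1 :=
          mul_le_mul_of_nonneg_left h1 (by positivity)
      _ = Real.exp (-(1 / θ ^ 2) * y ^ 2) / Real.sqrt (Real.pi * θ ^ 2) := by
          rw [mul_one]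
          congr 2
          field_simp
  refine ⟨hI, ?_⟩
  have hc : 0 < (1 + θ) / θ ^ 2 := by positivity
  have h2 := (ig ((1 + θ) / θ ^ 2) hc)
  have h3 : ∫ y : ℝ, Real.exp (-θ) / Real.sqrt (Real.pi * θ ^ 2) *
      Real.exp (-((1 + θ) / θ ^ 2) * y ^ 2) ≤ ∫ y : ℝ, gb (θ ^ 2) y * Real.exp (-2 * |y|) := by
    apply integral_mono (h2.1.const_mul _) hI
    intro y
    simp only
    unfold gb
    rw [div_mul_eq_mul_div, div_mul_eq_mul_div]
    apply div_le_div_of_nonneg_right _ hs.le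
    rw [← Real.exp_add, ← Real.exp_add]
    apply Real.exp_le_exp.2
    have := two_abs_le θ y hθ
    have e : -θ + -((1 + θ) / θ ^ 2) * y ^ 2 = -y ^ 2 / θ ^ 2 - (θ + y ^ 2 / θ) := by
      field_simp
      ring
    rw [e]
    linarith
  refine le_trans ?_ h3
  rw [integral_const_mul, h2.2]
  have e2 : Real.pi / ((1 + θ) / θ ^ 2) = Real.pi * θ ^ 2 / (1 + θ) := by
    field_simp
  rw [e2, Real.sqrt_div (by positivity)]
  have h5 : 0 < Real.sqrt (1 + θ) := Real.sqrt_pos.2 (by positivity)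
  have e3 : Real.exp (-θ) / Real.sqrt (Real.pi * θ ^ 2) *
      (Real.sqrt (Real.pi * θ ^ 2) / Real.sqrt (1 + θ)) = Real.exp (-θ) / Real.sqrt (1 + θ) := by
    field_simp
  rw [e3, le_div_iff₀ h5]
  have h6 : Real.sqrt (1 + θ) ≤ Real.exp (θ / 2) := by
    rw [Real.sqrt_le_left (Real.exp_pos _).le, ← Real.exp_nat_mul]
    have := Real.add_one_le_exp (((2 : ℕ) : ℝ) * (θ / 2))
    push_cast at this ⊢
    linarith
  calc Real.exp (-(3 / 2) * θ) * Real.sqrt (1 + θ) ≤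
      Real.exp (-(3 / 2) * θ) * Real.exp (θ / 2) :=
        mul_le_mul_of_nonneg_left h6 (Real.exp_pos _).le
    _ = Real.exp (-θ) := by
        rw [← Real.exp_add]
        congr 1
        ring

lemma cb_le (θ : ℝ) (hθ : 0 < θ) (hθ' : θ ≤ 1 / 2) :
    Integrable (fun y : ℝ => gb (θ ^ 2) y * Real.exp (2 * |y|)) ∧
    ∫ y : ℝ, gb (θ ^ 2) y * Real.exp (2 * |y|) ≤ Real.exp (2 * θ) := by
  have hπ := Real.pi_pos
  have hs : 0 < Real.sqrt (Real.pi * θ ^ 2) := Real.sqrt_pos.2 (by positivity)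
  have hc : 0 < (1 - θ) / θ ^ 2 := by
    apply div_pos (by linarith) (by positivity)
  have h2 := (ig ((1 - θ) / θ ^ 2) hc)
  have hpt : ∀ y : ℝ, gb (θ ^ 2) y * Real.exp (2 * |y|) ≤
      Real.exp θ / Real.sqrt (Real.pi * θ ^ 2) * Real.exp (-((1 - θ) / θ ^ 2) * y ^ 2) := by
    intro y
    unfold gb
    rw [div_mul_eq_mul_div, div_mul_eq_mul_div]
    apply div_le_div_of_nonneg_right _ hs.le
    rw [← Real.exp_add, ← Real.exp_add]
    apply Real.exp_le_exp.2
    have := two_abs_le θ y hθ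
    have e : θ + -((1 - θ) / θ ^ 2) * y ^ 2 = -y ^ 2 / θ ^ 2 + (θ + y ^ 2 / θ) := by
      field_simp
      ring
    rw [e]
    linarith
  have hI : Integrable (fun y : ℝ => gb (θ ^ 2) y * Real.exp (2 * |y|)) := by
    refine (h2.1.const_mul (Real.exp θ / Real.sqrt (Real.pi * θ ^ 2))).mono' (by
        unfold gb
        refine Continuous.aestronglyMeasurable ?_
        fun_prop) (Filter.Eventually.of_forall fun y => ?_)
    rw [Real.norm_of_nonneg (by unfold gb; positivity)]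
    exact hpt y
  refine ⟨hI, ?_⟩
  refine (integral_mono hI (h2.1.const_mul _) hpt).trans ?_
  rw [integral_const_mul, h2.2]
  have h1θ : 0 < 1 - θ := by linarith
  have e2 : Real.pi / ((1 - θ) / θ ^ 2) = Real.pi * θ ^ 2 / (1 - θ) := by
    field_simp
  rw [e2, Real.sqrt_div (by positivity)]
  have h5 : 0 < Real.sqrt (1 - θ) := Real.sqrt_pos.2 h1θ
  have e3 : Real.exp θ / Real.sqrt (Real.pi * θ ^ 2) *
      (Real.sqrt (Real.pi * θ ^ 2) / Real.sqrt (1 - θ)) = Real.exp θ / Real.sqrt (1 - θ) := by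
    field_simp
  rw [e3, div_le_iff₀ h5]
  have h6 : Real.exp (-θ) ≤ Real.sqrt (1 - θ) := by
    apply Real.le_sqrt_of_sq_le
    rw [← Real.exp_nat_mul]
    -- exp (-2θ) ≤ 1 - θ
    have h7 : Real.exp (-(2 * θ)) ≤ 1 / (1 + 2 * θ) := by
      rw [Real.exp_neg, inv_eq_one_div]
      apply one_div_le_one_div_of_le (by linarith)
      have := Real.add_one_le_exp (2 * θ)
      linarith
    have h8 : 1 / (1 + 2 * θ) ≤ 1 - θ := by
      rw [div_le_iff₀ (by linarith)]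
      nlinarith
    have e : ((2 : ℕ) : ℝ) * -θ = -(2 * θ) := by push_cast; ring
    rw [e]
    linarith
  calc Real.exp θ = Real.exp (2 * θ) * Real.exp (-θ) := by
        rw [← Real.exp_add]; congr 1; ring
    _ ≤ Real.exp (2 * θ) * Real.sqrt (1 - θ) :=
        mul_le_mul_of_nonneg_left h6 (Real.exp_pos _).le

lemma Wp_le (θ T u : ℝ) (hθ : 0 < θ) : Real.exp (-(3 / 2) * θ) * Wp T u ≤
    ∫ a : ℝ, Real.exp (-2 * |a|) * Pb T (θ ^ 2) (u + a) := by
  have hb : 0 < θ ^ 2 := by positivity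
  obtain ⟨h1, h2, h3⟩ := smooth_eq (θ ^ 2) T u hb
  obtain ⟨h4, h5⟩ := cb_ge θ hθ
  rw [← h3]
  calc Real.exp (-(3 / 2) * θ) * Wp T u
      ≤ (∫ y : ℝ, gb (θ ^ 2) y * Real.exp (-2 * |y|)) * Wp T u :=
        mul_le_mul_of_nonneg_right h5 (Wp_nonneg T u)
    _ = ∫ y : ℝ, (gb (θ ^ 2) y * Real.exp (-2 * |y|)) * Wp T u := by
        rw [integral_mul_const]
    _ ≤ ∫ y : ℝ, gb (θ ^ 2) y * Wp T (u + y) := by
        apply integral_mono (h4.mul_const _) h2
        intro y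
        simp only
        rw [mul_assoc]
        exact mul_le_mul_of_nonneg_left (harnack T u y) (gb_pos _ _ hb).le

end H479.U
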