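import Pool.Agent.H479.U.Maj

open Finset MeasureTheory Complex

namespace H479.U

open H343.ZSide

lemma kG_norm (b : ℝ) (z : ℂ) (hb : 0 < b) (hb1 : b ≤ 1) (hz : -1 < z.re) (hz' : z.re < 1) :
    ‖H343.kG b z‖ ≤ 2 := by
  unfold H343.kG
  rw [Complex.norm_exp]
  have h1 : ((b : ℂ) * z ^ 2 / 4).re = b / 4 * (z.re ^ 2 - z.im ^ 2) := by
    have : (b : ℂ) * z ^ 2 / 4 = ((b / 4 : ℝ) : ℂ) * (z * z) := by push_cast; ring
    rw [this, Complex.re_ofReal_mul, Complex.mul_re]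
    ring
  rw [h1]
  have h2 : z.re ^ 2 ≤ 1 := by nlinarith
  have h3 : b / 4 * (z.re ^ 2 - z.im ^ 2) ≤ 1 / 4 := by
    have h4 : z.re ^ 2 - z.im ^ 2 ≤ 1 := by nlinarith [sq_nonneg z.im]
    calc b / 4 * (z.re ^ 2 - z.im ^ 2) ≤ b / 4 * 1 :=
          mul_le_mul_of_nonneg_left h4 (by positivity)
      _ ≤ 1 / 4 := by linarith
  calc Real.exp (b / 4 * (z.re ^ 2 - z.im ^ 2)) ≤ Real.exp (1 / 4) := Real.exp_le_exp.2 h3
    _ ≤ 2 := by
        have h5 : Real.exp (1 / 4) ≤ 1 / (1 - 1 / 4) := by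
          have := Real.one_sub_le_exp_neg (1 / 4 : ℝ)
          rw [Real.exp_neg] at this
          rw [le_div_iff₀ (by norm_num)]
          have h6 := Real.exp_pos (1 / 4 : ℝ)
          calc Real.exp (1 / 4) * (1 - 1 / 4) ≤ Real.exp (1 / 4) * (Real.exp (1 / 4))⁻¹ :=
                mul_le_mul_of_nonneg_left this h6.le
            _ = 1 := mul_inv_cancel₀ h6.ne'
        norm_num at h5 ⊢
        linarith

lemma Pb_crude : ∃ C : ℝ, 0 < C ∧ ∀ b T v : ℝ, 0 < b → b ≤ 1 → 1 ≤ T →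
    Pb T b v ≤ C * T ^ 4 * Real.exp |v| := by
  obtain ⟨C, hC, hcount⟩ := H343.zeta_count
  refine ⟨2 * C ^ 2, by positivity, fun b T v hb hb1 hT => ?_⟩
  have hN : ∑ s ∈ Z0 T, mz s ≤ C * T ^ 2 := hcount T hT
  have hN0 : 0 ≤ ∑ s ∈ Z0 T, mz s := sum_nonneg fun s _ => mz_nonneg s
  unfold Pb
  refine (Complex.re_le_norm _).trans ?_
  unfold H343.PPair
  have h1 : ∀ s ∈ Z0 T, ∀ s' ∈ Z0 T, ‖((mz s * mz s' : ℝ) : ℂ) *
      (cexp (v * (s + (starRingEnd ℂ) s' - 1)) * H343.kG b (s + (starRingEnd ℂ) s' - 1))‖ ≤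
      2 * Real.exp |v| * (mz s * mz s') := by
    intro s hs s' hs'
    have hb' := re_bounds hs hs'
    rw [norm_mul, norm_mul, Complex.norm_exp, Complex.norm_real,
      Real.norm_of_nonneg (mul_nonneg (mz_nonneg s) (mz_nonneg s'))]
    have h2 := kG_norm b _ hb hb1 hb'.1 hb'.2
    have h3 : Real.exp ((v : ℂ) * (s + (starRingEnd ℂ) s' - 1)).re ≤ Real.exp |v| := by
      apply Real.exp_le_exp.2
      rw [Complex.re_ofReal_mul]
      calc v * (s + (starRingEnd ℂ) s' - 1).re ≤ |v * (s + (starRingEnd ℂ) s' - 1).re| :=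
            le_abs_self _
        _ = |v| * |(s + (starRingEnd ℂ) s' - 1).re| := abs_mul _ _
        _ ≤ |v| * 1 := mul_le_mul_of_nonneg_left (abs_le.2 ⟨hb'.1.le, hb'.2.le⟩) (abs_nonneg v)
        _ = |v| := mul_one _
    calc mz s * mz s' * (Real.exp ((v : ℂ) * (s + (starRingEnd ℂ) s' - 1)).re *
          ‖H343.kG b (s + (starRingEnd ℂ) s' - 1)‖) ≤ mz s * mz s' * (Real.exp |v| * 2) := by
          apply mul_le_mul_of_nonneg_left _ (mul_nonneg (mz_nonneg s) (mz_nonneg s'))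
          exact mul_le_mul h3 h2 (norm_nonneg _) (Real.exp_pos _).le
      _ = 2 * Real.exp |v| * (mz s * mz s') := by ring
  calc ‖∑ s ∈ Z0 T, ∑ s' ∈ Z0 T, ((mz s * mz s' : ℝ) : ℂ) *
      (cexp (v * (s + (starRingEnd ℂ) s' - 1)) * H343.kG b (s + (starRingEnd ℂ) s' - 1))‖
      ≤ ∑ s ∈ Z0 T, ∑ s' ∈ Z0 T, 2 * Real.exp |v| * (mz s * mz s') := by
        refine norm_sum_le_of_le _ fun s hs => norm_sum_le_of_le _ fun s' hs' => h1 s hs s' hs'
    _ = 2 * Real.exp |v| * (∑ s ∈ Z0 T, mz s) ^ 2 := by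
        rw [sq, sum_mul_sum, mul_sum]
        refine sum_congr rfl fun s _ => ?_
        rw [mul_sum]
    _ ≤ 2 * Real.exp |v| * (C * T ^ 2) ^ 2 := by
        apply mul_le_mul_of_nonneg_left _ (by positivity)
        exact pow_le_pow_left₀ hN0 hN 2
    _ = 2 * C ^ 2 * T ^ 4 * Real.exp |v| := by ring

lemma Pb_maj (θ κ η : ℝ) (hθ : 0 < θ) (hθ' : θ ≤ 1 / 2) (hκ : 0 < κ) (hη : 0 < η) (hη1 : η ≤ 1) :
    ∃ K T0 : ℝ, 0 < K ∧ 10 ≤ T0 ∧ ∀ T : ℝ, T0 ≤ T → ∀ v : ℝ,
      Pb T (θ ^ 2) v ≤ (T / (2 * Real.pi)) * ((1 + η) * ((Real.log T) ^ 2 * gb (θ ^ 2) v) +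
        K * (Real.log T * Real.exp (2 * |v| - v ^ 2 / (2 * θ ^ 2))) + (1 + η) * |v|) + K * T +
        K * (Real.exp |v| * T ^ κ) + K * Real.exp (3 / 2 * |v| - 2 * Real.log T) := by
  have hb : 0 < θ ^ 2 := by positivity
  have hb1 : θ ^ 2 ≤ 1 := by nlinarith
  obtain ⟨K, T0, hK, hT0, hup⟩ := Pb_upper (θ ^ 2) κ 12 η hb hb1 hκ (by norm_num) hη hη1
  obtain ⟨C, hC, hcr⟩ := Pb_crude
  have hπ := Real.pi_pos
  refine ⟨K + C, T0, by positivity, hT0, fun T hT v => ?_⟩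
  have hT10 : 10 ≤ T := hT0.trans hT
  have hTpos : 0 < T := by linarith
  have hL : 0 < Real.log T := Real.log_pos (by linarith)
  have hTk : 0 < T ^ κ := Real.rpow_pos_of_pos hTpos _
  have hg := gb_pos (θ ^ 2) v hb
  have hv := abs_nonneg v
  have hTp : 0 ≤ T / (2 * Real.pi) := by positivity
  by_cases hvA : |v| ≤ 12 * Real.log T
  · have h1 := hup T hT |v| hv hvA
    have h2 : Pb T (θ ^ 2) |v| = Pb T (θ ^ 2) v := by
      rcases abs_cases v with h | h
      · rw [h.1]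
      · rw [h.1, Pb_neg]
    rw [h2] at h1
    refine h1.trans ?_
    have h3 : Real.log T ^ 2 * Real.exp (-|v| ^ 2 / θ ^ 2) / Real.sqrt (Real.pi * θ ^ 2) =
        Real.log T ^ 2 * gb (θ ^ 2) v := by
      unfold gb
      rw [sq_abs]
      ring
    rw [h3, sq_abs]
    have h4 : K * (Real.log T * Real.exp (2 * |v| - v ^ 2 / (2 * θ ^ 2))) ≤
        (K + C) * (Real.log T * Real.exp (2 * |v| - v ^ 2 / (2 * θ ^ 2))) :=
      mul_le_mul_of_nonneg_right (by linarith) (by positivity)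
    have h5 : (T / (2 * Real.pi)) * ((1 + η) * ((Real.log T) ^ 2 * gb (θ ^ 2) v) +
        K * (Real.log T * Real.exp (2 * |v| - v ^ 2 / (2 * θ ^ 2))) + (1 + η) * |v|) ≤
        (T / (2 * Real.pi)) * ((1 + η) * ((Real.log T) ^ 2 * gb (θ ^ 2) v) +
        (K + C) * (Real.log T * Real.exp (2 * |v| - v ^ 2 / (2 * θ ^ 2))) + (1 + η) * |v|) :=
      mul_le_mul_of_nonneg_left (by linarith) hTp
    have h6 : K * T ≤ (K + C) * T := mul_le_mul_of_nonneg_right (by linarith) hTpos.le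
    have h7 : K * (Real.exp |v| * T ^ κ) ≤ (K + C) * (Real.exp |v| * T ^ κ) :=
      mul_le_mul_of_nonneg_right (by linarith) (by positivity)
    have h8 : 0 ≤ (K + C) * Real.exp (3 / 2 * |v| - 2 * Real.log T) := by positivity
    linarith
  · push Not at hvA
    have h1 := hcr (θ ^ 2) T v hb hb1 (by linarith)
    refine h1.trans ?_
    have h2 : C * T ^ 4 * Real.exp |v| ≤ (K + C) * Real.exp (3 / 2 * |v| - 2 * Real.log T) := by
      have h3 : T ^ 4 * Real.exp |v| ≤ Real.exp (3 / 2 * |v| - 2 * Real.log T) := by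
        have h4 : T ^ 4 = Real.exp (4 * Real.log T) := by
          have : Real.exp (((4 : ℕ) : ℝ) * Real.log T) = (Real.exp (Real.log T)) ^ 4 :=
            Real.exp_nat_mul _ _
          rw [Real.exp_log hTpos] at this
          rw [← this]
          norm_num
        rw [h4, ← Real.exp_add]
        apply Real.exp_le_exp.2
        linarith
      calc C * T ^ 4 * Real.exp |v| = C * (T ^ 4 * Real.exp |v|) := by ring
        _ ≤ (K + C) * Real.exp (3 / 2 * |v| - 2 * Real.log T) :=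
            mul_le_mul (by linarith) h3 (by positivity) (by positivity)
    have h9 : 0 ≤ (T / (2 * Real.pi)) * ((1 + η) * ((Real.log T) ^ 2 * gb (θ ^ 2) v) +
        (K + C) * (Real.log T * Real.exp (2 * |v| - v ^ 2 / (2 * θ ^ 2))) + (1 + η) * |v|) := by
      positivity
    have h10 : 0 ≤ (K + C) * T := by positivity
    have h11 : 0 ≤ (K + C) * (Real.exp |v| * T ^ κ) := by positivity
    linarith

lemma g2_int (θ : ℝ) (hθ : 0 < θ) :
    Integrable (fun v : ℝ => Real.exp (4 * |v| - v ^ 2 / (2 * θ ^ 2))) := by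
  refine ((ig (1 / (4 * θ ^ 2)) (by positivity)).1.const_mul
    (Real.exp (16 * θ ^ 2))).mono' ?_ (Filter.Eventually.of_forall fun v => ?_)
  · refine Continuous.aestronglyMeasurable ?_
    fun_prop
  · rw [Real.norm_of_nonneg (Real.exp_pos _).le, ← Real.exp_add]
    apply Real.exp_le_exp.2
    have h := two_abs_le (8 * θ ^ 2) v (by positivity)
    have e : v ^ 2 / (2 * θ ^ 2) = 2 * (v ^ 2 / (8 * θ ^ 2)) + 1 / (4 * θ ^ 2) * v ^ 2 := by
      field_simp
      ring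
    rw [e]
    linarith

lemma int5 (f1 f2 f3 f4 f5 : ℝ → ℝ) (h1 : Integrable f1) (h2 : Integrable f2)
    (h3 : Integrable f3) (h4 : Integrable f4) (h5 : Integrable f5) :
    Integrable (fun a => f1 a + f2 a + f3 a + f4 a + f5 a) ∧
    ∫ a, (f1 a + f2 a + f3 a + f4 a + f5 a) =
      (∫ a, f1 a) + (∫ a, f2 a) + (∫ a, f3 a) + (∫ a, f4 a) + ∫ a, f5 a := by
  have i12 : Integrable (fun a => f1 a + f2 a) := h1.add h2
  have i123 : Integrable (fun a => f1 a + f2 a + f3 a) := i12.add h3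
  have i1234 : Integrable (fun a => f1 a + f2 a + f3 a + f4 a) := i123.add h4
  have i12345 : Integrable (fun a => f1 a + f2 a + f3 a + f4 a + f5 a) := i1234.add h5
  refine ⟨i12345, ?_⟩
  rw [integral_add i1234 h5, integral_add i123 h4, integral_add i12 h3, integral_add h1 h2]

/-- the integrated majorant -/
lemma Mint (θ T u L K κ η : ℝ) (hθ : 0 < θ) (hθ' : θ ≤ 1 / 2) (hK : 0 < K) (hu : 0 ≤ u)
    (hL : 0 ≤ L) (hT : 0 < T) (hη : 0 < η) (P : ℝ → ℝ)
    (hP : Integrable (fun a : ℝ => Real.exp (-2 * |a|) * P (u + a)))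
    (hPle : ∀ v : ℝ, P v ≤ (T / (2 * Real.pi)) * ((1 + η) * (L ^ 2 * gb (θ ^ 2) v) +
        K * (L * Real.exp (2 * |v| - v ^ 2 / (2 * θ ^ 2))) + (1 + η) * |v|) + K * T +
        K * (Real.exp |v| * T ^ κ) + K * Real.exp (3 / 2 * |v| - 2 * L)) :
    ∫ a : ℝ, Real.exp (-2 * |a|) * P (u + a) ≤
      (T / (2 * Real.pi)) * ((1 + η) * L ^ 2 * Real.exp (-2 * u)) * Real.exp (2 * θ) +
      (T / (2 * Real.pi)) * (K * L * Real.exp (-2 * u)) *
        (∫ v : ℝ, Real.exp (4 * |v| - v ^ 2 / (2 * θ ^ 2))) +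
      ((T / (2 * Real.pi)) * ((1 + η) * u) + K * T) +
      ((T / (2 * Real.pi)) * (1 + η) + K * T ^ κ * Real.exp u) *
        (∫ a : ℝ, Real.exp (-1 * |a|)) +
      K * Real.exp (3 / 2 * u - 2 * L) * ∫ a : ℝ, Real.exp (-(1 / 2) * |a|) := by
  have hπ := Real.pi_pos
  have hb : 0 < θ ^ 2 := by positivity
  have hTk : 0 < T ^ κ := Real.rpow_pos_of_pos hT _
  obtain ⟨i1, b1⟩ := cb_le θ hθ hθ'
  have i2 := g2_int θ hθ
  obtain ⟨i3, b3⟩ := iea2
  have i4 := iea 1 one_pos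
  have i5 := iea (1 / 2) (by norm_num)
  obtain ⟨c1, hc1⟩ : ∃ c : ℝ, c = (T / (2 * Real.pi)) * ((1 + η) * L ^ 2 * Real.exp (-2 * u)) :=
    ⟨_, rfl⟩
  obtain ⟨c2, hc2⟩ : ∃ c : ℝ, c = (T / (2 * Real.pi)) * (K * L * Real.exp (-2 * u)) := ⟨_, rfl⟩
  obtain ⟨c3, hc3⟩ : ∃ c : ℝ, c = (T / (2 * Real.pi)) * ((1 + η) * u) + K * T := ⟨_, rfl⟩
  obtain ⟨c4, hc4⟩ : ∃ c : ℝ, c = (T / (2 * Real.pi)) * (1 + η) + K * T ^ κ * Real.exp u :=
    ⟨_, rfl⟩
  obtain ⟨c5, hc5⟩ : ∃ c : ℝ, c = K * Real.exp (3 / 2 * u - 2 * L) := ⟨_, rfl⟩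
  have hc10 : 0 ≤ c1 := by rw [hc1]; positivity
  have j1 : Integrable (fun a : ℝ => c1 * (gb (θ ^ 2) (u + a) * Real.exp (2 * |u + a|))) :=
    (i1.comp_add_left u).const_mul _
  have j2 : Integrable (fun a : ℝ => c2 * Real.exp (4 * |u + a| - (u + a) ^ 2 / (2 * θ ^ 2))) :=
    (i2.comp_add_left u).const_mul _
  have j3 : Integrable (fun a : ℝ => c3 * Real.exp (-2 * |a|)) := i3.const_mul _
  have j4 : Integrable (fun a : ℝ => c4 * Real.exp (-1 * |a|)) := i4.const_mul _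
  have j5 : Integrable (fun a : ℝ => c5 * Real.exp (-(1 / 2) * |a|)) := i5.const_mul _
  have hpt : ∀ a : ℝ, Real.exp (-2 * |a|) * P (u + a) ≤
      (((c1 * (gb (θ ^ 2) (u + a) * Real.exp (2 * |u + a|)) +
      c2 * Real.exp (4 * |u + a| - (u + a) ^ 2 / (2 * θ ^ 2))) +
      c3 * Real.exp (-2 * |a|)) + c4 * Real.exp (-1 * |a|)) + c5 * Real.exp (-(1 / 2) * |a|) := by
    intro a
    have he := Real.exp_pos (-2 * |a|)
    have hg := gb_pos (θ ^ 2) (u + a) hb
    refine (mul_le_mul_of_nonneg_left (hPle (u + a)) he.le).trans ?_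
    have hua : u ≤ |u + a| + |a| := by
      have h1 : |u + a - a| ≤ |u + a| + |a| := abs_sub _ _
      rw [add_sub_cancel_right, abs_of_nonneg hu] at h1
      exact h1
    have hua2 : |u + a| ≤ u + |a| := by
      have h1 := abs_add_le u a
      rw [abs_of_nonneg hu] at h1
      exact h1
    have e1 : Real.exp (-2 * |a|) ≤ Real.exp (-2 * u) * Real.exp (2 * |u + a|) := by
      rw [← Real.exp_add]
      apply Real.exp_le_exp.2
      linarith
    have t1 : Real.exp (-2 * |a|) * ((T / (2 * Real.pi)) *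
        ((1 + η) * (L ^ 2 * gb (θ ^ 2) (u + a)))) ≤
        c1 * (gb (θ ^ 2) (u + a) * Real.exp (2 * |u + a|)) := by
      calc Real.exp (-2 * |a|) * ((T / (2 * Real.pi)) *
        ((1 + η) * (L ^ 2 * gb (θ ^ 2) (u + a)))) ≤
          (Real.exp (-2 * u) * Real.exp (2 * |u + a|)) * ((T / (2 * Real.pi)) *
            ((1 + η) * (L ^ 2 * gb (θ ^ 2) (u + a)))) :=
            mul_le_mul_of_nonneg_right e1 (by positivity)
        _ = c1 * (gb (θ ^ 2) (u + a) * Real.exp (2 * |u + a|)) := by rw [hc1]; ring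
    have t2 : Real.exp (-2 * |a|) * ((T / (2 * Real.pi)) * (K * (L * Real.exp (2 * |u + a| -
        (u + a) ^ 2 / (2 * θ ^ 2))))) ≤
        c2 * Real.exp (4 * |u + a| - (u + a) ^ 2 / (2 * θ ^ 2)) := by
      have e2 : Real.exp (4 * |u + a| - (u + a) ^ 2 / (2 * θ ^ 2)) = Real.exp (2 * |u + a|) *
          Real.exp (2 * |u + a| - (u + a) ^ 2 / (2 * θ ^ 2)) := by
        rw [← Real.exp_add]
        congr 1
        ring
      calc Real.exp (-2 * |a|) * ((T / (2 * Real.pi)) * (K * (L * Real.exp (2 * |u + a| -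
        (u + a) ^ 2 / (2 * θ ^ 2))))) ≤
          (Real.exp (-2 * u) * Real.exp (2 * |u + a|)) * ((T / (2 * Real.pi)) * (K * (L *
            Real.exp (2 * |u + a| - (u + a) ^ 2 / (2 * θ ^ 2))))) :=
            mul_le_mul_of_nonneg_right e1 (by positivity)
        _ = c2 * Real.exp (4 * |u + a| - (u + a) ^ 2 / (2 * θ ^ 2)) := by rw [hc2, e2]; ring
    have t3 : Real.exp (-2 * |a|) * |u + a| ≤ u * Real.exp (-2 * |a|) + Real.exp (-1 * |a|) := by
      have h1 : |a| ≤ Real.exp |a| := by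
        have := Real.add_one_le_exp |a|
        linarith
      have h2 : Real.exp (-2 * |a|) * Real.exp |a| = Real.exp (-1 * |a|) := by
        rw [← Real.exp_add]
        congr 1
        ring
      calc Real.exp (-2 * |a|) * |u + a| ≤ Real.exp (-2 * |a|) * (u + Real.exp |a|) :=
            mul_le_mul_of_nonneg_left (by linarith) he.le
        _ = u * Real.exp (-2 * |a|) + Real.exp (-1 * |a|) := by rw [mul_add, h2]; ring
    have t5 : Real.exp (-2 * |a|) * Real.exp |u + a| ≤ Real.exp u * Real.exp (-1 * |a|) := by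
      rw [← Real.exp_add, ← Real.exp_add]
      apply Real.exp_le_exp.2
      linarith
    have t6 : Real.exp (-2 * |a|) * Real.exp (3 / 2 * |u + a| - 2 * L) ≤
        Real.exp (3 / 2 * u - 2 * L) * Real.exp (-(1 / 2) * |a|) := by
      rw [← Real.exp_add, ← Real.exp_add]
      apply Real.exp_le_exp.2
      linarith
    have t3' := mul_le_mul_of_nonneg_left t3 (by positivity :
      0 ≤ (T / (2 * Real.pi)) * (1 + η))
    have t5' := mul_le_mul_of_nonneg_left t5 (by positivity : 0 ≤ K * T ^ κ)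
    have t6' := mul_le_mul_of_nonneg_left t6 hK.le
    have efin : Real.exp (-2 * |a|) * ((T / (2 * Real.pi)) * ((1 + η) * (L ^ 2 *
        gb (θ ^ 2) (u + a)) + K * (L * Real.exp (2 * |u + a| - (u + a) ^ 2 / (2 * θ ^ 2))) +
        (1 + η) * |u + a|) + K * T + K * (Real.exp |u + a| * T ^ κ) +
        K * Real.exp (3 / 2 * |u + a| - 2 * L)) =
        Real.exp (-2 * |a|) * ((T / (2 * Real.pi)) *
          ((1 + η) * (L ^ 2 * gb (θ ^ 2) (u + a)))) +
        Real.exp (-2 * |a|) * ((T / (2 * Real.pi)) * (K * (L * Real.exp (2 * |u + a| -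
          (u + a) ^ 2 / (2 * θ ^ 2))))) +
        (T / (2 * Real.pi)) * (1 + η) * (Real.exp (-2 * |a|) * |u + a|) +
        K * T * Real.exp (-2 * |a|) +
        K * T ^ κ * (Real.exp (-2 * |a|) * Real.exp |u + a|) +
        K * (Real.exp (-2 * |a|) * Real.exp (3 / 2 * |u + a| - 2 * L)) := by ring
    rw [efin]
    have e3 : c3 * Real.exp (-2 * |a|) = (T / (2 * Real.pi)) * (1 + η) *
        (u * Real.exp (-2 * |a|)) + K * T * Real.exp (-2 * |a|) := by rw [hc3]; ring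
    have e4 : c4 * Real.exp (-1 * |a|) = (T / (2 * Real.pi)) * (1 + η) *
        Real.exp (-1 * |a|) + K * T ^ κ * (Real.exp u * Real.exp (-1 * |a|)) := by
      rw [hc4]; ring
    have e5 : c5 * Real.exp (-(1 / 2) * |a|) = K * (Real.exp (3 / 2 * u - 2 * L) *
        Real.exp (-(1 / 2) * |a|)) := by rw [hc5]; ring
    rw [e3, e4, e5]
    rw [mul_add] at t3'
    linarith
  obtain ⟨jj, hsum⟩ := int5 _ _ _ _ _ j1 j2 j3 j4 j5
  refine (integral_mono hP jj hpt).trans ?_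
  rw [hsum]
  simp only [integral_const_mul]
  rw [b3, mul_one, integral_add_left_eq_self (fun v : ℝ => gb (θ ^ 2) v * Real.exp (2 * |v|)) u,
    integral_add_left_eq_self (fun v : ℝ => Real.exp (4 * |v| - v ^ 2 / (2 * θ ^ 2))) u]
  have := mul_le_mul_of_nonneg_left b1 hc10
  rw [← hc1, ← hc2, ← hc3, ← hc4, ← hc5]
  linarith

end H479.U
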