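import Pool.Agent.H479.U.VV

open Finset MeasureTheory Complex

namespace H479.U

/-- `Λ` with complex values -/
noncomputable def La (n : ℕ) : ℂ := (ArithmeticFunction.vonMangoldt n : ℂ)

lemma La_norm (n : ℕ) : ‖La n‖ ≤ ArithmeticFunction.vonMangoldt n := by
  unfold La
  rw [Complex.norm_real, Real.norm_of_nonneg ArithmeticFunction.vonMangoldt_nonneg]

/-- the terms of `PPb` -/
noncomputable def ptb (b u t : ℝ) (n : ℕ) : ℂ :=
  La n * (Real.sqrt n : ℂ)⁻¹ * cexp (I * t * (u - Real.log n)) *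
    Real.exp (-(u - Real.log n) ^ 2 / (2 * b))

lemma PPb_eq (b u t : ℝ) : H343.PPb b La u t = ∑' n, ptb b u t n := rfl

lemma norm_ptb_le (b u t : ℝ) (hb : 0 < b) (hb1 : b ≤ 1) (n : ℕ) :
    ‖ptb b u t n‖ ≤ H370.pt La u n := by
  unfold ptb H370.pt
  rw [norm_mul, norm_mul, norm_mul, norm_inv, Complex.norm_real, Complex.norm_real,
    Real.norm_of_nonneg (Real.sqrt_nonneg _), Real.norm_of_nonneg (Real.exp_pos _).le]
  have : ‖cexp (I * t * (u - Real.log n))‖ = 1 := by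
    rw [show (I * t * (u - Real.log n) : ℂ) = ((t * (u - Real.log n) : ℝ) : ℂ) * I by
      push_cast; ring, Complex.norm_exp_ofReal_mul_I]
  rw [this, mul_one]
  apply mul_le_mul_of_nonneg_left _ (by positivity)
  apply Real.exp_le_exp.2
  rw [div_le_div_iff₀ (by positivity) (by norm_num)]
  nlinarith [sq_nonneg (u - Real.log n)]

lemma ptb_summable (b u t : ℝ) (hb : 0 < b) (hb1 : b ≤ 1) : Summable (ptb b u t) :=
  Summable.of_norm_bounded (H370.pt_summable La_norm u) (norm_ptb_le b u t hb hb1)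

lemma PPb_cont (b u : ℝ) (hb : 0 < b) (hb1 : b ≤ 1) :
    Continuous (fun t => H343.PPb b La u t) := by
  simp_rw [PPb_eq]
  refine continuous_tsum (u := H370.pt La u) (fun n => ?_) (H370.pt_summable La_norm u)
    (fun n t => norm_ptb_le b u t hb hb1 n)
  unfold ptb; fun_prop

/-- `∑ 1/n²` -/
noncomputable def S2 : ℝ := ∑' n : ℕ, 1 / (n : ℝ) ^ 2

lemma S2_nonneg : 0 ≤ S2 := tsum_nonneg fun n => by positivity

lemma PPb_bound (b u t : ℝ) (hb : 0 < b) (hb1 : b ≤ 1) : ‖H343.PPb b La u t‖ ≤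
    2 * S2 * Real.exp (2 + 2 * u) := by
  rw [PPb_eq]
  have h1 := H370.pt_summable La_norm u
  have h2 := ptb_summable b u t hb hb1
  calc ‖∑' n, ptb b u t n‖ ≤ ∑' n, ‖ptb b u t n‖ := norm_tsum_le_tsum_norm h2.norm
    _ ≤ ∑' n, H370.pt La u n := h2.norm.tsum_le_tsum (norm_ptb_le b u t hb hb1) h1
    _ ≤ ∑' n : ℕ, 2 * Real.exp (2 + 2 * u) * (1 / (n : ℝ) ^ 2) :=
        h1.tsum_le_tsum (H370.pt_le La_norm u) (H370.sum_inv_sq.mul_left _)
    _ = _ := by rw [tsum_mul_left]; unfold S2; ring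

/-- truncation -/
lemma PPb_trunc (b u t D : ℝ) (hb : 0 < b) (hb1 : b ≤ 1) (X : ℕ) (hD : 0 ≤ D)
    (hX : u + D ≤ Real.log (X + 1)) :
    ‖H343.PPb b La u t - ∑ n ∈ Icc 1 X, ptb b u t n‖ ≤
      2 * S2 * (Real.exp (4 + 2 * u) * Real.exp (-D ^ 2 / 4)) := by
  have h1 := ptb_summable b u t hb hb1
  have h2 := h1.sum_add_tsum_nat_add (X + 1)
  have h3 : ∑ n ∈ range (X + 1), ptb b u t n = ∑ n ∈ Icc 1 X, ptb b u t n := by
    rw [range_eq_Ico, sum_eq_sum_Ico_succ_bot (by omega)]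
    have h0 : ptb b u t 0 = 0 := by
      unfold ptb La; simp
    rw [h0, zero_add]
    rfl
  rw [PPb_eq, ← h2, h3, add_sub_cancel_left]
  have hs1 : Summable (fun n => H370.pt La u (n + (X + 1))) :=
    (summable_nat_add_iff (X + 1)).mpr (H370.pt_summable La_norm u)
  have hs2 : Summable (fun n : ℕ => 1 / ((n + (X + 1) : ℕ) : ℝ) ^ 2) :=
    (summable_nat_add_iff (f := fun n : ℕ => 1 / (n : ℝ) ^ 2) (X + 1)).mpr H370.sum_inv_sq
  have hs3 : Summable (fun n => ‖ptb b u t (n + (X + 1))‖) :=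
    (summable_nat_add_iff (f := fun n => ‖ptb b u t n‖) (X + 1)).mpr h1.norm
  calc ‖∑' n, ptb b u t (n + (X + 1))‖ ≤ ∑' n, ‖ptb b u t (n + (X + 1))‖ :=
        norm_tsum_le_tsum_norm hs3
    _ ≤ ∑' n, H370.pt La u (n + (X + 1)) :=
        hs3.tsum_le_tsum (fun n => norm_ptb_le b u t hb hb1 _) hs1
    _ ≤ ∑' n : ℕ, 2 * (Real.exp (4 + 2 * u) * Real.exp (-D ^ 2 / 4)) *
        (1 / ((n + (X + 1) : ℕ) : ℝ) ^ 2) := by
        refine hs1.tsum_le_tsum (fun n => H370.pt_le_tail La_norm u D _ hD (hX.trans ?_))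
          (hs2.mul_left _)
        apply Real.log_le_log (by positivity)
        push_cast
        have : (0 : ℝ) ≤ n := by positivity
        linarith
    _ = 2 * (Real.exp (4 + 2 * u) * Real.exp (-D ^ 2 / 4)) *
        ∑' n : ℕ, (1 / ((n + (X + 1) : ℕ) : ℝ) ^ 2) := tsum_mul_left
    _ ≤ 2 * (Real.exp (4 + 2 * u) * Real.exp (-D ^ 2 / 4)) * ∑' n : ℕ, 1 / (n : ℝ) ^ 2 := by
        have h5 := H370.sum_inv_sq.sum_add_tsum_nat_add (X + 1)
        have h6 : 0 ≤ ∑ i ∈ range (X + 1), 1 / (i : ℝ) ^ 2 :=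
          sum_nonneg fun _ _ => by positivity
        have h7 : ∑' n : ℕ, (1 / ((n + (X + 1) : ℕ) : ℝ) ^ 2) ≤ ∑' n : ℕ, 1 / (n : ℝ) ^ 2 := by
          linarith
        gcongr
    _ = _ := by unfold S2; ring

/-- mean square of the prime side -/
theorem PPb_ms (b u D T1 T2 η : ℝ) (hb : 0 < b) (hb1 : b ≤ 1) (X : ℕ) (hη : 0 < η)
    (hT : T1 ≤ T2) (hD : 0 ≤ D) (hX : u + D ≤ Real.log (X + 1))
    (hsum : Summable (fun n : ℕ => wn n * Real.exp (-(u - Real.log n) ^ 2 / b))) :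
    ∫ t in T1..T2, ‖H343.PPb b La u t‖ ^ 2 ≤
      (1 + η) * ((T2 - T1 + 8 * X * (1 + Real.log X)) * VVb b u) +
      (1 + 1 / η) * ((T2 - T1) * (2 * S2 *
        (Real.exp (4 + 2 * u) * Real.exp (-D ^ 2 / 4))) ^ 2) := by
  set E := 2 * S2 * (Real.exp (4 + 2 * u) * Real.exp (-D ^ 2 / 4)) with hE
  set c : ℕ → ℂ := fun n => La n * (Real.sqrt n : ℂ)⁻¹ *
    Real.exp (-(u - Real.log n) ^ 2 / (2 * b)) with hc
  have h1 : ∀ t : ℝ, ‖∑ n ∈ Icc 1 X, ptb b u t n‖ =
      ‖∑ n ∈ Icc 1 X, c n * (n : ℂ) ^ (-(t : ℂ) * I)‖ := by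
    intro t
    have h2 : ∑ n ∈ Icc 1 X, ptb b u t n = cexp (((t * u : ℝ) : ℂ) * I) *
        ∑ n ∈ Icc 1 X, c n * (n : ℂ) ^ (-(t : ℂ) * I) := by
      rw [mul_sum]
      refine sum_congr rfl fun n hn => ?_
      have hn1 : 1 ≤ n := (mem_Icc.mp hn).1
      have hn0 : (n : ℂ) ≠ 0 := by exact_mod_cast (by omega : n ≠ 0)
      unfold ptb
      simp only [hc]
      have h3 : cexp (I * t * (u - Real.log n)) = cexp (((t * u : ℝ) : ℂ) * I) *
          (n : ℂ) ^ (-(t : ℂ) * I) := by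
        rw [Complex.cpow_def_of_ne_zero hn0, ← Complex.exp_add, ← Complex.natCast_log]
        congr 1
        push_cast
        ring
      rw [h3]; ring
    rw [h2, norm_mul, Complex.norm_exp_ofReal_mul_I, one_mul]
  have h2 := H370.mean_value c X T1 T2 hT
  have h3 : ∑ n ∈ Icc 1 X, ‖c n‖ ^ 2 ≤ VVb b u := by
    have h4 : ∀ n ∈ Icc 1 X, ‖c n‖ ^ 2 ≤ wn n * Real.exp (-(u - Real.log n) ^ 2 / b) := by
      intro n hn
      have hn1 : 1 ≤ n := (mem_Icc.mp hn).1
      have hn0 : (0 : ℝ) < n := by exact_mod_cast hn1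
      simp only [hc]
      unfold wn
      rw [norm_mul, norm_mul, norm_inv, Complex.norm_real, Complex.norm_real,
        Real.norm_of_nonneg (Real.sqrt_nonneg _), Real.norm_of_nonneg (Real.exp_pos _).le,
        mul_pow, mul_pow, inv_pow, Real.sq_sqrt hn0.le, ← Real.exp_nat_mul, ← div_eq_mul_inv]
      have e1 : ((2 : ℕ) : ℝ) * (-(u - Real.log n) ^ 2 / (2 * b)) = -(u - Real.log n) ^ 2 / b := by
        push_cast; field_simp
      rw [e1]
      have := La_norm n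
      gcongr
    unfold VVb
    exact (sum_le_sum h4).trans
      (hsum.sum_le_tsum _ fun n _ => mul_nonneg (wn_nonneg n) (Real.exp_pos _).le)
  have hPc : Continuous (fun t => ∑ n ∈ Icc 1 X, ptb b u t n) := by
    unfold ptb; fun_prop
  have hPPc := PPb_cont b u hb hb1
  calc ∫ t in T1..T2, ‖H343.PPb b La u t‖ ^ 2 ≤
      ∫ t in T1..T2, ((1 + η) * ‖∑ n ∈ Icc 1 X, c n * (n : ℂ) ^ (-(t : ℂ) * I)‖ ^ 2 +
        (1 + 1 / η) * E ^ 2) := by
        refine intervalIntegral.integral_mono_on hT ?_ ?_ fun t _ => ?_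
        · exact (hPPc.norm.pow 2).intervalIntegrable _ _
        · simp_rw [← h1]
          exact ((continuous_const.mul (hPc.norm.pow 2)).add continuous_const).intervalIntegrable _ _
        · rw [← h1]
          have h5 := H370.sq_young (x := ∑ n ∈ Icc 1 X, ptb b u t n)
            (y := H343.PPb b La u t - ∑ n ∈ Icc 1 X, ptb b u t n) hη
          rw [add_sub_cancel] at h5
          refine h5.trans ?_
          have h6 := PPb_trunc b u t D hb hb1 X hD hX
          gcongr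
    _ = (1 + η) * (∫ t in T1..T2, ‖∑ n ∈ Icc 1 X, c n * (n : ℂ) ^ (-(t : ℂ) * I)‖ ^ 2) +
        (1 + 1 / η) * ((T2 - T1) * E ^ 2) := by
        rw [intervalIntegral.integral_add, intervalIntegral.integral_const_mul,
          intervalIntegral.integral_const, smul_eq_mul]
        · ring
        · simp_rw [← h1]
          exact (continuous_const.mul (hPc.norm.pow 2)).intervalIntegrable _ _
        · exact continuous_const.intervalIntegrable _ _
    _ ≤ _ := by
        have hcoef : 0 ≤ T2 - T1 + 8 * X * (1 + Real.log X) := by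
          have : 0 ≤ Real.log X := Real.log_natCast_nonneg X
          have : 0 ≤ T2 - T1 := by linarith
          positivity
        gcongr
        exact h2.trans (by gcongr)

end H479.U
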