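import Pool.Agent.H479.U.Win
import Pool.Agent.H479.U.Cnt

open Finset MeasureTheory Complex
open scoped NNReal ComplexConjugate

namespace H479.U

open H343.ZSide H370

/-- number of simple zeros on the critical line, `0 < γ ≤ T` -/
noncomputable def Nsc (T : ℝ) : ℝ := by
  classical
  exact (((Z0 T).filter (fun s => s.re = 1 / 2 ∧ mult riemannZeta s = 1)).card : ℝ)

/-- number of distinct zeros, `0 < γ ≤ T` -/
noncomputable def Ndi (T : ℝ) : ℝ := ((Z0 T).card : ℝ)

variable {w : ℝ → ℝ}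

lemma mult_pos0 {T : ℝ} {s : ℂ} (hs : s ∈ Z0 T) : 1 ≤ mult riemannZeta s :=
  Loc.mult_pos' good_zeta (Z0_im hs) (mem_Z0.1 hs).2.2.2.2

lemma mult_refl0 {T : ℝ} {s : ℂ} (hs : s ∈ Z0 T) :
    mult riemannZeta (1 - conj s) = mult riemannZeta s := by
  have h := mz_refl (Z0_im hs)
  unfold mz at h
  exact_mod_cast h

theorem tr1 (hw : Win w) (Λ : ℝ) (r : ℝ≥0) (T : ℝ) : (2 * N0 T - Nsc T ≤
    (∑ s ∈ Z0 T, ∑ s' ∈ Z0 T, ((mz s * mz s' : ℝ) : ℂ) *
      (phw w Λ r (zz s - zz s')) ^ 2).re) ∧ (3 * N0 T - 2 * Ndi T ≤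
    (∑ s ∈ Z0 T, ∑ s' ∈ Z0 T, ((mz s * mz s' : ℝ) : ℂ) *
      (phw w Λ r (zz s - zz s')) ^ 2).re) := by
  classical
  obtain ⟨E, iE1, iE2, k, hk⟩ := gramw hw Λ r
  set W := Z0 T with hW
  set Z : Finset ℂ := W.image zz with hZ
  set m : ℂ → ℕ := fun z => mult riemannZeta (1 / 2 + I * z) with hm
  have hback : ∀ s : ℂ, (1 / 2 + I * zz s) = s := by
    intro s
    have := zz_spec s
    linear_combination -this
  have hmz : ∀ s : ℂ, m (zz s) = mult riemannZeta s := by
    intro s; simp only [hm]; rw [hback]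
  have hf1 : Z.filter (fun z => z.im = 0 ∧ m z = 1) =
      (W.filter (fun s => s.re = 1 / 2 ∧ mult riemannZeta s = 1)).image zz := by
    ext z
    simp only [Finset.mem_filter, Finset.mem_image, hZ]
    constructor
    · rintro ⟨⟨s, hs, rfl⟩, h1, h2⟩
      rw [hmz] at h2
      rw [zz_im] at h1
      exact ⟨s, ⟨hs, by linarith, h2⟩, rfl⟩
    · rintro ⟨s, ⟨hs, h1, h2⟩, rfl⟩
      refine ⟨⟨s, hs, rfl⟩, ?_, ?_⟩
      · rw [zz_im, h1]; ring
      · rw [hmz, h2]
  have hcard1 : ((Z.filter (fun z => z.im = 0 ∧ m z = 1)).card : ℝ) = Nsc T := by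
    unfold Nsc
    rw [hf1, Finset.card_image_of_injective _ (fun s s' h => zz_inj h)]
  have hsumZ : ∀ {M : Type} [AddCommMonoid M] (f : ℂ → M),
      ∑ z ∈ Z, f z = ∑ s ∈ W, f (zz s) := by
    intro M _ f
    rw [hZ, Finset.sum_image (fun s _ s' _ h => zz_inj h)]
  have hN : ∑ z ∈ Z, (m z : ℝ) = N0 T := by
    unfold N0 mz
    rw [hsumZ]
    simp only [hmz]
    rfl
  have hZc : ∀ z ∈ Z, conj z ∈ Z := by
    intro z hz
    rw [hZ, Finset.mem_image] at hz
    obtain ⟨s, hs, rfl⟩ := hz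
    rw [← zz_refl]
    exact Finset.mem_image_of_mem _ (Z0_refl hs)
  have hmp : ∀ z ∈ Z, 1 ≤ m z := by
    intro z hz
    rw [hZ, Finset.mem_image] at hz
    obtain ⟨s, hs, rfl⟩ := hz
    rw [hmz]
    exact mult_pos0 hs
  have hT := trace_ineq (phw w Λ r) k hk (phw_even hw Λ r) (phw_zero hw Λ r) Z hZc m hmp ?_
    (fun _ _ => 0) ?_
  · -- main
    simp only [hcard1, hN] at hT
    have hB : (Z.filter (fun z => z.im < 0)).card = (Z.filter (fun z => 0 < z.im)).card := by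
      refine Finset.card_bij' (fun z _ => conj z) (fun z _ => conj z) ?_ ?_ ?_ ?_
      · intro z hz
        rw [Finset.mem_filter] at hz ⊢
        exact ⟨hZc z hz.1, by rw [Complex.conj_im]; linarith [hz.2]⟩
      · intro z hz
        rw [Finset.mem_filter] at hz ⊢
        exact ⟨hZc z hz.1, by rw [Complex.conj_im]; linarith [hz.2]⟩
      · intro z _; simp
      · intro z _; simp
    obtain ⟨A, hA⟩ : ∃ A : ℝ, A = ((Z.filter (fun z => z.im = 0 ∧ 2 ≤ m z)).card : ℝ) := ⟨_, rfl⟩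
    obtain ⟨B, hBdef⟩ : ∃ A : ℝ, A = ((Z.filter (fun z => 0 < z.im)).card : ℝ) := ⟨_, rfl⟩
    have hb1 : ∑ z ∈ Z, (if z.im = 0 ∧ m z = 1 then (1 : ℝ) else 0) = Nsc T := by
      rw [Finset.sum_boole, hcard1]
    have hb2 : ∑ z ∈ Z, (if z.im = 0 ∧ 2 ≤ m z then (1 : ℝ) else 0) = A := by
      rw [Finset.sum_boole, hA]
    have hb3 : ∑ z ∈ Z, (if 0 < z.im then (1 : ℝ) else 0) = B := by
      rw [Finset.sum_boole, hBdef]
    have hb4 : ∑ z ∈ Z, (if z.im < 0 then (1 : ℝ) else 0) = B := by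
      rw [Finset.sum_boole, hB, hBdef]
    have hNN : Nsc T + 2 * A + 2 * B ≤ N0 T := by
      have : ∑ z ∈ Z, ((if z.im = 0 ∧ m z = 1 then (1 : ℝ) else 0) +
          2 * (if z.im = 0 ∧ 2 ≤ m z then (1 : ℝ) else 0) + (if 0 < z.im then (1 : ℝ) else 0) +
          (if z.im < 0 then (1 : ℝ) else 0)) ≤ ∑ z ∈ Z, (m z : ℝ) := by
        refine Finset.sum_le_sum fun z hz => ?_
        have h1 : (1 : ℝ) ≤ m z := by exact_mod_cast hmp z hz
        rcases lt_trichotomy z.im 0 with h | h | h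
        · have h' : ¬ (0 < z.im) := by linarith
          simp [h, h.ne, h', h1]
        · by_cases h2 : m z = 1
          · simp [h, h2]
          · have h3 : 2 ≤ m z := by have := hmp z hz; omega
            have h4 : (2 : ℝ) ≤ m z := by exact_mod_cast h3
            simp [h, h2, h3, h4]
        · have h' : ¬ (z.im < 0) := by linarith
          simp [h, h.ne', h', h1]
      rw [Finset.sum_add_distrib, Finset.sum_add_distrib, Finset.sum_add_distrib,
        ← Finset.mul_sum, hb1, hb2, hb3, hb4, hN] at this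
      linarith
    have hND : Nsc T + A + 2 * B ≤ Ndi T := by
      have hcz : Ndi T = ∑ z ∈ Z, (1 : ℝ) := by
        rw [hsumZ]; simp [Ndi, hW]
      rw [hcz, ← hb1, ← hb2]
      have e : 2 * B = B + B := by ring
      rw [e]
      nth_rewrite 1 [← hb3]
      rw [← hb4, ← Finset.sum_add_distrib, ← Finset.sum_add_distrib, ← Finset.sum_add_distrib]
      refine Finset.sum_le_sum fun z hz => ?_
      rcases lt_trichotomy z.im 0 with h | h | h
      · have h' : ¬ (0 < z.im) := by linarith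
        simp [h, h.ne, h']
      · by_cases h2 : m z = 1
        · simp [h, h2]
        · have h3 : 2 ≤ m z := by have := hmp z hz; omega
          simp [h, h2, h3]
      · have h' : ¬ (z.im < 0) := by linarith
        simp [h, h.ne', h']
    have hQ : (∑ z ∈ Z, ∑ z' ∈ Z, (m z : ℂ) * (m z' : ℂ) * (phw w Λ r (z - z')) ^ 2).re
        = (∑ s ∈ W, ∑ s' ∈ W, ((mz s * mz s' : ℝ) : ℂ) *
      (phw w Λ r (zz s - zz s')) ^ 2).re := by
      rw [hsumZ]
      simp only [hsumZ, hmz]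
      congr 1
      refine sum_congr rfl fun s _ => sum_congr rfl fun s' _ => ?_
      unfold mz
      push_cast
      ring
    rw [hQ, ← hA, ← hBdef] at hT
    have hY0 : (2 * ∑ x ∈ Z.filter (fun z => z.im = 0 ∧ m z = 1),
            ∑ y ∈ Z.filter (fun z => z.im = 0 ∧ m z = 1),
              (0 : ℝ) * ((phw w Λ r (x - y)).re - if x = y then 1 else 0)
          - ∑ x ∈ Z.filter (fun z => z.im = 0 ∧ m z = 1),
            ∑ y ∈ Z.filter (fun z => z.im = 0 ∧ m z = 1), (0 : ℝ) ^ 2) = 0 := by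
      simp
    rw [hY0] at hT
    have hB0 : 0 ≤ B := by rw [hBdef]; positivity
    constructor
    · linarith
    · linarith
  · intro z hz
    rw [hZ, Finset.mem_image] at hz
    obtain ⟨s, hs, rfl⟩ := hz
    rw [← zz_refl, hmz, hmz, mult_refl0 hs]
  · intro v
    have h0 : ∑ x ∈ Z.filter (fun z => z.im = 0 ∧ m z = 1),
      ∑ y ∈ Z.filter (fun z => z.im = 0 ∧ m z = 1), (0 : ℝ) * ((starRingEnd ℂ (v x)) * v y).re = 0 := by
      simp
    rw [h0]
    exact sum_nonneg fun _ _ => by positivity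

end H479.U
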