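import Pool.Agent.H479.U.Tr

open Finset MeasureTheory Complex
open scoped NNReal ComplexConjugate

namespace H479.U

open H343.ZSide H370

variable {w : ℝ → ℝ}

lemma kW_int (z : ℂ) (h1 : -1 < z.re) (h2 : z.re < 1) :
    IntegrableOn (fun r : ℝ => ((4 * Real.exp (-4 * r) : ℝ) : ℂ) * cexp (r * z ^ 2))
      (Set.Ioi 0) ∧
    ∫ r in Set.Ioi (0 : ℝ), ((4 * Real.exp (-4 * r) : ℝ) : ℂ) * cexp (r * z ^ 2) =
      H343.kW z := by
  have hre : (z ^ 2 - 4).re < 0 := by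
    rw [Complex.sub_re, sq, Complex.mul_re]
    have : z.re * z.re < 1 := by nlinarith
    have h3 : (4 : ℂ).re = 4 := by norm_num
    rw [h3]
    nlinarith [mul_self_nonneg z.im]
  have e : (fun r : ℝ => ((4 * Real.exp (-4 * r) : ℝ) : ℂ) * cexp (r * z ^ 2)) =
      fun r : ℝ => 4 * cexp ((z ^ 2 - 4) * r) := by
    funext r
    push_cast
    rw [mul_assoc, ← Complex.exp_add]
    congr 2
    ring
  rw [e]
  refine ⟨(integrableOn_exp_mul_complex_Ioi hre 0).const_mul 4, ?_⟩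
  rw [integral_const_mul, integral_exp_mul_complex_Ioi hre 0]
  have hne : z ^ 2 - 4 ≠ 0 := by
    intro h
    rw [h] at hre
    simp at hre
  have hne2 : 4 - z ^ 2 ≠ 0 := by
    intro h
    apply hne
    linear_combination -h
  unfold H343.kW
  simp only [Complex.ofReal_zero, mul_zero, Complex.exp_zero]
  field_simp
  ring

lemma diff_re {T : ℝ} {s s' : ℂ} (hs : s ∈ Z0 T) (hs' : s' ∈ Z0 T) :
    -1 < (s - s').re ∧ (s - s').re < 1 := by
  have h1 := mem_Z0.1 hs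
  have h2 := mem_Z0.1 hs'
  rw [Complex.sub_re]
  constructor <;> linarith [h1.1, h1.2.1, h2.1, h2.2.1]

lemma zz_sub (s s' : ℂ) : zz s - zz s' = -I * (s - s') := by
  have h1 := zz_spec s
  have h2 := zz_spec s'
  have : I * (zz s - zz s') = s - s' := by
    rw [mul_sub, ← h1, ← h2]
    ring
  rw [← this, ← mul_assoc]
  have : -I * I = 1 := by rw [neg_mul, Complex.I_mul_I]; ring
  rw [this, one_mul]

/-- the kernel -/
noncomputable def Kw (w : ℝ → ℝ) (Λ : ℝ) (z : ℂ) : ℂ :=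
  ∫ a : ℝ, (WW w a : ℂ) * cexp ((Λ * a : ℝ) * z)

lemma Kw_int (hw : Win w) (Λ : ℝ) (z : ℂ) :
    Integrable (fun a : ℝ => (WW w a : ℂ) * cexp ((Λ * a : ℝ) * z)) := by
  have h := (kapw_sq hw (-I * (Λ * z))).1
  refine h.congr (Filter.Eventually.of_forall fun a => ?_)
  simp only
  congr 2
  have : -I * I = 1 := by rw [neg_mul, Complex.I_mul_I]; ring
  push_cast
  linear_combination (Λ * z * a) * this

lemma phw_sq (hw : Win w) (Λ : ℝ) (r : ℝ≥0) (s s' : ℂ) :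
    (phw w Λ r (zz s - zz s')) ^ 2 = Kw w Λ (s - s') * cexp ((r : ℝ) * (s - s') ^ 2) := by
  unfold phw
  rw [mul_pow, (kapw_sq hw _).2, ← Complex.exp_nat_mul, zz_sub]
  congr 1
  · unfold Kw
    congr 1
    funext a
    congr 2
    have : -I * I = 1 := by rw [neg_mul, Complex.I_mul_I]; ring
    push_cast
    linear_combination (Λ * (s - s') * a) * this
  · congr 1
    have : I ^ 2 = -1 := Complex.I_sq
    push_cast
    linear_combination (-(r : ℂ) * (s - s') ^ 2) * this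

theorem tr2 (hw : Win w) (Λ : ℝ) (T c : ℝ) (hc : ∀ r : ℝ≥0, c ≤
    (∑ s ∈ Z0 T, ∑ s' ∈ Z0 T, ((mz s * mz s' : ℝ) : ℂ) *
      (phw w Λ r (zz s - zz s')) ^ 2).re) :
    Integrable (fun a : ℝ => WW w a * Wp T (Λ * a)) ∧
    c ≤ ∫ a : ℝ, WW w a * Wp T (Λ * a) := by
  -- the Laplace average
  have h1 : ∀ r : ℝ, 0 ≤ r → c ≤ (∑ s ∈ Z0 T, ∑ s' ∈ Z0 T, ((mz s * mz s' : ℝ) : ℂ) *
      (Kw w Λ (s - s') * cexp (r * (s - s') ^ 2))).re := by
    intro r hr
    have := hc ⟨r, hr⟩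
    refine this.trans (le_of_eq ?_)
    congr 1
    refine sum_congr rfl fun s _ => sum_congr rfl fun s' _ => ?_
    rw [phw_sq hw]
    rfl
  have hi : ∀ s ∈ Z0 T, ∀ s' ∈ Z0 T, IntegrableOn (fun r : ℝ => (((mz s * mz s' : ℝ) : ℂ) *
      Kw w Λ (s - s')) * (((4 * Real.exp (-4 * r) : ℝ) : ℂ) * cexp (r * (s - s') ^ 2)))
      (Set.Ioi 0) := by
    intro s hs s' hs'
    have := diff_re hs hs'
    exact (kW_int _ this.1 this.2).1.const_mul _
  have e1 : ∀ r : ℝ, ((4 * Real.exp (-4 * r) : ℝ) : ℂ) *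
      (∑ s ∈ Z0 T, ∑ s' ∈ Z0 T, ((mz s * mz s' : ℝ) : ℂ) *
      (Kw w Λ (s - s') * cexp (r * (s - s') ^ 2))) =
      ∑ s ∈ Z0 T, ∑ s' ∈ Z0 T, (((mz s * mz s' : ℝ) : ℂ) *
      Kw w Λ (s - s')) * (((4 * Real.exp (-4 * r) : ℝ) : ℂ) * cexp (r * (s - s') ^ 2)) := by
    intro r
    rw [mul_sum]
    refine sum_congr rfl fun s _ => ?_
    rw [mul_sum]
    refine sum_congr rfl fun s' _ => ?_
    ring
  have hI : IntegrableOn (fun r : ℝ => ((4 * Real.exp (-4 * r) : ℝ) : ℂ) *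
      (∑ s ∈ Z0 T, ∑ s' ∈ Z0 T, ((mz s * mz s' : ℝ) : ℂ) *
      (Kw w Λ (s - s') * cexp (r * (s - s') ^ 2)))) (Set.Ioi 0) := by
    simp_rw [e1]
    exact integrable_finsetSum _ fun s hs => integrable_finsetSum _ fun s' hs' => hi s hs s' hs'
  have hIv : ∫ r in Set.Ioi (0 : ℝ), ((4 * Real.exp (-4 * r) : ℝ) : ℂ) *
      (∑ s ∈ Z0 T, ∑ s' ∈ Z0 T, ((mz s * mz s' : ℝ) : ℂ) *
      (Kw w Λ (s - s') * cexp (r * (s - s') ^ 2))) =
      ∑ s ∈ Z0 T, ∑ s' ∈ Z0 T, (((mz s * mz s' : ℝ) : ℂ) *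
      Kw w Λ (s - s')) * H343.kW (s - s') := by
    simp_rw [e1]
    rw [integral_finsetSum _ fun s hs => integrable_finsetSum _ fun s' hs' => hi s hs s' hs']
    refine sum_congr rfl fun s hs => ?_
    rw [integral_finsetSum _ fun s' hs' => hi s hs s' hs']
    refine sum_congr rfl fun s' hs' => ?_
    have := diff_re hs hs'
    rw [integral_const_mul, (kW_int _ this.1 this.2).2]
  have hle : c ≤ (∑ s ∈ Z0 T, ∑ s' ∈ Z0 T, (((mz s * mz s' : ℝ) : ℂ) *
      Kw w Λ (s - s')) * H343.kW (s - s')).re := by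
    obtain ⟨k1, k2⟩ := kW_int 0 (by simp) (by simp)
    have k3 : H343.kW 0 = 1 := by unfold H343.kW; norm_num
    have k4 : IntegrableOn (fun r : ℝ => (4 * Real.exp (-4 * r)) * c) (Set.Ioi 0) := by
      have := k1.re
      refine (this.mul_const c).congr (Filter.Eventually.of_forall fun r => ?_)
      simp only [RCLike.re_eq_complex_re]
      rw [Complex.re_ofReal_mul]
      simp
    have k5 : ∫ r in Set.Ioi (0 : ℝ), (4 * Real.exp (-4 * r)) * c = c := by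
      rw [integral_mul_const]
      have : ∫ r in Set.Ioi (0 : ℝ), (4 * Real.exp (-4 * r)) = 1 := by
        have e : (fun r : ℝ => ((4 * Real.exp (-4 * r) : ℝ) : ℂ) * cexp (r * 0 ^ 2)) =
            fun r : ℝ => ((4 * Real.exp (-4 * r) : ℝ) : ℂ) := by
          funext r
          simp
        rw [e, integral_complex_ofReal, k3] at k2
        exact_mod_cast k2
      rw [this, one_mul]
    rw [← k5, ← hIv]
    have k6 := integral_re hI
    simp only [RCLike.re_eq_complex_re] at k6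
    rw [← k6]
    apply integral_mono_ae k4 hI.re
    rw [Filter.EventuallyLE, ae_restrict_iff' measurableSet_Ioi]
    refine Filter.Eventually.of_forall fun r hr => ?_
    simp only [RCLike.re_eq_complex_re]
    rw [Complex.re_ofReal_mul]
    exact mul_le_mul_of_nonneg_left (h1 r (le_of_lt hr)) (by positivity)
  -- exchange
  have hj : ∀ s ∈ Z0 T, ∀ s' ∈ Z0 T, Integrable (fun a : ℝ => (((mz s * mz s' : ℝ) : ℂ) *
      H343.kW (s - s')) * ((WW w a : ℂ) * cexp ((Λ * a : ℝ) * (s - s')))) := by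
    intro s _ s' _
    exact (Kw_int hw Λ _).const_mul _
  have e2 : ∀ a : ℝ, (WW w a : ℂ) * H343.PPair H343.kW (Λ * a) (Z0 T) mz =
      ∑ s ∈ Z0 T, ∑ s' ∈ Z0 T, (((mz s * mz s' : ℝ) : ℂ) *
      H343.kW (s - s')) * ((WW w a : ℂ) * cexp ((Λ * a : ℝ) * (s - s'))) := by
    intro a
    unfold H343.PPair
    rw [mul_sum]
    refine sum_congr rfl fun s hs => ?_
    rw [mul_sum, ← Z0_sum_refl T (fun s' => (((mz s * mz s' : ℝ) : ℂ) *
      H343.kW (s - s')) * ((WW w a : ℂ) * cexp ((Λ * a : ℝ) * (s - s'))))]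
    refine sum_congr rfl fun s' hs' => ?_
    have : s - (1 - (starRingEnd ℂ) s') = s + (starRingEnd ℂ) s' - 1 := by ring
    rw [this, mz_refl (Z0_im hs')]
    ring
  have hJ : Integrable (fun a : ℝ => (WW w a : ℂ) * H343.PPair H343.kW (Λ * a) (Z0 T) mz) := by
    simp_rw [e2]
    exact integrable_finsetSum _ fun s hs => integrable_finsetSum _ fun s' hs' => hj s hs s' hs'
  have hJv : ∫ a : ℝ, (WW w a : ℂ) * H343.PPair H343.kW (Λ * a) (Z0 T) mz =
      ∑ s ∈ Z0 T, ∑ s' ∈ Z0 T, (((mz s * mz s' : ℝ) : ℂ) *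
      Kw w Λ (s - s')) * H343.kW (s - s') := by
    simp_rw [e2]
    rw [integral_finsetSum _ fun s hs => integrable_finsetSum _ fun s' hs' => hj s hs s' hs']
    refine sum_congr rfl fun s hs => ?_
    rw [integral_finsetSum _ fun s' hs' => hj s hs s' hs']
    refine sum_congr rfl fun s' hs' => ?_
    rw [integral_const_mul]
    unfold Kw
    ring
  have e3 : ∀ a : ℝ, ((WW w a : ℂ) * H343.PPair H343.kW (Λ * a) (Z0 T) mz).re =
      WW w a * Wp T (Λ * a) := by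
    intro a
    rw [Complex.re_ofReal_mul, Wp]
  refine ⟨hJ.re.congr (Filter.Eventually.of_forall fun a => e3 a), ?_⟩
  refine hle.trans (le_of_eq ?_)
  rw [← hJv]
  have h5 := integral_re hJ
  simp only [RCLike.re_eq_complex_re, e3] at h5
  exact h5.symm

theorem tr3 (hw : Win w) (Λ : ℝ) (T : ℝ) :
    Integrable (fun a : ℝ => WW w a * Wp T (Λ * a)) ∧
    (2 * N0 T - Nsc T ≤ ∫ a : ℝ, WW w a * Wp T (Λ * a)) ∧
    (3 * N0 T - 2 * Ndi T ≤ ∫ a : ℝ, WW w a * Wp T (Λ * a)) :=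
  ⟨(tr2 hw Λ T _ fun r => (tr1 hw Λ r T).1).1, (tr2 hw Λ T _ fun r => (tr1 hw Λ r T).1).2,
    (tr2 hw Λ T _ fun r => (tr1 hw Λ r T).2).2⟩

end H479.U
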