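import Pool.Agent.H479.U.Blk

open Finset MeasureTheory Complex

namespace H479.U

open H343.ZSide

lemma gauss_int_b (b c : ℝ) (hb : 0 < b) : Integrable (fun t : ℝ => Real.exp (-b * (t - c) ^ 2)) :=
  gshift_int b c hb

lemma gauss_val_b (b c : ℝ) : ∫ t : ℝ, Real.exp (-b * (t - c) ^ 2) = Real.sqrt (Real.pi / b) := by
  rw [← integral_gaussian b]
  exact integral_sub_right_eq_self (fun x : ℝ => Real.exp (-b * x ^ 2)) c

/-- splitting the mean square -/
lemma J_split (b u T L t1 C0 : ℝ) (f : ℝ → ℝ) (hb : 0 < b) (hb1 : b ≤ 1) (hu : 0 ≤ u)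
    (hT : 0 ≤ T) (hL : 0 ≤ L) (ht1 : 0 ≤ t1) (hLT : L ≤ T)
    (hf : Continuous f) (hf0 : ∀ t, 0 ≤ f t)
    (hZ : ∀ t, Zg T b t ≤ C0)
    (hp : ∀ t, t1 ≤ t → t ≤ T - L → ‖H343.GGb b u t (Z0 T) mz‖ ^ 2 ≤ f t) :
    ∫ t : ℝ, ‖H343.GGb b u t (Z0 T) mz‖ ^ 2 ≤
      4 * Real.exp u * C0 ^ 2 * (2 * Real.sqrt (Real.pi / b) + t1 + L) + ∫ t in (0 : ℝ)..T, f t := by
  set Q : ℝ := 4 * Real.exp u * C0 ^ 2 with hQ
  have hQ0 : 0 ≤ Q := by positivity
  have hC0 : 0 ≤ C0 := (Zg_nonneg T b 0).trans (hZ 0)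
  set Ψ : ℝ → ℝ := fun t => Q * (Real.exp (-b * (t - 0) ^ 2) + Real.exp (-b * (t - T) ^ 2) +
    ((Set.Icc 0 t1).indicator (fun _ => (1 : ℝ)) t +
      (Set.Icc (T - L) T).indicator (fun _ => (1 : ℝ)) t)) +
    (Set.Ioc 0 T).indicator f t with hΨ
  have hind : ∀ a c : ℝ, Integrable ((Set.Icc a c).indicator (fun _ => (1 : ℝ))) := by
    intro a c
    rw [integrable_indicator_iff measurableSet_Icc]
    exact integrableOn_const (by simp)
  have hfi : Integrable ((Set.Ioc 0 T).indicator f) := by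
    rw [integrable_indicator_iff measurableSet_Ioc]
    exact (hf.integrableOn_Icc).mono_set Set.Ioc_subset_Icc_self
  have hΨint : Integrable Ψ := by
    simp only [hΨ]
    refine Integrable.add (Integrable.const_mul ?_ _) hfi
    exact ((gauss_int_b b 0 hb).add (gauss_int_b b T hb)).add ((hind _ _).add (hind _ _))
  have hi0 : ∀ a c t : ℝ, 0 ≤ (Set.Icc a c).indicator (fun _ => (1 : ℝ)) t := fun a c t =>
    Set.indicator_nonneg (fun _ _ => zero_le_one) _
  have hif0 : ∀ t : ℝ, 0 ≤ (Set.Ioc 0 T).indicator f t := fun t =>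
    Set.indicator_nonneg (fun t _ => hf0 t) _
  have hcrude : ∀ t, ‖H343.GGb b u t (Z0 T) mz‖ ^ 2 ≤ 4 * Real.exp u * (Zg T b t) ^ 2 := by
    intro t
    have h1 := GGb_le b u t T hu hb hb1
    have hZ0 := Zg_nonneg T b t
    calc ‖H343.GGb b u t (Z0 T) mz‖ ^ 2 ≤ (2 * Real.exp (u / 2) * Zg T b t) ^ 2 := by gcongr
      _ = 4 * (Real.exp (u / 2)) ^ 2 * (Zg T b t) ^ 2 := by ring
      _ = _ := by
        congr 2
        rw [← Real.exp_nat_mul]; congr 1; push_cast; ring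
  have hpt : ∀ t, ‖H343.GGb b u t (Z0 T) mz‖ ^ 2 ≤ Ψ t := by
    intro t
    have g1 : 0 ≤ Real.exp (-b * (t - 0) ^ 2) := (Real.exp_pos _).le
    have g2 : 0 ≤ Real.exp (-b * (t - T) ^ 2) := (Real.exp_pos _).le
    have g3 := hi0 0 t1 t
    have g4 := hi0 (T - L) T t
    have g5 := hif0 t
    have hZ0 := Zg_nonneg T b t
    simp only [hΨ]
    rcases le_or_gt t 0 with h | h
    · -- t ≤ 0
      have h1 := Zg_left b T t hb h
      have h2 : Zg T b t ≤ Real.exp (-b * t ^ 2 / 2) * C0 :=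
        h1.trans (mul_le_mul_of_nonneg_left (hZ 0) (Real.exp_pos _).le)
      have h3 : (Zg T b t) ^ 2 ≤ Real.exp (-b * (t - 0) ^ 2) * C0 ^ 2 := by
        calc (Zg T b t) ^ 2 ≤ (Real.exp (-b * t ^ 2 / 2) * C0) ^ 2 := by gcongr
          _ = Real.exp (-b * (t - 0) ^ 2) * C0 ^ 2 := by
            rw [mul_pow, ← Real.exp_nat_mul]
            congr 2; push_cast; ring
      calc ‖H343.GGb b u t (Z0 T) mz‖ ^ 2 ≤ 4 * Real.exp u * (Zg T b t) ^ 2 := hcrude t
        _ ≤ 4 * Real.exp u * (Real.exp (-b * (t - 0) ^ 2) * C0 ^ 2) := by gcongr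
        _ = Q * Real.exp (-b * (t - 0) ^ 2) := by rw [hQ]; ring
        _ ≤ Q * (Real.exp (-b * (t - 0) ^ 2) + Real.exp (-b * (t - T) ^ 2) +
            ((Set.Icc 0 t1).indicator (fun _ => (1 : ℝ)) t +
            (Set.Icc (T - L) T).indicator (fun _ => (1 : ℝ)) t)) := by
            apply mul_le_mul_of_nonneg_left _ hQ0; linarith
        _ ≤ _ := by linarith
    rcases le_or_gt T t with h' | h'
    · have h1 := Zg_right b T t hb h'
      have h2 : Zg T b t ≤ Real.exp (-b * (t - T) ^ 2 / 2) * C0 :=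
        h1.trans (mul_le_mul_of_nonneg_left (hZ T) (Real.exp_pos _).le)
      have h3 : (Zg T b t) ^ 2 ≤ Real.exp (-b * (t - T) ^ 2) * C0 ^ 2 := by
        calc (Zg T b t) ^ 2 ≤ (Real.exp (-b * (t - T) ^ 2 / 2) * C0) ^ 2 := by gcongr
          _ = Real.exp (-b * (t - T) ^ 2) * C0 ^ 2 := by
            rw [mul_pow, ← Real.exp_nat_mul]
            congr 2; push_cast; ring
      calc ‖H343.GGb b u t (Z0 T) mz‖ ^ 2 ≤ 4 * Real.exp u * (Zg T b t) ^ 2 := hcrude t
        _ ≤ 4 * Real.exp u * (Real.exp (-b * (t - T) ^ 2) * C0 ^ 2) := by gcongr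
        _ = Q * Real.exp (-b * (t - T) ^ 2) := by rw [hQ]; ring
        _ ≤ Q * (Real.exp (-b * (t - 0) ^ 2) + Real.exp (-b * (t - T) ^ 2) +
            ((Set.Icc 0 t1).indicator (fun _ => (1 : ℝ)) t +
            (Set.Icc (T - L) T).indicator (fun _ => (1 : ℝ)) t)) := by
            apply mul_le_mul_of_nonneg_left _ hQ0; linarith
        _ ≤ _ := by linarith
    by_cases hm : t ≤ t1 ∨ T - L ≤ t
    · have h4 : 1 ≤ (Set.Icc 0 t1).indicator (fun _ => (1 : ℝ)) t +
          (Set.Icc (T - L) T).indicator (fun _ => (1 : ℝ)) t := by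
        rcases hm with h3 | h3
        · rw [Set.indicator_of_mem (Set.mem_Icc.2 ⟨h.le, h3⟩)]; linarith
        · rw [Set.indicator_of_mem (Set.mem_Icc.2 ⟨h3, h'.le⟩)]; linarith
      have h3 : (Zg T b t) ^ 2 ≤ C0 ^ 2 := by
        have := hZ t
        gcongr
      calc ‖H343.GGb b u t (Z0 T) mz‖ ^ 2 ≤ 4 * Real.exp u * (Zg T b t) ^ 2 := hcrude t
        _ ≤ 4 * Real.exp u * C0 ^ 2 := by gcongr
        _ = Q * 1 := by rw [hQ]; ring
        _ ≤ Q * (Real.exp (-b * (t - 0) ^ 2) + Real.exp (-b * (t - T) ^ 2) +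
            ((Set.Icc 0 t1).indicator (fun _ => (1 : ℝ)) t +
            (Set.Icc (T - L) T).indicator (fun _ => (1 : ℝ)) t)) := by
            apply mul_le_mul_of_nonneg_left _ hQ0; linarith
        _ ≤ _ := by linarith
    · push Not at hm
      have h1 := hp t hm.1.le hm.2.le
      rw [Set.indicator_of_mem (Set.mem_Ioc.2 ⟨h, h'.le⟩)]
      have h2 : 0 ≤ Q * (Real.exp (-b * (t - 0) ^ 2) + Real.exp (-b * (t - T) ^ 2) +
            ((Set.Icc 0 t1).indicator (fun _ => (1 : ℝ)) t +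
            (Set.Icc (T - L) T).indicator (fun _ => (1 : ℝ)) t)) := by positivity
      linarith
  have hstep : ∫ t : ℝ, ‖H343.GGb b u t (Z0 T) mz‖ ^ 2 ≤ ∫ t, Ψ t :=
    integral_mono (H343.pair_gauss b u hb (Z0 T) mz).1 hΨint hpt
  refine hstep.trans (le_of_eq ?_)
  simp only [hΨ]
  rw [integral_add, integral_const_mul, integral_add, integral_add, integral_add,
    gauss_val_b, gauss_val_b, integral_indicator measurableSet_Icc,
    integral_indicator measurableSet_Icc, integral_indicator measurableSet_Ioc,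
    intervalIntegral.integral_of_le hT]
  · simp only [integral_const, MeasurableSet.univ, measureReal_restrict_apply, Set.univ_inter,
        Real.volume_real_Icc, smul_eq_mul, mul_one]
    rw [max_eq_left (by linarith), max_eq_left (by linarith)]
    ring
  · exact hind _ _
  · exact hind _ _
  · exact gauss_int_b b 0 hb
  · exact gauss_int_b b T hb
  · exact (gauss_int_b b 0 hb).add (gauss_int_b b T hb)
  · exact (hind _ _).add (hind _ _)
  · exact Integrable.const_mul (((gauss_int_b b 0 hb).add (gauss_int_b b T hb)).add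
      ((hind _ _).add (hind _ _))) _
  · exact hfi

end H479.U
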