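import Pool.Agent.H479.U.Up

open Finset MeasureTheory Complex

namespace H479.U

open H343.ZSide

/-- the Gaussian pair sum -/
noncomputable def Pb (T b u : ℝ) : ℝ := (H343.PPair (H343.kG b) u (Z0 T) mz).re

lemma Pb_eq (T b u : ℝ) (hb : 0 < b) : Pb T b u = Real.sqrt (b / Real.pi) *
    ∫ t : ℝ, ‖H343.GGb b u t (Z0 T) mz‖ ^ 2 := by
  unfold Pb
  rw [(H343.pair_gauss b u hb (Z0 T) mz).2, Complex.ofReal_re]

lemma young (x y η : ℝ) (hη : 0 < η) : (x + y) ^ 2 ≤ (1 + η) * x ^ 2 + (1 + 1 / η) * y ^ 2 := by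
  have h3 : (1 + η) * x ^ 2 + (1 + 1 / η) * y ^ 2 - (x + y) ^ 2 = (1 / η) * (η * x - y) ^ 2 := by
    field_simp; ring
  have h4 : 0 ≤ (1 / η) * (η * x - y) ^ 2 := by positivity
  linarith

/-- the integral over `[0, T]` -/
lemma int_main (b u T L η D K0 : ℝ) (X : ℕ) (hb : 0 < b) (hb1 : b ≤ 1) (hη : 0 < η)
    (hT : 0 ≤ T) (hL : 0 ≤ L) (hD : 0 ≤ D) (hX : u + D ≤ Real.log (X + 1))
    (hsum : Summable (fun n : ℕ => wn n * Real.exp (-(u - Real.log n) ^ 2 / b)))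
    (hE : 2 * S2 * (Real.exp (4 + 2 * u) * Real.exp (-D ^ 2 / 4)) ≤ 1) (hV : VVb b u ≤ K0) :
    ∫ t in (0 : ℝ)..T, (L * Real.exp (-u ^ 2 / (2 * b)) + ‖H343.PPb b La u t‖) ^ 2 ≤
      T * (L ^ 2 * Real.exp (-u ^ 2 / b)) +
      T * (2 * (L * Real.exp (-u ^ 2 / (2 * b))) * (2 * S2 * Real.exp (2 + 2 * u))) +
      ((1 + η) * (T * VVb b u + (8 * X * (1 + Real.log X)) * K0) + (1 + 1 / η) * T) := by
  set e0 := Real.exp (-u ^ 2 / (2 * b)) with he0
  have he02 : e0 ^ 2 = Real.exp (-u ^ 2 / b) := by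
    rw [he0, ← Real.exp_nat_mul]; congr 1; push_cast; field_simp
  set B := 2 * S2 * Real.exp (2 + 2 * u) with hB
  have hPc := PPb_cont b u hb hb1
  have hS2 := S2_nonneg
  have h1 : ∫ t in (0 : ℝ)..T, (L * e0 + ‖H343.PPb b La u t‖) ^ 2 ≤
      ∫ t in (0 : ℝ)..T, ((L ^ 2 * e0 ^ 2 + 2 * (L * e0) * B) + ‖H343.PPb b La u t‖ ^ 2) := by
    apply intervalIntegral.integral_mono_on hT
    · exact ((continuous_const.add hPc.norm).pow 2).intervalIntegrable _ _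
    · exact (continuous_const.add (hPc.norm.pow 2)).intervalIntegrable _ _
    · intro t _
      have h2 := PPb_bound b u t hb hb1
      have h3 : 0 ≤ L * e0 := by positivity
      have h4 : 2 * (L * e0) * ‖H343.PPb b La u t‖ ≤ 2 * (L * e0) * B := by gcongr
      nlinarith
  have h2 : ∫ t in (0 : ℝ)..T, ((L ^ 2 * e0 ^ 2 + 2 * (L * e0) * B) + ‖H343.PPb b La u t‖ ^ 2) =
      T * (L ^ 2 * e0 ^ 2 + 2 * (L * e0) * B) + ∫ t in (0 : ℝ)..T, ‖H343.PPb b La u t‖ ^ 2 := by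
    rw [intervalIntegral.integral_add (f := fun _ : ℝ => L ^ 2 * e0 ^ 2 + 2 * (L * e0) * B)
      (g := fun t => ‖H343.PPb b La u t‖ ^ 2) (continuous_const.intervalIntegrable _ _)
      ((hPc.norm.pow 2).intervalIntegrable _ _), intervalIntegral.integral_const, smul_eq_mul,
      sub_zero]
  have h3 := PPb_ms b u D 0 T η hb hb1 X hη hT hD hX hsum
  rw [sub_zero] at h3
  have hEE : (2 * S2 * (Real.exp (4 + 2 * u) * Real.exp (-D ^ 2 / 4))) ^ 2 ≤ 1 :=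
    pow_le_one₀ (by positivity) hE
  have hlX : 0 ≤ Real.log (X : ℝ) := Real.log_natCast_nonneg X
  have h4 : (1 + η) * ((T + 8 * X * (1 + Real.log X)) * VVb b u) +
      (1 + 1 / η) * (T * (2 * S2 * (Real.exp (4 + 2 * u) * Real.exp (-D ^ 2 / 4))) ^ 2) ≤
      (1 + η) * (T * VVb b u + (8 * X * (1 + Real.log X)) * K0) + (1 + 1 / η) * T := by
    have h5 : (T + 8 * X * (1 + Real.log X)) * VVb b u ≤
        T * VVb b u + (8 * X * (1 + Real.log X)) * K0 := by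
      rw [add_mul]
      gcongr
    have h6 : T * (2 * S2 * (Real.exp (4 + 2 * u) * Real.exp (-D ^ 2 / 4))) ^ 2 ≤ T * 1 := by
      gcongr
    have h7 : (0 : ℝ) ≤ 1 + 1 / η := by positivity
    have h8 := mul_le_mul_of_nonneg_left h6 h7
    have h9 := mul_le_mul_of_nonneg_left h5 (by positivity : (0 : ℝ) ≤ 1 + η)
    linarith
  rw [← he02]
  have h5 : T * (L ^ 2 * e0 ^ 2 + 2 * (L * e0) * B) = T * (L ^ 2 * e0 ^ 2) +
      T * (2 * (L * e0) * B) := by ring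
  linarith

/-- eventual facts -/
lemma ev_facts (κ1 A cg K0 cA C0 : ℝ) (hκ10 : 0 < κ1) (hA : 0 ≤ A) : ∃ T2 : ℝ, ∀ T : ℝ, T2 ≤ T →
    8 + 8 * (A + κ1) * Real.log T ≤ T ^ κ1 ∧
    2 * S2 * (Real.exp (4 + 2 * (A * Real.log T)) * Real.exp (-(κ1 * Real.log T) ^ 2 / 4)) ≤ 1 ∧
    cg + Real.log T ≤ T ^ κ1 ∧ K0 + cA * Real.log T ≤ T ^ κ1 ∧ 2 * C0 * Real.log T ≤ T ^ κ1 := by
  have hS2 := S2_nonneg
  have evlog : ∀ a c : ℝ, ∀ᶠ T : ℝ in Filter.atTop, a + c * Real.log T ≤ T ^ κ1 := by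
    intro a c
    have h1 : (fun T : ℝ => a + c * Real.log T) =o[Filter.atTop] fun T : ℝ => T ^ κ1 := by
      refine Asymptotics.IsLittleO.add ?_ ((isLittleO_log_rpow_atTop hκ10).const_mul_left c)
      rw [Asymptotics.isLittleO_const_left]
      right
      exact tendsto_norm_atTop_atTop.comp (tendsto_rpow_atTop hκ10)
    have h3 := h1.bound (show (0 : ℝ) < 1 by norm_num)
    filter_upwards [h3, Filter.eventually_ge_atTop 0] with T hT hT1
    rw [one_mul, Real.norm_of_nonneg (Real.rpow_nonneg hT1 _)] at hT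
    exact (le_abs_self _).trans hT
  have ev2 : ∀ᶠ T : ℝ in Filter.atTop, 2 * S2 * (Real.exp (4 + 2 * (A * Real.log T)) *
      Real.exp (-(κ1 * Real.log T) ^ 2 / 4)) ≤ 1 := by
    have h1 : ∀ᶠ L : ℝ in Filter.atTop, 2 * S2 + 4 + 2 * (A * L) - (κ1 * L) ^ 2 / 4 ≤ 0 := by
      filter_upwards [Filter.eventually_ge_atTop (4 * (2 * S2 + 4 + 2 * A) / κ1 ^ 2),
        Filter.eventually_ge_atTop 1] with L h2 h3
      rw [div_le_iff₀ (by positivity)] at h2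
      have h4 : 4 * (2 * S2 + 4 + 2 * A) * L ≤ L * κ1 ^ 2 * L :=
        mul_le_mul_of_nonneg_right h2 (by linarith)
      nlinarith
    filter_upwards [Real.tendsto_log_atTop.eventually h1] with T hT
    have h6 : 2 * S2 ≤ Real.exp (2 * S2) := by
      have := Real.add_one_le_exp (2 * S2); linarith
    calc 2 * S2 * (Real.exp (4 + 2 * (A * Real.log T)) * Real.exp (-(κ1 * Real.log T) ^ 2 / 4))
        ≤ Real.exp (2 * S2) * (Real.exp (4 + 2 * (A * Real.log T)) *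
          Real.exp (-(κ1 * Real.log T) ^ 2 / 4)) := by gcongr
      _ = Real.exp (2 * S2 + (4 + 2 * (A * Real.log T) + -(κ1 * Real.log T) ^ 2 / 4)) := by
          rw [← Real.exp_add, ← Real.exp_add]
      _ ≤ 1 := by
          apply Real.exp_le_one_iff.2
          linarith
  obtain ⟨T2, hT2⟩ := ((((evlog 8 (8 * (A + κ1))).and ev2).and (evlog cg 1)).and
    ((evlog K0 cA).and (evlog 0 (2 * C0)))).exists_forall_of_atTop
  refine ⟨T2, fun T hT => ?_⟩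
  obtain ⟨⟨⟨f1, f2⟩, f3⟩, f4, f5⟩ := hT2 T hT
  exact ⟨f1, f2, by linarith, f4, by linarith⟩

/-- the cut-off -/
lemma cutoff (u W l : ℝ) (hu : 0 ≤ u) (hl : 0 ≤ l) (hW1 : 1 ≤ W) (hlogW : Real.log W = l)
    (f1 : 8 * (1 + (u + l)) ≤ W) : ∃ X : ℕ, u + l ≤ Real.log (X + 1) ∧
    8 * (X : ℝ) * (1 + Real.log X) ≤ Real.exp u * W ^ 2 := by
  have hEu : 0 < Real.exp u := Real.exp_pos u
  have hW0 : 0 < W := by linarith
  refine ⟨⌊Real.exp u * W⌋₊, ?_, ?_⟩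
  · have h1 : Real.exp u * W < (⌊Real.exp u * W⌋₊ : ℝ) + 1 := Nat.lt_floor_add_one _
    have h2 : Real.log (Real.exp u * W) ≤ Real.log ((⌊Real.exp u * W⌋₊ : ℝ) + 1) :=
      Real.log_le_log (by positivity) h1.le
    rw [Real.log_mul hEu.ne' hW0.ne', Real.log_exp, hlogW] at h2
    exact h2
  · set X : ℕ := ⌊Real.exp u * W⌋₊ with hX
    have hXle : (X : ℝ) ≤ Real.exp u * W := Nat.floor_le (by positivity)
    have h2 : Real.log X ≤ u + l := by
      rcases Nat.eq_zero_or_pos X with h0 | h0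
      · rw [h0]; simp; positivity
      · have h3 : Real.log X ≤ Real.log (Real.exp u * W) :=
          Real.log_le_log (by exact_mod_cast h0) hXle
        rw [Real.log_mul hEu.ne' hW0.ne', Real.log_exp, hlogW] at h3
        exact h3
    have h3 : 8 * (1 + Real.log X) ≤ W := by linarith
    have h4 : 0 ≤ 8 * (1 + Real.log X) := by
      have := Real.log_natCast_nonneg X; linarith
    calc 8 * (X : ℝ) * (1 + Real.log X) = (X : ℝ) * (8 * (1 + Real.log X)) := by ring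
      _ ≤ (Real.exp u * W) * W := mul_le_mul hXle h3 h4 (by positivity)
      _ = _ := by ring

/-- final arithmetic -/
lemma final_arith (T P1 P2 u s r η η1 K0 S C1 E W3 TK J IM Kf : ℝ) (hT : 0 ≤ T) (hP1 : 0 ≤ P1)
    (hP2 : 0 ≤ P2) (hu : 0 ≤ u) (hs : 0 < s) (hr : 0 ≤ r) (hη0 : 0 < η) (hη : η ≤ 1)
    (hη1 : η1 = η / 8) (hK0 : 0 ≤ K0) (hS : 0 ≤ S) (hE : 0 ≤ E) (hW3 : 0 ≤ W3) (hWT : W3 ≤ TK)
    (hKf : Kf = 16 * S / s + 2 * K0 / s + 2 * (1 + 1 / η1) / s + r * (1 + 1 / η1) * C1 ^ 2 + r +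
      2 / s + 1)
    (hJ : J ≤ r * (E * (2 * W3)) + (1 + η1) * (1 / (2 * Real.pi * s)) * IM +
        T * (r * (1 + 1 / η1) * C1 ^ 2))
    (hIM : IM ≤ T * P1 + T * (4 * S * P2) +
      ((1 + η1) * (T * ((1 + η1) * s * u + K0) + E * W3) + (1 + 1 / η1) * T)) :
    J ≤ (T / (2 * Real.pi)) * ((1 + η) * (P1 / s) + Kf * P2 + (1 + η) * u) + Kf * T +
      2 * Kf * (E * TK) := by
  have hπ := Real.pi_pos
  have hη10 : 0 < η1 := by rw [hη1]; positivity
  have h1η : 0 < 1 + 1 / η1 := by positivity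
  have hc : 0 ≤ (1 + η1) * (1 / (2 * Real.pi * s)) := by positivity
  have h2π : 1 ≤ 2 * Real.pi := by linarith [Real.pi_gt_three]
  have hη3 : (1 + η1) ^ 3 ≤ 1 + η := by
    have h1 : η = 8 * η1 := by rw [hη1]; ring
    rw [h1]
    have h2 : η1 ≤ 1 / 8 := by rw [hη1]; linarith
    nlinarith [sq_nonneg η1, pow_pos hη10 3]
  have hη11 : η1 ≤ 1 / 8 := by rw [hη1]; linarith
  have hη2 : (1 + η1) ^ 2 ≤ 2 := by nlinarith
  have hηη : 1 + η1 ≤ 1 + η := by rw [hη1]; linarith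
  have hη22 : 1 + η1 ≤ 2 := by linarith
  have a1 : 0 ≤ S / s := by positivity
  have a2 : 0 ≤ K0 / s := by positivity
  have a3 : 0 ≤ (1 + 1 / η1) / s := by positivity
  have a4 : 0 ≤ r * (1 + 1 / η1) * C1 ^ 2 := by positivity
  have a5 : 0 ≤ 1 / s := by positivity
  have hKf' : Kf = 16 * (S / s) + 2 * (K0 / s) + 2 * ((1 + 1 / η1) / s) +
      r * (1 + 1 / η1) * C1 ^ 2 + r + 2 * (1 / s) + 1 := by rw [hKf]; ring
  have h3 := mul_le_mul_of_nonneg_left hIM hc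
  have hexp : (1 + η1) * (1 / (2 * Real.pi * s)) * (T * P1 + T * (4 * S * P2) +
      ((1 + η1) * (T * ((1 + η1) * s * u + K0) + E * W3) + (1 + 1 / η1) * T)) =
      (T / (2 * Real.pi)) * ((1 + η1) * (P1 / s) + ((1 + η1) * (4 * (S / s))) * P2 +
        (1 + η1) ^ 3 * u) +
      T * (((1 + η1) ^ 2 * (K0 / s) + (1 + η1) * ((1 + 1 / η1) / s)) / (2 * Real.pi)) +
      ((1 + η1) ^ 2 * (1 / s) / (2 * Real.pi)) * (E * W3) := by
    field_simp
    ring
  rw [hexp] at h3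
  have g1 : (1 + η1) * (4 * (S / s)) ≤ Kf := by
    have : (1 + η1) * (4 * (S / s)) ≤ 2 * (4 * (S / s)) := by gcongr
    rw [hKf']; linarith
  have g2 : ((1 + η1) ^ 2 * (K0 / s) + (1 + η1) * ((1 + 1 / η1) / s)) / (2 * Real.pi) +
      r * (1 + 1 / η1) * C1 ^ 2 ≤ Kf := by
    have h4 : ((1 + η1) ^ 2 * (K0 / s) + (1 + η1) * ((1 + 1 / η1) / s)) / (2 * Real.pi) ≤
        2 * (K0 / s) + 2 * ((1 + 1 / η1) / s) := by
      refine (div_le_self (by positivity) h2π).trans ?_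
      gcongr
    rw [hKf']; linarith
  have g3 : (1 + η1) ^ 2 * (1 / s) / (2 * Real.pi) + 2 * r ≤ 2 * Kf := by
    have h4 : (1 + η1) ^ 2 * (1 / s) / (2 * Real.pi) ≤ 2 * (1 / s) := by
      refine (div_le_self (by positivity) h2π).trans ?_
      gcongr
    rw [hKf']; linarith
  have b1 : (1 + η1) * (P1 / s) ≤ (1 + η) * (P1 / s) := by gcongr
  have b2 : ((1 + η1) * (4 * (S / s))) * P2 ≤ Kf * P2 := by gcongr
  have b3 : (1 + η1) ^ 3 * u ≤ (1 + η) * u := by gcongr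
  have b4 : (T / (2 * Real.pi)) * ((1 + η1) * (P1 / s) + ((1 + η1) * (4 * (S / s))) * P2 +
        (1 + η1) ^ 3 * u) ≤ (T / (2 * Real.pi)) * ((1 + η) * (P1 / s) + Kf * P2 + (1 + η) * u) := by
    apply mul_le_mul_of_nonneg_left _ (by positivity)
    linarith
  have b5 := mul_le_mul_of_nonneg_left g2 hT
  have hEW : E * W3 ≤ E * TK := by gcongr
  have hEW0 : 0 ≤ E * W3 := by positivity
  have hKf0 : 0 ≤ Kf := by rw [hKf']; positivity
  have b6 := mul_le_mul_of_nonneg_right g3 hEW0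
  have b7 : 2 * Kf * (E * W3) ≤ 2 * Kf * (E * TK) := by gcongr
  linarith

theorem Pb_upper (b κ A η : ℝ) (hb : 0 < b) (hb1 : b ≤ 1) (hκ : 0 < κ) (hA : 0 ≤ A)
    (hη : 0 < η) (hη1 : η ≤ 1) : ∃ K T0 : ℝ, 0 < K ∧ 10 ≤ T0 ∧ ∀ T : ℝ, T0 ≤ T → ∀ u : ℝ, 0 ≤ u →
      u ≤ A * Real.log T → Pb T b u ≤
        (T / (2 * Real.pi)) * ((1 + η) * ((Real.log T) ^ 2 * Real.exp (-u ^ 2 / b) /
          Real.sqrt (Real.pi * b)) + K * (Real.log T * Real.exp (2 * u - u ^ 2 / (2 * b))) +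
          (1 + η) * u) + K * T + K * (Real.exp u * T ^ κ) := by
  obtain ⟨κ1, hκ1⟩ : ∃ κ1 : ℝ, κ1 = κ / 8 := ⟨_, rfl⟩
  have hκ10 : 0 < κ1 := by rw [hκ1]; positivity
  obtain ⟨η1, hη1d⟩ : ∃ η1 : ℝ, η1 = η / 8 := ⟨_, rfl⟩
  have hη10 : 0 < η1 := by rw [hη1d]; positivity
  obtain ⟨C1, T1, hC1, hT1, hpt⟩ := point b κ1 A hb hb1 hκ10 hA
  obtain ⟨C0, hC0, hZ⟩ := Zg_le b hb
  obtain ⟨K0, hK0, hVV⟩ := VVb_le b η1 hb hη10
  have hπ := Real.pi_pos
  obtain ⟨s, hs⟩ : ∃ s : ℝ, s = Real.sqrt (Real.pi * b) := ⟨_, rfl⟩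
  have hs0 : 0 < s := by rw [hs]; exact Real.sqrt_pos.2 (by positivity)
  have hS2 := S2_nonneg
  obtain ⟨T2, hT2⟩ := ev_facts κ1 A (2 * Real.sqrt (Real.pi / b)) K0 ((1 + η1) * s * A) C0 hκ10 hA
  obtain ⟨sq, hsq⟩ : ∃ sq : ℝ, sq = 1 / Real.sqrt (2 * Real.pi * b) := ⟨_, rfl⟩
  have hsq0 : 0 ≤ sq := by rw [hsq]; positivity
  have hsq2 : sq ^ 2 = 1 / (2 * Real.pi * b) := by
    rw [hsq, div_pow, one_pow, Real.sq_sqrt (by positivity)]
  obtain ⟨r, hr⟩ : ∃ r : ℝ, r = Real.sqrt (b / Real.pi) := ⟨_, rfl⟩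
  have hr0 : 0 ≤ r := by rw [hr]; exact Real.sqrt_nonneg _
  have hrs : r * s = b := by
    rw [hr, hs, ← Real.sqrt_mul (by positivity)]
    rw [show b / Real.pi * (Real.pi * b) = b ^ 2 by field_simp, Real.sqrt_sq hb.le]
  have hrsq : r * sq ^ 2 = 1 / (2 * Real.pi * s) := by
    rw [hsq2]
    have : r = b / s := by rw [eq_div_iff hs0.ne']; exact hrs
    rw [this]
    field_simp
  obtain ⟨Kf, hKf⟩ : ∃ Kf : ℝ, Kf = 16 * (S2 * Real.exp 2) / s + 2 * K0 / s +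
    2 * (1 + 1 / η1) / s + r * (1 + 1 / η1) * C1 ^ 2 + r + 2 / s + 1 := ⟨_, rfl⟩
  have hKf0 : 0 < Kf := by rw [hKf]; positivity
  refine ⟨2 * Kf, max (max T1 T2) 10, by positivity, le_max_right _ _, fun T hT u hu hu1 => ?_⟩
  have hTT1 : T1 ≤ T := ((le_max_left _ _).trans (le_max_left _ _)).trans hT
  have hTT2 : T2 ≤ T := ((le_max_right _ _).trans (le_max_left _ _)).trans hT
  have hT10 : 10 ≤ T := (le_max_right _ _).trans hT
  obtain ⟨f1, f2, f3, f4, f5⟩ := hT2 T hTT2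
  have hT0 : 0 < T := by linarith
  have hpt' := hpt T hTT1 u
  have hZ' := fun t => hZ T t hT10
  obtain ⟨W, hW⟩ : ∃ W : ℝ, W = T ^ κ1 := ⟨_, rfl⟩
  have hW0 : 0 < W := by rw [hW]; exact Real.rpow_pos_of_pos hT0 _
  have hW1 : 1 ≤ W := by rw [hW]; exact Real.one_le_rpow (by linarith) hκ10.le
  have hW3 : W ^ 3 ≤ T ^ κ := by
    rw [hW, ← Real.rpow_natCast, ← Real.rpow_mul hT0.le]
    apply Real.rpow_le_rpow_of_exponent_le (by linarith)
    rw [hκ1]; push_cast; linarith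
  have hlogW0 : Real.log W = κ1 * Real.log T := by rw [hW, Real.log_rpow hT0]
  rw [← hW] at f1 f3 f4 f5 hpt'
  rw [← hsq] at hpt'
  obtain ⟨L, hL⟩ : ∃ L : ℝ, L = Real.log T := ⟨_, rfl⟩
  have hL1 : 1 ≤ L := by
    rw [hL, Real.le_log_iff_exp_le hT0]
    have := Real.exp_one_lt_d9
    linarith
  have hLT : L ≤ T := by
    have := Real.log_le_sub_one_of_pos hT0
    linarith
  rw [← hL] at hlogW0 f1 f2 f3 f4 f5 hpt' hu1 ⊢
  have hZ'' : ∀ t, Zg T b t ≤ C0 * L := fun t => by rw [hL]; exact hZ' t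
  clear hpt hZ hT2 hZ' hT hTT1 hTT2
  have hlW : 0 ≤ κ1 * L := by positivity
  obtain ⟨X, hXlog, hXX⟩ := cutoff u W (κ1 * L) hu hlW hW1 hlogW0 (by linarith)
  obtain ⟨hsum, hVle⟩ := hVV u hu
  rw [← hs] at hVle
  have hV0 : 0 ≤ VVb b u := tsum_nonneg fun n => mul_nonneg (wn_nonneg n) (Real.exp_pos _).le
  have hVW : VVb b u ≤ W := by
    refine hVle.trans (le_trans ?_ f4)
    have : (1 + η1) * s * u ≤ (1 + η1) * s * (A * L) := by gcongr
    linarith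
  have hE : 2 * S2 * (Real.exp (4 + 2 * u) * Real.exp (-(κ1 * L) ^ 2 / 4)) ≤ 1 := by
    refine le_trans ?_ f2
    gcongr
  have hmain := int_main b u T L η1 (κ1 * L) W X hb hb1 hη10 hT0.le (by linarith)
    hlW hXlog hsum hE hVW
  obtain ⟨e0, he0⟩ : ∃ e0 : ℝ, e0 = Real.exp (-u ^ 2 / (2 * b)) := ⟨_, rfl⟩
  have he00 : 0 < e0 := by rw [he0]; exact Real.exp_pos _
  have he1 : 2 * (L * e0) * (2 * S2 * Real.exp (2 + 2 * u)) =
      4 * (S2 * Real.exp 2) * (L * Real.exp (2 * u - u ^ 2 / (2 * b))) := by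
    have h2 : e0 * Real.exp (2 + 2 * u) = Real.exp 2 * Real.exp (2 * u - u ^ 2 / (2 * b)) := by
      rw [he0, ← Real.exp_add, ← Real.exp_add]; congr 1; ring
    linear_combination (4 * S2 * L) * h2
  rw [← he0] at hpt' hmain
  rw [he1] at hmain
  have hPc := PPb_cont b u hb hb1
  obtain ⟨f, hf⟩ : ∃ f : ℝ → ℝ, f = fun t => (1 + η1) * (sq * (L * e0 + ‖H343.PPb b La u t‖)) ^ 2 +
    (1 + 1 / η1) * C1 ^ 2 := ⟨_, rfl⟩
  have hfc : Continuous f := by
    rw [hf]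
    exact (continuous_const.mul ((continuous_const.mul
      (continuous_const.add hPc.norm)).pow 2)).add continuous_const
  have hf0 : ∀ t, 0 ≤ f t := fun t => by rw [hf]; positivity
  have hJ := J_split b u T L W (C0 * L) f hb hb1 hu hT0.le (by linarith) hW0.le hLT hfc hf0
    hZ'' (fun t ht1 ht2 => by
      have h1 := hpt' t hu hu1 ht1 ht2
      have h2 : ‖H343.GGb b u t (Z0 T) mz‖ ^ 2 ≤ (sq * (L * e0 + ‖H343.PPb b La u t‖) + C1) ^ 2 := by
        gcongr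
      rw [hf]
      exact h2.trans (young _ _ η1 hη10))
  have hintf : ∫ t in (0 : ℝ)..T, f t = (1 + η1) * sq ^ 2 *
      (∫ t in (0 : ℝ)..T, (L * e0 + ‖H343.PPb b La u t‖) ^ 2) + T * ((1 + 1 / η1) * C1 ^ 2) := by
    simp only [hf, mul_pow]
    rw [intervalIntegral.integral_add, intervalIntegral.integral_const,
      intervalIntegral.integral_const_mul, intervalIntegral.integral_const_mul, smul_eq_mul,
      sub_zero]
    · ring
    · exact (continuous_const.mul (continuous_const.mul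
        ((continuous_const.add hPc.norm).pow 2))).intervalIntegrable _ _
    · exact continuous_const.intervalIntegrable _ _
  rw [hintf] at hJ
  obtain ⟨IM, hIM⟩ : ∃ IM : ℝ, IM = ∫ t in (0 : ℝ)..T, (L * e0 + ‖H343.PPb b La u t‖) ^ 2 :=
    ⟨_, rfl⟩
  rw [← hIM] at hJ hmain
  -- the boundary part
  have hbd : 4 * Real.exp u * (C0 * L) ^ 2 * (2 * Real.sqrt (Real.pi / b) + W + L) ≤
      Real.exp u * (2 * W ^ 3) := by
    have h2 : (2 * C0 * L) ^ 2 ≤ W ^ 2 := by gcongr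
    have h3 : 2 * Real.sqrt (Real.pi / b) + W + L ≤ W + W := by linarith
    calc 4 * Real.exp u * (C0 * L) ^ 2 * (2 * Real.sqrt (Real.pi / b) + W + L)
        = Real.exp u * ((2 * C0 * L) ^ 2 * (2 * Real.sqrt (Real.pi / b) + W + L)) := by ring
      _ ≤ Real.exp u * (W ^ 2 * (W + W)) := by
          apply mul_le_mul_of_nonneg_left _ (Real.exp_pos u).le
          apply mul_le_mul h2 h3 (by positivity) (by positivity)
      _ = _ := by ring
  have hfin1 : Pb T b u ≤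
      r * (Real.exp u * (2 * W ^ 3)) + (1 + η1) * (1 / (2 * Real.pi * s)) * IM +
        T * (r * (1 + 1 / η1) * C1 ^ 2) := by
    rw [Pb_eq T b u hb, ← hr, ← hrsq]
    calc r * (∫ t : ℝ, ‖H343.GGb b u t (Z0 T) mz‖ ^ 2) ≤ r * (Real.exp u * (2 * W ^ 3) +
        ((1 + η1) * sq ^ 2 * IM + T * ((1 + 1 / η1) * C1 ^ 2))) := by
          apply mul_le_mul_of_nonneg_left _ hr0
          linarith
      _ = _ := by ring
  have hIM2 : IM ≤ T * (L ^ 2 * Real.exp (-u ^ 2 / b)) +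
      T * (4 * (S2 * Real.exp 2) * (L * Real.exp (2 * u - u ^ 2 / (2 * b)))) +
      ((1 + η1) * (T * ((1 + η1) * s * u + K0) + Real.exp u * W ^ 3) + (1 + 1 / η1) * T) := by
    refine hmain.trans ?_
    have h3 : 8 * (X : ℝ) * (1 + Real.log X) * W ≤ Real.exp u * W ^ 3 := by
      calc 8 * (X : ℝ) * (1 + Real.log X) * W ≤ Real.exp u * W ^ 2 * W := by gcongr
        _ = _ := by ring
    have h4 : T * VVb b u ≤ T * ((1 + η1) * s * u + K0) := by gcongr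
    have h5 : (1 + η1) * (T * VVb b u + 8 * (X : ℝ) * (1 + Real.log X) * W) ≤
        (1 + η1) * (T * ((1 + η1) * s * u + K0) + Real.exp u * W ^ 3) := by
      apply mul_le_mul_of_nonneg_left _ (by positivity)
      linarith
    linarith
  have hA := final_arith T (L ^ 2 * Real.exp (-u ^ 2 / b)) (L * Real.exp (2 * u - u ^ 2 / (2 * b)))
    u s r η η1 K0 (S2 * Real.exp 2) C1 (Real.exp u) (W ^ 3) (T ^ κ) (Pb T b u) IM Kf hT0.le
    (by positivity) (by positivity) hu hs0 hr0 hη hη1 hη1d hK0 (by positivity) (by positivity)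
    (by positivity) hW3 hKf hfin1 hIM2
  refine hA.trans ?_
  rw [← hs]
  have hP2 : 0 ≤ L * Real.exp (2 * u - u ^ 2 / (2 * b)) := by positivity
  have h1 : Kf * (L * Real.exp (2 * u - u ^ 2 / (2 * b))) ≤
      2 * Kf * (L * Real.exp (2 * u - u ^ 2 / (2 * b))) := by
    have := mul_nonneg hKf0.le hP2
    linarith
  have h2 : Kf * T ≤ 2 * Kf * T := by
    have := mul_nonneg hKf0.le hT0.le
    linarith
  have h3 : T / (2 * Real.pi) * ((1 + η) * (L ^ 2 * Real.exp (-u ^ 2 / b) / s) +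
      Kf * (L * Real.exp (2 * u - u ^ 2 / (2 * b))) + (1 + η) * u) ≤
      T / (2 * Real.pi) * ((1 + η) * (L ^ 2 * Real.exp (-u ^ 2 / b) / s) +
      2 * Kf * (L * Real.exp (2 * u - u ^ 2 / (2 * b))) + (1 + η) * u) := by
    apply mul_le_mul_of_nonneg_left _ (by positivity)
    linarith
  linarith

end H479.U
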