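import Pool.Graph.R_seed8.H343R2.ZeroSide
import Pool.Graph.R_seed8.Helper923.PNT

open Finset MeasureTheory

namespace H479.U

/-- the weights `Λ(n)²/n` -/
noncomputable def wn (n : ℕ) : ℝ := (ArithmeticFunction.vonMangoldt n) ^ 2 / n

lemma wn_nonneg (n : ℕ) : 0 ≤ wn n := by unfold wn; positivity

/-- the smoothed sum of `Λ²/n` with width `b` -/
noncomputable def VVb (b u : ℝ) : ℝ := ∑' n : ℕ, wn n * Real.exp (-(u - Real.log n) ^ 2 / b)

/-- sum of `Λ²/n` over `v < log n ≤ v + h`, `n ≤ N` -/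
noncomputable def Scell (h v : ℝ) (N : ℕ) : ℝ :=
  ∑ n ∈ (Icc 1 N).filter (fun n : ℕ => v < Real.log n ∧ Real.log n ≤ v + h), wn n

lemma Scell_nonneg (h v : ℝ) (N : ℕ) : 0 ≤ Scell h v N :=
  sum_nonneg fun n _ => wn_nonneg n

lemma Scell_zero {h v : ℝ} (hv : v + h < 0) (N : ℕ) : Scell h v N = 0 := by
  unfold Scell
  rw [sum_eq_zero]
  intro n hn
  rw [mem_filter, mem_Icc] at hn
  have : 0 ≤ Real.log n := Real.log_nonneg (by exact_mod_cast hn.1.1)
  linarith [hn.2.2]

lemma wn_sum_le (N : ℕ) : ∑ n ∈ Icc 1 N, wn n ≤ (Real.log N) ^ 2 / 2 + 8 * (Real.log N + 1) := by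
  rcases Nat.eq_zero_or_pos N with h | h
  · subst h; simp
  · exact H370.lam_sq_sum_nat N h

/-- bound for bounded `v` -/
lemma Scell_bdd (h x0 : ℝ) : ∃ K : ℝ, 0 ≤ K ∧ ∀ v : ℝ, v ≤ x0 → ∀ N : ℕ,
    Scell h v N ≤ K := by
  have hK0 : (0 : ℝ) ≤ ∑ n ∈ Icc 1 ⌊Real.exp (x0 + h)⌋₊, wn n := sum_nonneg fun n _ => wn_nonneg n
  refine ⟨∑ n ∈ Icc 1 ⌊Real.exp (x0 + h)⌋₊, wn n, hK0, fun v hv N => ?_⟩
  unfold Scell
  apply sum_le_sum_of_subset_of_nonneg
  · intro n hn
    rw [mem_filter, mem_Icc] at hn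
    rw [mem_Icc]
    refine ⟨hn.1.1, ?_⟩
    have hn0 : (0 : ℝ) < n := by exact_mod_cast hn.1.1
    apply Nat.le_floor
    rw [← Real.exp_log hn0]
    apply Real.exp_le_exp.2
    linarith [hn.2.2]
  · intro n _ _
    exact wn_nonneg n

/-- bound from the prime number theorem -/
lemma Scell_pnt (h : ℝ) (hh : 0 < h) (hh1 : h ≤ 1 / 4) : ∃ x0 : ℝ, 0 ≤ x0 ∧ ∀ v : ℝ, x0 ≤ v → ∀ N : ℕ,
    Scell h v N ≤ (v + h) * (h * (1 + 5 * h)) := by
  obtain ⟨Y0, hY0⟩ : ∃ Y0 : ℝ, ∀ y : ℝ, Y0 ≤ y → |Chebyshev.psi y - y| ≤ (h ^ 2 / 2) * y := by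
    have h1 := Pool.Agent.Helper923.PNT.psi_div_tendsto
    rw [Metric.tendsto_atTop] at h1
    obtain ⟨Y0, hY0⟩ := h1 (h ^ 2 / 2) (by positivity)
    refine ⟨max Y0 1, fun y hy => ?_⟩
    have hy1 : 1 ≤ y := (le_max_right _ _).trans hy
    have hy0 : 0 < y := by linarith
    have h1 := hY0 y ((le_max_left _ _).trans hy)
    rw [Real.dist_eq] at h1
    have h2 : Chebyshev.psi y - y = (Chebyshev.psi y / y - 1) * y := by field_simp
    rw [h2, abs_mul, abs_of_pos hy0]
    exact mul_le_mul_of_nonneg_right h1.le hy0.le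
  refine ⟨max 0 (Real.log (max Y0 1)), le_max_left _ _, fun v hv N => ?_⟩
  have hv0 : 0 ≤ v := (le_max_left _ _).trans hv
  have hev : Y0 ≤ Real.exp v := by
    have h1 : Real.log (max Y0 1) ≤ v := (le_max_right _ _).trans hv
    have h2 : (0 : ℝ) < max Y0 1 := lt_of_lt_of_le one_pos (le_max_right _ _)
    have h3 : max Y0 1 ≤ Real.exp v := by
      rw [← Real.exp_log h2]; exact Real.exp_le_exp.2 h1
    exact (le_max_left _ _).trans h3
  have hev2 : Y0 ≤ Real.exp (v + h) := hev.trans (Real.exp_le_exp.2 (by linarith))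
  have e1 := (abs_le.1 (hY0 _ hev)).1
  have e2 := (abs_le.1 (hY0 _ hev2)).2
  have hE : 0 < Real.exp v := Real.exp_pos v
  have hpsi : Chebyshev.psi (Real.exp (v + h)) - Chebyshev.psi (Real.exp v) ≤
      Real.exp v * (h * (1 + 5 * h)) := by
    have h1 : Real.exp (v + h) = Real.exp v * Real.exp h := Real.exp_add v h
    have h2 : Real.exp h ≤ 1 + h + h ^ 2 := by
      have := Real.abs_exp_sub_one_sub_id_le (x := h) (by rw [abs_of_pos hh]; linarith)
      have h3 := (abs_le.1 this).2
      linarith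
    rw [h1] at e2 ⊢
    have h4 : Real.exp v * Real.exp h ≤ Real.exp v * (1 + h + h ^ 2) := by gcongr
    have h5 : h ^ 2 / 2 * (Real.exp v * Real.exp h) ≤ h ^ 2 / 2 * (Real.exp v * (1 + h + h ^ 2)) := by
      gcongr
    have h6 : Real.exp v * (1 + h + h ^ 2) + h ^ 2 / 2 * (Real.exp v * (1 + h + h ^ 2)) -
        (Real.exp v - h ^ 2 / 2 * Real.exp v) ≤ Real.exp v * (h * (1 + 5 * h)) := by
      have : Real.exp v * (1 + h + h ^ 2) + h ^ 2 / 2 * (Real.exp v * (1 + h + h ^ 2)) -
        (Real.exp v - h ^ 2 / 2 * Real.exp v) = Real.exp v * (h + 2 * h ^ 2 +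
          h ^ 3 / 2 + h ^ 4 / 2) := by ring
      rw [this]
      apply mul_le_mul_of_nonneg_left _ hE.le
      have h7 : h ^ 3 ≤ h ^ 2 := by
        have := pow_le_pow_of_le_one hh.le (by linarith : h ≤ 1) (show 2 ≤ 3 by norm_num)
        exact this
      have h8 : h ^ 4 ≤ h ^ 2 := pow_le_pow_of_le_one hh.le (by linarith : h ≤ 1) (by norm_num)
      nlinarith [sq_nonneg h]
    linarith
  -- the sum
  have hsum : Scell h v N ≤ (v + h) / Real.exp v *
      (Chebyshev.psi (Real.exp (v + h)) - Chebyshev.psi (Real.exp v)) := by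
    have hle : ⌊Real.exp v⌋₊ ≤ ⌊Real.exp (v + h)⌋₊ :=
      Nat.floor_le_floor (Real.exp_le_exp.2 (by linarith))
    have hpsi2 : Chebyshev.psi (Real.exp (v + h)) - Chebyshev.psi (Real.exp v) =
        ∑ n ∈ Ioc ⌊Real.exp v⌋₊ ⌊Real.exp (v + h)⌋₊, ArithmeticFunction.vonMangoldt n := by
      unfold Chebyshev.psi
      rw [← sum_Ioc_consecutive (fun n => ArithmeticFunction.vonMangoldt n) (Nat.zero_le _) hle]
      ring
    rw [hpsi2, mul_sum]
    unfold Scell
    calc ∑ n ∈ (Icc 1 N).filter (fun n : ℕ => v < Real.log n ∧ Real.log n ≤ v + h), wn n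
        ≤ ∑ n ∈ (Icc 1 N).filter (fun n : ℕ => v < Real.log n ∧ Real.log n ≤ v + h),
          (v + h) / Real.exp v * ArithmeticFunction.vonMangoldt n := by
          apply sum_le_sum
          intro n hn
          rw [mem_filter, mem_Icc] at hn
          have hn0 : (0 : ℝ) < n := by exact_mod_cast hn.1.1
          have hL0 : 0 ≤ ArithmeticFunction.vonMangoldt n := ArithmeticFunction.vonMangoldt_nonneg
          have hL1 : ArithmeticFunction.vonMangoldt n ≤ v + h :=
            ArithmeticFunction.vonMangoldt_le_log.trans hn.2.2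
          have hn1 : Real.exp v ≤ n := by
            rw [← Real.exp_log hn0]; exact Real.exp_le_exp.2 hn.2.1.le
          unfold wn
          rw [div_mul_eq_mul_div, sq]
          gcongr
      _ ≤ ∑ n ∈ Ioc ⌊Real.exp v⌋₊ ⌊Real.exp (v + h)⌋₊,
          (v + h) / Real.exp v * ArithmeticFunction.vonMangoldt n := by
          apply sum_le_sum_of_subset_of_nonneg
          · intro n hn
            rw [mem_filter, mem_Icc] at hn
            have hn0 : (0 : ℝ) < n := by exact_mod_cast hn.1.1
            rw [mem_Ioc]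
            constructor
            · rw [Nat.floor_lt hE.le, ← Real.exp_log hn0]
              exact Real.exp_lt_exp.2 hn.2.1
            · apply Nat.le_floor
              rw [← Real.exp_log hn0]
              exact Real.exp_le_exp.2 hn.2.2
          · intro n _ _
            have hL0 : 0 ≤ ArithmeticFunction.vonMangoldt n := ArithmeticFunction.vonMangoldt_nonneg
            positivity
  refine hsum.trans ?_
  calc (v + h) / Real.exp v *
      (Chebyshev.psi (Real.exp (v + h)) - Chebyshev.psi (Real.exp v)) ≤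
      (v + h) / Real.exp v * (Real.exp v * (h * (1 + 5 * h))) := by
        apply mul_le_mul_of_nonneg_left hpsi; positivity
    _ = _ := by field_simp

/-- continuous majorant -/
lemma Scell_le (h : ℝ) (hh : 0 < h) (hh1 : h ≤ 1 / 4) : ∃ K : ℝ, 0 ≤ K ∧ ∀ v : ℝ, ∀ N : ℕ,
    Scell h v N ≤ h * (1 + 5 * h) * (|v| + h) + K := by
  obtain ⟨x0, hx0, h1⟩ := Scell_pnt h hh hh1
  obtain ⟨K, hK, h2⟩ := Scell_bdd h x0
  refine ⟨K, hK, fun v N => ?_⟩
  rcases le_or_gt x0 v with hv | hv
  · have h3 := h1 v hv N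
    have h4 : v ≤ |v| := le_abs_self v
    have h5 : (v + h) * (h * (1 + 5 * h)) ≤ (|v| + h) * (h * (1 + 5 * h)) := by gcongr
    linarith
  · have h3 := h2 v hv.le N
    have : 0 ≤ h * (1 + 5 * h) * (|v| + h) := by positivity
    linarith

/-- smoothing of one term -/
lemma smooth_term (b h θ u l : ℝ) (hb : 0 < b) (hh : 0 < h) (hθ : 0 < θ) (hθ1 : θ < 1) :
    Real.exp (-(u - l) ^ 2 / b) ≤ (Real.exp (h ^ 2 / (θ * b)) / h) *
      ∫ v in (l - h)..l, Real.exp (-((1 - θ) / b) * (v - u) ^ 2) := by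
  have h1 : ∀ v ∈ Set.Icc (l - h) l, Real.exp (-(u - l) ^ 2 / b) ≤
      Real.exp (h ^ 2 / (θ * b)) * Real.exp (-((1 - θ) / b) * (v - u) ^ 2) := by
    intro v hv
    rw [← Real.exp_add]
    apply Real.exp_le_exp.2
    have h2 : (1 - θ) * (v - u) ^ 2 ≤ (u - l) ^ 2 + h ^ 2 / θ := by
      have h3 : (v - l) ^ 2 ≤ h ^ 2 := by
        have : l - v ≤ h := by linarith [hv.1]
        have : 0 ≤ l - v := by linarith [hv.2]
        nlinarith
      have h4 : (1 - θ) * (v - u) ^ 2 ≤ (u - l) ^ 2 + (v - l) ^ 2 / θ := by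
        have h5 : (u - l) ^ 2 + (v - l) ^ 2 / θ - (1 - θ) * (v - u) ^ 2 =
            (θ * (v - u) - (v - l)) ^ 2 / θ + (v - l) ^ 2 := by
          field_simp
          ring
        have h6 : 0 ≤ (θ * (v - u) - (v - l)) ^ 2 / θ := by positivity
        have h8 := sq_nonneg (v - l)
        linarith
      have h7 : (v - l) ^ 2 / θ ≤ h ^ 2 / θ := by gcongr
      linarith
    have e : h ^ 2 / (θ * b) + -((1 - θ) / b) * (v - u) ^ 2 =
        (h ^ 2 / θ - (1 - θ) * (v - u) ^ 2) / b := by
      field_simp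
      ring
    rw [e]
    apply div_le_div_of_nonneg_right _ hb.le
    linarith
  have hc : Continuous (fun v : ℝ => Real.exp (h ^ 2 / (θ * b)) *
      Real.exp (-((1 - θ) / b) * (v - u) ^ 2)) := by fun_prop
  have h2 := intervalIntegral.integral_mono_on (a := l - h) (b := l) (μ := volume) (by linarith)
    ((continuous_const (y := Real.exp (-(u - l) ^ 2 / b))).intervalIntegrable _ _)
    (hc.intervalIntegrable _ _) h1
  rw [intervalIntegral.integral_const, smul_eq_mul, intervalIntegral.integral_const_mul] at h2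
  rw [div_mul_eq_mul_div, le_div_iff₀ hh]
  have e : l - (l - h) = h := by ring
  rw [e] at h2
  linarith

lemma wn_zero : wn 0 = 0 := by unfold wn; simp

lemma gshift_int (c u : ℝ) (hc : 0 < c) : Integrable (fun v : ℝ => Real.exp (-c * (v - u) ^ 2)) :=
  (integrable_exp_neg_mul_sq hc).comp_sub_right u

lemma gshift_abs_int (c u : ℝ) (hc : 0 < c) :
    Integrable (fun v : ℝ => |v - u| * Real.exp (-c * (v - u) ^ 2)) := by
  have h := (integrable_mul_exp_neg_mul_sq hc).norm.comp_sub_right u
  refine h.congr (Filter.Eventually.of_forall fun v => ?_)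
  simp only [norm_mul, Real.norm_eq_abs, Real.abs_exp]

/-- upper bound by the prime number theorem -/
theorem VVb_le (b η : ℝ) (hb : 0 < b) (hη : 0 < η) : ∃ K : ℝ, 0 ≤ K ∧ ∀ u : ℝ, 0 ≤ u →
    Summable (fun n : ℕ => wn n * Real.exp (-(u - Real.log n) ^ 2 / b)) ∧
    VVb b u ≤ (1 + η) * Real.sqrt (Real.pi * b) * u + K := by
  set η1 : ℝ := min η 1 with hη1
  have hη10 : 0 < η1 := lt_min hη one_pos
  have hη11 : η1 ≤ 1 := min_le_right _ _
  have hη12 : η1 ≤ η := min_le_left _ _
  set θ : ℝ := η1 / 8 with hθ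
  have hθ0 : 0 < θ := by positivity
  have hθ1 : θ ≤ 1 / 8 := by rw [hθ]; linarith
  set h : ℝ := min (η1 / 40) (θ * b * η1 / 8) with hh
  have hh0 : 0 < h := lt_min (by positivity) (by positivity)
  have hh1 : h ≤ η1 / 40 := min_le_left _ _
  have hh2 : h ≤ θ * b * η1 / 8 := min_le_right _ _
  have hh3 : h ≤ 1 / 4 := by linarith
  obtain ⟨K0, hK0, hS⟩ := Scell_le h hh0 hh3
  set c : ℝ := (1 - θ) / b with hc
  have hc0 : 0 < c := div_pos (by linarith) hb
  set E : ℝ := Real.exp (h ^ 2 / (θ * b)) with hE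
  have hE0 : 0 < E := Real.exp_pos _
  set K1 : ℝ := ∫ x : ℝ, |x| * Real.exp (-c * x ^ 2) with hK1
  have hK10 : 0 ≤ K1 := integral_nonneg fun x => by positivity
  have hgc : ∫ x : ℝ, Real.exp (-c * x ^ 2) = Real.sqrt (Real.pi / c) := integral_gaussian c
  set s : ℝ := Real.sqrt (Real.pi / c) with hs
  have hs0 : 0 ≤ s := Real.sqrt_nonneg _
  set K : ℝ := (E / h) * (h * (1 + 5 * h) * (K1 + h * s) + K0 * s) with hK
  have hK' : 0 ≤ K := by positivity
  refine ⟨K, hK', fun u hu => ?_⟩
  set g : ℝ → ℝ := fun v => Real.exp (-c * (v - u) ^ 2) with hg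
  have hgi : Integrable g := gshift_int c u hc0
  have hgv : ∫ v, g v = s := by
    rw [← hgc]
    exact integral_sub_right_eq_self (fun x : ℝ => Real.exp (-c * x ^ 2)) u
  have hgai : Integrable (fun v : ℝ => |v - u| * g v) := gshift_abs_int c u hc0
  have hgav : ∫ v, |v - u| * g v = K1 :=
    integral_sub_right_eq_self (fun x : ℝ => |x| * Real.exp (-c * x ^ 2)) u
  -- the majorant
  set M : ℝ → ℝ := fun v => (h * (1 + 5 * h) * (u + h) + K0) * g v +
    (h * (1 + 5 * h)) * (|v - u| * g v) with hM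
  have hMi : Integrable M := (hgi.const_mul _).add (hgai.const_mul _)
  have hMv : ∫ v, M v = (h * (1 + 5 * h) * (u + h) + K0) * s + (h * (1 + 5 * h)) * K1 := by
    simp only [hM]
    rw [integral_add (hgi.const_mul _) (hgai.const_mul _), integral_const_mul, integral_const_mul,
      hgv, hgav]
  have hpart : ∀ N : ℕ, ∑ n ∈ Icc 1 N, wn n * Real.exp (-(u - Real.log n) ^ 2 / b) ≤
      (E / h) * ∫ v, M v := by
    intro N
    have hind : ∀ n : ℕ, Integrable (fun v : ℝ => wn n *
        (Set.Ico (Real.log n - h) (Real.log n)).indicator g v) := by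
      intro n
      exact (hgi.indicator measurableSet_Ico).const_mul _
    calc ∑ n ∈ Icc 1 N, wn n * Real.exp (-(u - Real.log n) ^ 2 / b)
        ≤ ∑ n ∈ Icc 1 N, wn n * ((E / h) * ∫ v in (Real.log n - h)..(Real.log n), g v) := by
          apply sum_le_sum
          intro n _
          exact mul_le_mul_of_nonneg_left (smooth_term b h θ u (Real.log n) hb hh0 hθ0
            (by linarith)) (wn_nonneg n)
      _ = (E / h) * ∑ n ∈ Icc 1 N, ∫ v, wn n *
          (Set.Ico (Real.log n - h) (Real.log n)).indicator g v := by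
          rw [mul_sum]
          apply sum_congr rfl
          intro n _
          rw [integral_const_mul, integral_indicator measurableSet_Ico,
            integral_Ico_eq_integral_Ioc, ← intervalIntegral.integral_of_le (by linarith)]
          ring
      _ = (E / h) * ∫ v, ∑ n ∈ Icc 1 N, wn n *
          (Set.Ico (Real.log n - h) (Real.log n)).indicator g v := by
          rw [integral_finsetSum _ fun n _ => hind n]
      _ ≤ (E / h) * ∫ v, M v := by
          apply mul_le_mul_of_nonneg_left _ (by positivity)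
          apply integral_mono (integrable_finsetSum _ fun n _ => hind n) hMi
          intro v
          have h1 : ∑ n ∈ Icc 1 N, wn n *
              (Set.Ico (Real.log n - h) (Real.log n)).indicator g v = Scell h v N * g v := by
            unfold Scell
            rw [sum_filter, sum_mul]
            apply sum_congr rfl
            intro n _
            by_cases hm : v < Real.log n ∧ Real.log n ≤ v + h
            · rw [if_pos hm, Set.indicator_of_mem]
              exact ⟨by linarith [hm.2], hm.1⟩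
            · rw [if_neg hm, Set.indicator_of_notMem, mul_zero, zero_mul]
              intro hmem
              exact hm ⟨hmem.2, by linarith [hmem.1]⟩
          simp only
          rw [h1]
          have h2 := hS v N
          have h3 : |v| ≤ u + |v - u| := by
            have : |v| = |u + (v - u)| := by ring_nf
            rw [this]
            refine (abs_add_le _ _).trans ?_
            rw [abs_of_nonneg hu]
          have h4 : 0 ≤ g v := (Real.exp_pos _).le
          have h5 : Scell h v N ≤ (h * (1 + 5 * h) * (u + h) + K0) +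
              (h * (1 + 5 * h)) * |v - u| := by
            have : h * (1 + 5 * h) * (|v| + h) ≤ h * (1 + 5 * h) * (u + |v - u| + h) := by gcongr
            nlinarith
          have h6 := mul_le_mul_of_nonneg_right h5 h4
          simp only [hM]
          linarith
  have hfin : (E / h) * ∫ v, M v ≤ (1 + η) * Real.sqrt (Real.pi * b) * u + K := by
    rw [hMv]
    have e1 : (E / h) * ((h * (1 + 5 * h) * (u + h) + K0) * s + (h * (1 + 5 * h)) * K1) =
        E * (1 + 5 * h) * s * u + K := by
      rw [hK]; field_simp; ring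
    rw [e1]
    have e2 : E * (1 + 5 * h) * s ≤ (1 + η) * Real.sqrt (Real.pi * b) := by
      have hs2 : s ≤ (1 + θ) * Real.sqrt (Real.pi * b) := by
        have h1 : Real.pi / c ≤ (1 + θ) ^ 2 * (Real.pi * b) := by
          rw [hc, div_div_eq_mul_div, div_le_iff₀ (by linarith)]
          have h2 : 1 ≤ (1 + θ) ^ 2 * (1 - θ) := by nlinarith [sq_nonneg θ, mul_pos hθ0 hθ0]
          have h3 : 0 ≤ Real.pi * b := by positivity
          nlinarith
        rw [hs]
        refine (Real.sqrt_le_sqrt h1).trans ?_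
        rw [Real.sqrt_mul (by positivity), Real.sqrt_sq (by linarith)]
      have hE2 : E ≤ Real.exp (η1 / 8) := by
        rw [hE]
        apply Real.exp_le_exp.2
        rw [div_le_iff₀ (by positivity)]
        have h4 : h ^ 2 ≤ h := by nlinarith
        calc h ^ 2 ≤ h := h4
          _ ≤ θ * b * η1 / 8 := hh2
          _ = η1 / 8 * (θ * b) := by ring
      have hE3 : 1 + 5 * h ≤ Real.exp (η1 / 8) := by
        have := Real.add_one_le_exp (η1 / 8); linarith
      have hE4 : 1 + θ ≤ Real.exp (η1 / 8) := by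
        have := Real.add_one_le_exp (η1 / 8); linarith
      have hE5 : Real.exp (η1 / 8) * Real.exp (η1 / 8) * Real.exp (η1 / 8) ≤ 1 + η1 := by
        rw [← Real.exp_add, ← Real.exp_add]
        have h5 := Real.exp_bound_div_one_sub_of_interval (x := η1 / 8 + η1 / 8 + η1 / 8)
          (by positivity) (by linarith)
        refine h5.trans ?_
        rw [div_le_iff₀ (by linarith)]
        nlinarith
      calc E * (1 + 5 * h) * s ≤ Real.exp (η1 / 8) * Real.exp (η1 / 8) *
          (Real.exp (η1 / 8) * Real.sqrt (Real.pi * b)) := by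
            have h7 : s ≤ Real.exp (η1 / 8) * Real.sqrt (Real.pi * b) :=
              hs2.trans (mul_le_mul_of_nonneg_right hE4 (Real.sqrt_nonneg _))
            gcongr
        _ = (Real.exp (η1 / 8) * Real.exp (η1 / 8) * Real.exp (η1 / 8)) *
            Real.sqrt (Real.pi * b) := by ring
        _ ≤ (1 + η1) * Real.sqrt (Real.pi * b) := by gcongr
        _ ≤ (1 + η) * Real.sqrt (Real.pi * b) := by gcongr
    have := mul_le_mul_of_nonneg_right e2 hu
    linarith
  have hrange : ∀ N : ℕ, ∑ n ∈ range N, wn n * Real.exp (-(u - Real.log n) ^ 2 / b) ≤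
      (1 + η) * Real.sqrt (Real.pi * b) * u + K := by
    intro N
    refine le_trans ?_ ((hpart N).trans hfin)
    have h1 : ∑ n ∈ range N, wn n * Real.exp (-(u - Real.log n) ^ 2 / b) ≤
        ∑ n ∈ range (N + 1), wn n * Real.exp (-(u - Real.log n) ^ 2 / b) :=
      sum_le_sum_of_subset_of_nonneg (range_mono (Nat.le_succ N)) fun n _ _ =>
        mul_nonneg (wn_nonneg n) (Real.exp_pos _).le
    refine h1.trans (le_of_eq ?_)
    rw [range_eq_Ico, sum_eq_sum_Ico_succ_bot (by omega), wn_zero, zero_mul, zero_add]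
    rfl
  have hnn : ∀ n : ℕ, 0 ≤ wn n * Real.exp (-(u - Real.log n) ^ 2 / b) := fun n =>
    mul_nonneg (wn_nonneg n) (Real.exp_pos _).le
  exact ⟨summable_of_sum_range_le hnn hrange, Real.tsum_le_of_sum_range_le hnn hrange⟩

end H479.U
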