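import Pool.Agent.H479.U.Conv
import Pool.Graph.R_seed8.H370R2.Fin1

open Finset MeasureTheory Complex ProbabilityTheory
open scoped NNReal

namespace H479.U

/-- an admissible window -/
structure Win (w : ℝ → ℝ) : Prop where
  meas : Measurable w
  nonneg : ∀ x, 0 ≤ w x
  bdd : ∃ M : ℝ, ∀ x, w x ≤ M
  even : ∀ x, w (-x) = w x
  supp : ∀ x, 1 / 2 < |x| → w x = 0
  one : ∫ x, w x = 1

/-- its self-convolution -/
noncomputable def WW (w : ℝ → ℝ) (a : ℝ) : ℝ := ∫ t, w t * w (a - t)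

noncomputable def kapw (w : ℝ → ℝ) (z : ℂ) : ℂ := ∫ x : ℝ, (w x : ℂ) * cexp (I * z * x)

variable {w : ℝ → ℝ}

lemma Win.intf (hw : Win w) (f : ℝ → ℂ) (hf : Continuous f) :
    Integrable (fun x : ℝ => (w x : ℂ) * f x) := by
  obtain ⟨M, hM⟩ := hw.bdd
  have h1 : IntegrableOn (fun x : ℝ => (w x : ℂ) * f x) (Set.Icc (-(1 / 2)) (1 / 2)) := by
    have h2 : IntegrableOn f (Set.Icc (-(1 / 2)) (1 / 2)) := hf.continuousOn.integrableOn_Icc
    refine h2.bdd_mul (c := M)
      ((Complex.measurable_ofReal.comp hw.meas).aestronglyMeasurable) ?_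
    refine Filter.Eventually.of_forall fun x => ?_
    rw [Complex.norm_real, Real.norm_of_nonneg (hw.nonneg x)]
    exact hM x
  refine h1.integrable_of_forall_notMem_eq_zero fun x hx => ?_
  have : 1 / 2 < |x| := by
    by_contra h
    push Not at h
    exact hx (abs_le.1 h)
  rw [hw.supp x this]
  simp

lemma Win.intr (hw : Win w) (f : ℝ → ℝ) (hf : Continuous f) :
    Integrable (fun x : ℝ => w x * f x) := by
  have h := (hw.intf (fun x => (f x : ℂ)) (by fun_prop)).re
  refine h.congr (Filter.Eventually.of_forall fun x => ?_)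
  simp

lemma Win.int (hw : Win w) : Integrable w := by
  have h := hw.intr (fun _ => 1) continuous_const
  refine h.congr (Filter.Eventually.of_forall fun x => ?_)
  simp

lemma Win.int2 (hw : Win w) (a : ℝ) : Integrable (fun t : ℝ => w t * w (a - t)) := by
  obtain ⟨M, hM⟩ := hw.bdd
  have h1 : Integrable (fun t : ℝ => w (a - t) * w t) := by
    refine hw.int.bdd_mul (c := M) ?_ ?_
    · exact (hw.meas.comp (measurable_const.sub measurable_id)).aestronglyMeasurable
    · refine Filter.Eventually.of_forall fun x => ?_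
      rw [Real.norm_of_nonneg (hw.nonneg _)]
      exact hM _
  refine h1.congr (Filter.Eventually.of_forall fun x => ?_)
  ring

lemma WW_nonneg (hw : Win w) (a : ℝ) : 0 ≤ WW w a :=
  integral_nonneg fun t => mul_nonneg (hw.nonneg _) (hw.nonneg _)

lemma WW_zero (hw : Win w) : WW w 0 = ∫ t, w t * w t := by
  unfold WW
  congr 1
  funext t
  rw [zero_sub, hw.even]

lemma Win.int_sq (hw : Win w) : Integrable (fun t : ℝ => w t * w t) := by
  refine (hw.int2 0).congr (Filter.Eventually.of_forall fun t => ?_)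
  simp only
  rw [zero_sub, hw.even]

lemma WW_le (hw : Win w) (a : ℝ) : WW w a ≤ WW w 0 := by
  have h1 : Integrable (fun t : ℝ => w (a - t) * w (a - t)) := hw.int_sq.comp_sub_left a
  have h2 : ∫ t, w (a - t) * w (a - t) = WW w 0 := by
    rw [WW_zero hw]
    exact integral_sub_left_eq_self (fun t => w t * w t) volume a
  have h3 : ∫ t, (w t * w t + w (a - t) * w (a - t)) / 2 = WW w 0 := by
    rw [integral_div, integral_add hw.int_sq h1, h2, WW_zero hw]
    ring
  rw [← h3]
  unfold WW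
  apply integral_mono (hw.int2 a) ((hw.int_sq.add h1).div_const 2)
  intro t
  simp only [Pi.add_apply]
  nlinarith [sq_nonneg (w t - w (a - t))]

lemma WW_even (hw : Win w) (a : ℝ) : WW w (-a) = WW w a := by
  unfold WW
  rw [← integral_neg_eq_self]
  congr 1
  funext t
  rw [hw.even]
  congr 1
  rw [← hw.even]
  congr 1
  ring

lemma WW_supp (hw : Win w) (a : ℝ) (ha : 1 < |a|) : WW w a = 0 := by
  unfold WW
  have : ∀ t, w t * w (a - t) = 0 := by
    intro t
    by_cases h1 : 1 / 2 < |t|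
    · rw [hw.supp t h1, zero_mul]
    · push Not at h1
      have : 1 / 2 < |a - t| := by
        have h2 : |a| ≤ |a - t| + |t| := by
          have := abs_add_le (a - t) t
          rwa [sub_add_cancel] at this
        linarith
      rw [hw.supp _ this, mul_zero]
  simp [this]

lemma WW_int (hw : Win w) : Integrable (WW w) := by
  have h := hw.int.integrable_convolution (ContinuousLinearMap.mul ℝ ℝ) hw.int
  refine h.congr (Filter.Eventually.of_forall fun a => ?_)
  unfold WW
  rw [convolution_def]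
  rfl

lemma kapw_even (hw : Win w) (z : ℂ) : kapw w (-z) = kapw w z := by
  unfold kapw
  rw [← integral_neg_eq_self]
  congr 1
  funext x
  rw [hw.even]
  congr 2
  push_cast
  ring

lemma kapw_zero (hw : Win w) : kapw w 0 = 1 := by
  unfold kapw
  have : (fun x : ℝ => (w x : ℂ) * cexp (I * 0 * x)) = fun x : ℝ => ((w x : ℝ) : ℂ) := by
    funext x; simp
  rw [this, integral_complex_ofReal, hw.one]
  simp

lemma kapw_sq (hw : Win w) (z : ℂ) :
    Integrable (fun a : ℝ => (WW w a : ℂ) * cexp (I * z * a)) ∧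
    kapw w z ^ 2 = ∫ a : ℝ, (WW w a : ℂ) * cexp (I * z * a) := by
  have hfi : Integrable (fun x : ℝ => (w x : ℂ) * cexp (I * z * x)) :=
    hw.intf _ (by fun_prop)
  have h0 := hfi.integrable_convolution (ContinuousLinearMap.mul ℝ ℂ) hfi
  have h1 := integral_convolution (ContinuousLinearMap.mul ℝ ℂ) (μ := volume) (ν := volume) hfi hfi
  have h2 : ∀ a : ℝ, (convolution (fun x : ℝ => (w x : ℂ) * cexp (I * z * x))
      (fun x : ℝ => (w x : ℂ) * cexp (I * z * x)) (ContinuousLinearMap.mul ℝ ℂ) volume) a =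
      (WW w a : ℂ) * cexp (I * z * a) := by
    intro a
    rw [convolution_def]
    have h3 : ∀ t : ℝ, (ContinuousLinearMap.mul ℝ ℂ) ((w t : ℂ) * cexp (I * z * t))
        ((w (a - t) : ℂ) * cexp (I * z * ((a - t : ℝ) : ℂ))) =
        ((w t * w (a - t) : ℝ) : ℂ) * cexp (I * z * a) := by
      intro t
      rw [ContinuousLinearMap.mul_apply']
      have e : cexp (I * z * a) = cexp (I * z * t) * cexp (I * z * ((a - t : ℝ) : ℂ)) := by
        rw [← Complex.exp_add]
        congr 1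
        push_cast
        ring
      rw [e]
      push_cast
      ring
    simp_rw [h3]
    rw [integral_mul_const, integral_complex_ofReal]
    rfl
  have h4 : (convolution (fun x : ℝ => (w x : ℂ) * cexp (I * z * x))
      (fun x : ℝ => (w x : ℂ) * cexp (I * z * x)) (ContinuousLinearMap.mul ℝ ℂ) volume) =
      fun a : ℝ => (WW w a : ℂ) * cexp (I * z * a) := funext h2
  rw [h4] at h0 h1
  refine ⟨h0, ?_⟩
  rw [h1, ContinuousLinearMap.mul_apply', sq]
  rfl

/-- the positive definite function -/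
noncomputable def phw (w : ℝ → ℝ) (Λ : ℝ) (r : ℝ≥0) (z : ℂ) : ℂ :=
  kapw w (Λ * z) * cexp (-(r : ℝ) * z ^ 2 / 2)

noncomputable def muw (r : ℝ≥0) : Measure (ℝ × ℝ) :=
  (volume : Measure ℝ).prod (gaussianReal 0 r)

noncomputable def kfw (w : ℝ → ℝ) (Λ : ℝ) (z : ℂ) (p : ℝ × ℝ) : ℂ :=
  (Real.sqrt (w p.1) : ℂ) * cexp (I * z * (Λ * p.1 + p.2))

lemma kfw_meas (hw : Win w) (Λ : ℝ) (z : ℂ) : Measurable (kfw w Λ z) := by
  unfold kfw
  have h1 : Measurable (fun p : ℝ × ℝ => (Real.sqrt (w p.1) : ℂ)) :=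
    Complex.measurable_ofReal.comp ((hw.meas.comp measurable_fst).sqrt)
  have h2 : Continuous (fun p : ℝ × ℝ => cexp (I * z * (Λ * p.1 + p.2))) := by fun_prop
  exact h1.mul h2.measurable

lemma kfw_memLp (hw : Win w) (Λ : ℝ) (r : ℝ≥0) (z : ℂ) : MemLp (kfw w Λ z) 2 (muw r) := by
  rw [memLp_two_iff_integrable_sq_norm (kfw_meas hw Λ z).aestronglyMeasurable]
  have h1 : Integrable (fun x : ℝ => w x * Real.exp (-2 * z.im * Λ * x)) :=
    hw.intr _ (by fun_prop)
  have h2 : Integrable (fun x : ℝ => Real.exp ((-2 * z.im) * x)) (gaussianReal 0 r) :=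
    integrable_exp_mul_gaussianReal _
  have h3 := h1.mul_prod h2
  refine h3.congr ?_
  refine Filter.Eventually.of_forall (fun p => ?_)
  simp only [kfw]
  rw [norm_mul, mul_pow, Complex.norm_exp, Complex.norm_real, Real.norm_eq_abs, sq_abs,
    Real.sq_sqrt (hw.nonneg _), mul_assoc, ← Real.exp_add, ← Real.exp_nat_mul]
  congr 2
  have : (I * z * (Λ * p.1 + p.2)).re = -z.im * (Λ * p.1 + p.2) := by
    simp [Complex.mul_re, Complex.mul_im]
  rw [this]
  push_cast
  ring

lemma kfw_inner (hw : Win w) (Λ : ℝ) (r : ℝ≥0) (z z' : ℂ) :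
    ∫ p, (starRingEnd ℂ) (kfw w Λ z p) * kfw w Λ z' p ∂(muw r) =
      phw w Λ r (z' - (starRingEnd ℂ) z) := by
  obtain ⟨ζ, hζ⟩ : ∃ ζ : ℂ, ζ = z' - (starRingEnd ℂ) z := ⟨_, rfl⟩
  rw [← hζ]
  have h1 : ∀ᵐ p ∂(muw r), (starRingEnd ℂ) (kfw w Λ z p) * kfw w Λ z' p =
      ((w p.1 : ℂ) * cexp (I * (Λ * ζ) * p.1)) * cexp ((I * ζ) * p.2) := by
    refine Filter.Eventually.of_forall (fun p => ?_)
    simp only [kfw, map_mul, Complex.conj_ofReal, ← Complex.exp_conj, map_add, Complex.conj_I]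
    have e : cexp (-I * (starRingEnd ℂ) z * (Λ * p.1 + p.2)) * cexp (I * z' * (Λ * p.1 + p.2)) =
        cexp (I * (Λ * ζ) * p.1) * cexp ((I * ζ) * p.2) := by
      rw [← Complex.exp_add, ← Complex.exp_add]
      congr 1
      rw [hζ]
      ring
    have e2 : (Real.sqrt (w p.1) : ℂ) * (Real.sqrt (w p.1) : ℂ) = (w p.1 : ℂ) := by
      rw [← Complex.ofReal_mul, Real.mul_self_sqrt (hw.nonneg _)]
    calc (Real.sqrt (w p.1) : ℂ) * cexp (-I * (starRingEnd ℂ) z * (Λ * p.1 + p.2)) *
        ((Real.sqrt (w p.1) : ℂ) * cexp (I * z' * (Λ * p.1 + p.2))) =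
        ((Real.sqrt (w p.1) : ℂ) * (Real.sqrt (w p.1) : ℂ)) *
        (cexp (-I * (starRingEnd ℂ) z * (Λ * p.1 + p.2)) * cexp (I * z' * (Λ * p.1 + p.2))) := by
          ring
      _ = _ := by rw [e, e2]; ring
  rw [integral_congr_ae h1]
  unfold muw
  rw [integral_prod_mul (fun x : ℝ => (w x : ℂ) * cexp (I * (Λ * ζ) * x))
    (fun y : ℝ => cexp ((I * ζ) * y))]
  unfold phw
  congr 1
  have := complexMGF_id_gaussianReal (μ := 0) (v := r) (I * ζ)
  unfold complexMGF at this
  simp only [id] at this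
  rw [this]
  congr 1
  push_cast
  rw [mul_pow, Complex.I_sq]
  ring

theorem gramw (hw : Win w) (Λ : ℝ) (r : ℝ≥0) : ∃ (E : Type) (_ : NormedAddCommGroup E)
    (_ : InnerProductSpace ℂ E) (k : ℂ → E), ∀ z z', inner ℂ (k z) (k z') =
      phw w Λ r (z' - (starRingEnd ℂ) z) := by
  refine ⟨Lp ℂ 2 (muw r), inferInstance, inferInstance,
    fun z => (kfw_memLp hw Λ r z).toLp _, fun z z' => ?_⟩
  rw [L2.inner_def, ← kfw_inner hw]
  apply integral_congr_ae
  filter_upwards [(kfw_memLp hw Λ r z).coeFn_toLp, (kfw_memLp hw Λ r z').coeFn_toLp] with p h1 h2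
  rw [h1, h2, RCLike.inner_apply, mul_comm]

lemma phw_even (hw : Win w) (Λ : ℝ) (r : ℝ≥0) (z : ℂ) : phw w Λ r (-z) = phw w Λ r z := by
  unfold phw
  rw [mul_neg, kapw_even hw, neg_sq]

lemma phw_zero (hw : Win w) (Λ : ℝ) (r : ℝ≥0) : phw w Λ r 0 = 1 := by
  unfold phw
  rw [mul_zero, kapw_zero hw]
  simp

end H479.U
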