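import Pool.Agent.H479.U.PM

open Finset MeasureTheory Complex

namespace H479.U

open H343.ZSide

/-- number of zeros with ordinate in `[x, x+1)` -/
noncomputable def lc (T x : ℝ) : ℝ :=
  ∑ s ∈ (Z0 T).filter (fun s => x ≤ s.im ∧ s.im < x + 1), mz s

lemma mz_nonneg (s : ℂ) : 0 ≤ mz s := by unfold mz; positivity

lemma mem_Z0 {T : ℝ} {s : ℂ} : s ∈ Z0 T ↔
    (0 < s.re ∧ s.re < 1 ∧ 0 < s.im ∧ s.im ≤ T ∧ riemannZeta s = 0) := by
  unfold Z0
  rw [Set.Finite.mem_toFinset]
  rfl

lemma lc_le : ∃ C : ℝ, 0 < C ∧ ∀ T x : ℝ, 10 ≤ T → lc T x ≤ C * Real.log T := by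
  obtain ⟨C, hC, hz⟩ := H370.zcount H370.good_zeta
  have hf0 := H343.fcount_nonneg 4
  refine ⟨2 * C + H343.fcount 4, by linarith, fun T x hT => ?_⟩
  have hlog : 1 ≤ Real.log T := by
    rw [Real.le_log_iff_exp_le (by linarith)]
    have := Real.exp_one_lt_d9
    linarith
  by_cases hne : ((Z0 T).filter (fun s => x ≤ s.im ∧ s.im < x + 1)).Nonempty
  swap
  · rw [not_nonempty_iff_eq_empty] at hne
    unfold lc
    rw [hne, sum_empty]
    positivity
  obtain ⟨s0, hs0⟩ := hne
  rw [mem_filter, mem_Z0] at hs0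
  have hxT : x ≤ T := hs0.2.1.trans hs0.1.2.2.2.1
  rcases le_or_gt (5 / 2) x with hx | hx
  · have h1 := hz (x + 1 / 2) (by linarith)
    have hfin := H370.zset_finite H370.good_zeta (x + 1 / 2 - 1) (x + 1 / 2 + 1) (by linarith)
    have h2 : lc T x ≤ (H370.NN riemannZeta (x + 1 / 2 - 1) (x + 1 / 2 + 1) : ℝ) := by
      rw [H370.NN_eq_sum H370.good_zeta _ _ (by linarith)]
      push_cast
      unfold lc mz
      apply sum_le_sum_of_subset_of_nonneg
      · intro s hs
        rw [mem_filter, mem_Z0] at hs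
        rw [Set.Finite.mem_toFinset]
        exact ⟨hs.1.1, hs.1.2.1, by linarith [hs.2.1], by linarith [hs.2.2], hs.1.2.2.2.2⟩
      · intro s _ _
        positivity
    have h3 : Real.log (x + 1 / 2) ≤ 2 * Real.log T := by
      have h4 : Real.log (T ^ 2) = 2 * Real.log T := by rw [Real.log_pow]; norm_num
      rw [← h4]
      apply Real.log_le_log (by linarith)
      nlinarith
    have h5 : C * Real.log (x + 1 / 2) ≤ C * (2 * Real.log T) := by gcongr
    have h6 : 0 ≤ H343.fcount 4 * Real.log T := by positivity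
    nlinarith
  · have h2 : lc T x ≤ H343.fcount 4 := by
      unfold lc mz H343.fcount
      apply sum_le_sum_of_subset_of_nonneg
      · intro s hs
        rw [mem_filter, mem_Z0] at hs
        rw [Set.Finite.mem_toFinset]
        exact ⟨hs.1.1, hs.1.2.1, hs.1.2.2.1, by linarith [hs.2.2], hs.1.2.2.2.2⟩
      · intro s _ _
        positivity
    have h3 : H343.fcount 4 * 1 ≤ H343.fcount 4 * Real.log T := by gcongr
    have h4 : 0 ≤ 2 * C * Real.log T := by positivity
    nlinarith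

/-- Gaussian-weighted zero count -/
noncomputable def Zg (T b t : ℝ) : ℝ := ∑ s ∈ Z0 T, mz s * Real.exp (-b * (s.im - t) ^ 2 / 2)

lemma Zg_nonneg (T b t : ℝ) : 0 ≤ Zg T b t :=
  sum_nonneg fun s _ => mul_nonneg (mz_nonneg s) (Real.exp_pos _).le

lemma Zg_cont (T b : ℝ) : Continuous (fun t => Zg T b t) := by
  unfold Zg; fun_prop

lemma exp_floor_le_b (b x : ℝ) (hb : 0 < b) : Real.exp (-b * x ^ 2 / 2) ≤
    Real.exp (1 / (2 * b) + 1) * Real.exp (-|((⌊x⌋ : ℤ) : ℝ)|) := by
  rw [← Real.exp_add]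
  apply Real.exp_le_exp.mpr
  have h1 := Int.floor_le x
  have h2 := Int.lt_floor_add_one x
  have h3 : |((⌊x⌋ : ℤ) : ℝ)| ≤ |x| + 1 := by
    rw [abs_le]
    constructor
    · have := neg_abs_le x; linarith
    · have := le_abs_self x; linarith
  have h4 : |x| ≤ b * x ^ 2 / 2 + 1 / (2 * b) := by
    have h5 : x ^ 2 = |x| ^ 2 := (sq_abs x).symm
    rw [h5]
    have h6 : b * |x| ^ 2 / 2 + 1 / (2 * b) - |x| = (b * |x| - 1) ^ 2 / (2 * b) := by
      field_simp
      ring
    have h7 : 0 ≤ (b * |x| - 1) ^ 2 / (2 * b) := by positivity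
    linarith
  have h8 : -b * x ^ 2 / 2 = -(b * x ^ 2 / 2) := by ring
  rw [h8]
  linarith

theorem Zg_le (b : ℝ) (hb : 0 < b) : ∃ C : ℝ, 0 < C ∧ ∀ T t : ℝ, 10 ≤ T →
    Zg T b t ≤ C * Real.log T := by
  classical
  obtain ⟨C, hC, h⟩ := lc_le
  set S := ∑' k : ℤ, Real.exp (-|(k : ℝ)|) with hS
  have hS0 : 0 < S := H370.summable_exp_abs.tsum_pos (fun k => (Real.exp_pos _).le) 0
    (Real.exp_pos _)
  set W := Real.exp (1 / (2 * b) + 1) with hW
  have hW0 : 0 < W := Real.exp_pos _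
  refine ⟨C * (W * S), by positivity, fun T t hT => ?_⟩
  have hlog : 0 ≤ Real.log T := Real.log_nonneg (by linarith)
  unfold Zg
  rw [← sum_fiberwise_of_maps_to (s := Z0 T)
    (t := (Z0 T).image (fun s => ⌊s.im - t⌋)) (g := fun s => ⌊s.im - t⌋)
    (fun s hs => mem_image_of_mem _ hs)]
  calc ∑ k ∈ (Z0 T).image (fun s => ⌊s.im - t⌋), ∑ s ∈ (Z0 T).filter (fun s => ⌊s.im - t⌋ = k),
        mz s * Real.exp (-b * (s.im - t) ^ 2 / 2)
      ≤ ∑ k ∈ (Z0 T).image (fun s => ⌊s.im - t⌋), (C * Real.log T) *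
          (W * Real.exp (-|(k : ℝ)|)) := by
        apply sum_le_sum
        intro k _
        calc ∑ s ∈ (Z0 T).filter (fun s => ⌊s.im - t⌋ = k),
            mz s * Real.exp (-b * (s.im - t) ^ 2 / 2) ≤
            ∑ s ∈ (Z0 T).filter (fun s => ⌊s.im - t⌋ = k), mz s * (W * Real.exp (-|(k : ℝ)|)) := by
              apply sum_le_sum
              intro s hs
              rw [mem_filter] at hs
              apply mul_le_mul_of_nonneg_left _ (mz_nonneg s)
              have := exp_floor_le_b b (s.im - t) hb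
              rw [hs.2] at this
              exact this
          _ = (∑ s ∈ (Z0 T).filter (fun s => ⌊s.im - t⌋ = k), mz s) *
              (W * Real.exp (-|(k : ℝ)|)) := by rw [sum_mul]
          _ ≤ (C * Real.log T) * (W * Real.exp (-|(k : ℝ)|)) := by
              apply mul_le_mul_of_nonneg_right _ (by positivity)
              refine le_trans ?_ (h T (t + k) hT)
              unfold lc
              apply sum_le_sum_of_subset_of_nonneg
              · intro s hs
                rw [mem_filter] at hs ⊢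
                refine ⟨hs.1, ?_, ?_⟩
                · have := Int.floor_le (s.im - t)
                  rw [hs.2] at this
                  linarith
                · have := Int.lt_floor_add_one (s.im - t)
                  rw [hs.2] at this
                  linarith
              · intro s _ _
                exact mz_nonneg s
    _ = (C * Real.log T) * (W * ∑ k ∈ (Z0 T).image (fun s => ⌊s.im - t⌋),
          Real.exp (-|(k : ℝ)|)) := by
        rw [mul_sum, mul_sum]
    _ ≤ (C * Real.log T) * (W * S) := by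
        gcongr
        exact H370.summable_exp_abs.sum_le_tsum _ (fun k _ => (Real.exp_pos _).le)
    _ = _ := by ring

/-- crude bound for the zero polynomial -/
lemma GGb_le (b u t T : ℝ) (hu : 0 ≤ u) (hb : 0 < b) (hb1 : b ≤ 1) :
    ‖H343.GGb b u t (Z0 T) mz‖ ≤ 2 * Real.exp (u / 2) * Zg T b t := by
  unfold H343.GGb Zg
  rw [mul_sum]
  refine (norm_sum_le _ _).trans (sum_le_sum fun s hs => ?_)
  rw [mem_Z0] at hs
  have hs' : s = (⟨s.re, s.im⟩ : ℂ) := rfl
  rw [norm_mul, Complex.norm_real, Real.norm_of_nonneg (mz_nonneg s)]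
  have h1 : ‖H343.hhb b u t s‖ ≤ 2 * Real.exp (u / 2) * Real.exp (-b * (s.im - t) ^ 2 / 2) := by
    conv_lhs => rw [hs']
    rw [H343.norm_hhb]
    have e1 : Real.exp (u * (s.re - 1 / 2)) ≤ Real.exp (u / 2) := by
      apply Real.exp_le_exp.2
      nlinarith [hs.2.1]
    have e2 : Real.exp (b * ((s.re - 1 / 2) ^ 2 - (s.im - t) ^ 2) / 2) ≤
        2 * Real.exp (-b * (s.im - t) ^ 2 / 2) := by
      have e3 : Real.exp (b * ((s.re - 1 / 2) ^ 2 - (s.im - t) ^ 2) / 2) =
          Real.exp (b * (s.re - 1 / 2) ^ 2 / 2) * Real.exp (-b * (s.im - t) ^ 2 / 2) := by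
        rw [← Real.exp_add]; congr 1; ring
      rw [e3]
      apply mul_le_mul_of_nonneg_right _ (Real.exp_pos _).le
      have h4 : b * (s.re - 1 / 2) ^ 2 / 2 ≤ 1 / 2 := by
        have h5 : (s.re - 1 / 2) ^ 2 ≤ 1 := by nlinarith [hs.1, hs.2.1]
        have h6 : b * (s.re - 1 / 2) ^ 2 ≤ 1 * 1 := by gcongr
        linarith
      calc Real.exp (b * (s.re - 1 / 2) ^ 2 / 2) ≤ Real.exp (1 / 2) := Real.exp_le_exp.mpr h4
        _ ≤ 2 := by
          have := Real.exp_one_lt_d9
          have h5 : Real.exp (1 / 2) ^ 2 = Real.exp 1 := by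
            rw [← Real.exp_nat_mul]; norm_num
          nlinarith [Real.exp_pos (1 / 2 : ℝ)]
    calc _ ≤ Real.exp (u / 2) * (2 * Real.exp (-b * (s.im - t) ^ 2 / 2)) := by gcongr
      _ = _ := by ring
  calc mz s * ‖H343.hhb b u t s‖ ≤
      mz s * (2 * Real.exp (u / 2) * Real.exp (-b * (s.im - t) ^ 2 / 2)) :=
        mul_le_mul_of_nonneg_left h1 (mz_nonneg s)
    _ = _ := by ring

lemma Zg_left (b T t : ℝ) (hb : 0 < b) (ht : t ≤ 0) :
    Zg T b t ≤ Real.exp (-b * t ^ 2 / 2) * Zg T b 0 := by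
  unfold Zg
  rw [mul_sum]
  apply sum_le_sum
  intro s hs
  rw [mem_Z0] at hs
  have h1 : Real.exp (-b * (s.im - t) ^ 2 / 2) ≤
      Real.exp (-b * t ^ 2 / 2) * Real.exp (-b * (s.im - 0) ^ 2 / 2) := by
    rw [← Real.exp_add]
    apply Real.exp_le_exp.2
    have h2 : 0 ≤ b * (s.im * (-t)) := by
      have := hs.2.2.1
      have : 0 ≤ -t := by linarith
      positivity
    nlinarith
  calc mz s * Real.exp (-b * (s.im - t) ^ 2 / 2) ≤
      mz s * (Real.exp (-b * t ^ 2 / 2) * Real.exp (-b * (s.im - 0) ^ 2 / 2)) :=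
        mul_le_mul_of_nonneg_left h1 (mz_nonneg s)
    _ = _ := by ring

lemma Zg_right (b T t : ℝ) (hb : 0 < b) (ht : T ≤ t) :
    Zg T b t ≤ Real.exp (-b * (t - T) ^ 2 / 2) * Zg T b T := by
  unfold Zg
  rw [mul_sum]
  apply sum_le_sum
  intro s hs
  rw [mem_Z0] at hs
  have h1 : Real.exp (-b * (s.im - t) ^ 2 / 2) ≤
      Real.exp (-b * (t - T) ^ 2 / 2) * Real.exp (-b * (s.im - T) ^ 2 / 2) := by
    rw [← Real.exp_add]
    apply Real.exp_le_exp.2
    have h2 : 0 ≤ b * ((T - s.im) * (t - T)) := by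
      have : 0 ≤ T - s.im := by linarith [hs.2.2.2.1]
      have : 0 ≤ t - T := by linarith
      positivity
    nlinarith
  calc mz s * Real.exp (-b * (s.im - t) ^ 2 / 2) ≤
      mz s * (Real.exp (-b * (t - T) ^ 2 / 2) * Real.exp (-b * (s.im - T) ^ 2 / 2)) :=
        mul_le_mul_of_nonneg_left h1 (mz_nonneg s)
    _ = _ := by ring

end H479.U
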